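import Pool.Agent.P.MP_5fda20_pr.O.Defs

/-! Counting the edges that carry a split. -/

namespace Pool.Agent.P.MP_5fda20_pr.O

open Finset Real

variable {n L : ℕ}

theorem cnt_cp {ω ω' : Om n L} {ℓ : ℕ} (h : ∀ i ≤ ℓ, op ω i = op ω' i) (x : Fin n) :
    cp ω ℓ x = cp ω' ℓ x := by
  unfold cp
  rw [h ℓ le_rfl]

theorem cnt_sum (ω : Om n L) (ℓ : ℕ) (u v : Fin n) (I : Finset (Finset (Fin n) × Finset (Fin n)))
    (hI : ∀ q ∈ I, Idx u v q) (w : Finset (Fin n) × Finset (Fin n) → ℝ) (Ξ : Prop) {F : ℝ}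
    (hF : 0 ≤ F) (h : ∀ q ∈ I, Ge ω q.1 q.1ᶜ ℓ → Sp ω ℓ q.1 q.2 u v → Ξ → w q ≤ F) :
    ∑ q ∈ I, w q * ind (Ge ω q.1 q.1ᶜ ℓ ∧ Sp ω ℓ q.1 q.2 u v ∧ Ξ) ≤
      ind (op ω ℓ s(u, v)) * F := by
  have h0 : 0 ≤ ind (op ω ℓ s(u, v)) * F := mul_nonneg (ind_nonneg _) hF
  calc ∑ q ∈ I, w q * ind (Ge ω q.1 q.1ᶜ ℓ ∧ Sp ω ℓ q.1 q.2 u v ∧ Ξ)
      ≤ ∑ q ∈ I, ind (Ge ω q.1 q.1ᶜ ℓ ∧ Sp ω ℓ q.1 q.2 u v ∧ Ξ) *
          (ind (op ω ℓ s(u, v)) * F) := by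
        refine sum_le_sum fun q hq => ?_
        rw [mul_comm]
        refine ind_mul_mono fun hP => ?_
        rw [ind_of hP.2.1.2.1, one_mul]
        exact h q hq hP.1 hP.2.1 hP.2.2
    _ ≤ 1 * (ind (op ω ℓ s(u, v)) * F) := by
        rw [← sum_mul]
        exact mul_le_mul_of_nonneg_right (sum_ind_le_one I _ fun a ha b hb h1 h2 =>
          sp_unique (hI a ha) (hI b hb) ⟨h1.1, h1.2.1⟩ ⟨h2.1, h2.2.1⟩) h0
    _ = _ := one_mul _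

theorem cnt_all (h1 : S_rm1) [NeZero L] {ℓ ℓ' : ℕ} {ε ε' : ℝ} (R : Rung n L ℓ ℓ' ε ε')
    (G F : Fin n → Fin n → Om n L → ℝ) (hF : ∀ u v ω, 0 ≤ F u v ω) (hL : ∀ u v, Lev ℓ (F u v))
    (h : ∀ u v ω, G u v ω ≤ ind (op ω ℓ s(u, v)) * F u v (rm ω s(u, v))) :
    ∑ u, ∑ v, av (G u v) ≤ 3 / n * av fun ω => ∑ u, ∑ v, F u v ω := by
  have hp : 2 * ((ℓ : ℝ) / L) ≤ 3 / n := by
    rw [R.pe, ← mul_div_assoc]
    exact div_le_div_of_nonneg_right (by linarith [R.e1]) (Nat.cast_nonneg _)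
  rw [av_sum, mul_sum]
  refine sum_le_sum fun u _ => ?_
  rw [av_sum, mul_sum]
  refine sum_le_sum fun v _ => ?_
  exact ((av_mono (h u v)).trans (h1 n L ℓ _ _ (R.small.trans (by norm_num)) (hF u v)
    (hL u v))).trans (mul_le_mul_of_nonneg_right hp (av_nonneg (hF u v)))

theorem cnt_I2 {k : ℝ} {u v : Fin n} {q : Finset (Fin n) × Finset (Fin n)} (h : q ∈ I2 k u v) :
    Idx u v q ∧ k ≤ q.2.card ∧ k ≤ (q.1 \ q.2).card := by
  simpa only [I2, mem_filter, mem_univ, true_and] using h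

theorem cnt_IU {ε : ℝ} {u v : Fin n} {q : Finset (Fin n) × Finset (Fin n)} (h : q ∈ IU ε u v) :
    Idx u v q ∧ ε * n ≤ q.1.card ∧ (q.1.card : ℝ) ≤ 8 * ε * n ∧
      1 / 16 ≤ ((q.2.card : ℝ) / q.1.card - 1 / 2) ^ 2 := by
  simpa only [IU, mem_filter, mem_univ, true_and] using h

theorem p_bal (h1 : S_rm1) (h2 : S_rm2) (h3 : S_tail) : S_bal := by
  intro n L _ ℓ ℓ' ε ε' Ξ Ξ' R hL hΞ
  have n0 : (0 : ℝ) < n := by linarith [R.n0]
  refine (cnt_all h1 R _ (fun u v ω => ind (ε * n / 10 ≤ (cp ω ℓ u).card) *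
    ind (ε * n / 10 ≤ (cp ω ℓ v).card) * ind (Ξ' ω)) (fun u v ω => ?_) (fun u v ω ω' e => ?_)
    fun u v ω => ?_).trans ?_
  · exact mul_nonneg (mul_nonneg (ind_nonneg _) (ind_nonneg _)) (ind_nonneg _)
  · simp only [cnt_cp e, hL ω ω' e]
  · refine le_trans (le_of_eq (sum_congr rfl fun q _ => (one_mul _).symm))
      (cnt_sum ω ℓ u v _ (fun q hq => (cnt_I2 hq).1) (fun _ => 1) _
        (mul_nonneg (mul_nonneg (ind_nonneg _) (ind_nonneg _)) (ind_nonneg _))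
        fun q hq a b c => ?_)
    obtain ⟨i1, i2, i3⟩ := cnt_I2 hq
    obtain ⟨s1, s2⟩ := h2 n L ℓ ω u v q.1 q.2 (R.le.trans_lt R.lt) i1 a b
    rw [ind_of (i2.trans (Nat.cast_le.2 (card_le_card s1))),
      ind_of (i3.trans (Nat.cast_le.2 (card_le_card s2))), ind_of (hΞ ω _ c), mul_one, mul_one]
  · have e : ∀ ω : Om n L, ∑ u, ∑ v, ind (ε * n / 10 ≤ (cp ω ℓ u).card) *
        ind (ε * n / 10 ≤ (cp ω ℓ v).card) * ind (Ξ' ω) =
        NB ω ℓ (ε * n / 10) ^ 2 * ind (Ξ' ω) := fun ω => by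
      rw [NB, sq, sum_mul_sum, sum_mul]
      exact sum_congr rfl fun u _ => (sum_mul _ _ _).symm
    rw [av_congr e]
    refine (mul_le_mul_of_nonneg_left ((h3 n L ℓ ℓ' ε ε' R).1 Ξ') (by positivity)).trans_eq ?_
    field_simp

theorem p_unb (h1 : S_rm1) (h2 : S_rm2) (h3 : S_QQ) : S_unb := by
  intro n L _ ℓ ℓ' ε ε' R
  have n0 : (0 : ℝ) < n := by linarith [R.n0]
  have e0 := R.e0
  have hF : ∀ (u v : Fin n) (ω : Om n L), 0 ≤ min ((cp ω ℓ u).card : ℝ) (8 * ε * n) *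
      min ((cp ω ℓ v).card : ℝ) (8 * ε * n) * ((ε * n) ^ 2)⁻¹ := fun u v ω => by positivity
  refine (cnt_all h1 R _ (fun u v ω => min ((cp ω ℓ u).card : ℝ) (8 * ε * n) *
    min ((cp ω ℓ v).card : ℝ) (8 * ε * n) * ((ε * n) ^ 2)⁻¹) hF (fun u v ω ω' e => ?_)
    fun u v ω => ?_).trans ?_
  · simp only [cnt_cp e]
  · refine cnt_sum ω ℓ u v _ (fun q hq => (cnt_IU hq).1) _ _ (hF u v _)
      fun q hq a b _ => ?_
    obtain ⟨i1, i2, i3, -⟩ := cnt_IU hq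
    obtain ⟨s1, s2⟩ := h2 n L ℓ ω u v q.1 q.2 (R.le.trans_lt R.lt) i1 a b
    have c0 : (0 : ℝ) < q.1.card := lt_of_lt_of_le (by positivity) i2
    have c1 : (q.2.card : ℝ) ≤ q.1.card := Nat.cast_le.2 (card_le_card i1.1)
    have c2 : ((q.1 \ q.2).card : ℝ) = q.1.card - q.2.card := by
      rw [card_sdiff_of_subset i1.1, Nat.cast_sub (card_le_card i1.1)]
    have c3 : (0 : ℝ) ≤ q.2.card := Nat.cast_nonneg _
    have m1 : (q.2.card : ℝ) ≤ min ((cp (rm ω s(u, v)) ℓ u).card : ℝ) (8 * ε * n) :=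
      le_min (Nat.cast_le.2 (card_le_card s1)) (c1.trans i3)
    have m2 : (q.1.card - q.2.card : ℝ) ≤ min ((cp (rm ω s(u, v)) ℓ v).card : ℝ) (8 * ε * n) :=
      le_min (c2.ge.trans (Nat.cast_le.2 (card_le_card s2))) (by linarith)
    have e : (q.2.card : ℝ) / q.1.card * (1 - (q.2.card : ℝ) / q.1.card) =
        q.2.card * (q.1.card - q.2.card) * ((q.1.card : ℝ) ^ 2)⁻¹ := by
      field_simp
    rw [e]
    refine mul_le_mul (mul_le_mul m1 m2 (by linarith) (c3.trans m1))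
      (inv_anti₀ (by positivity) (pow_le_pow_left₀ (by positivity) i2 2)) (by positivity) ?_
    positivity
  · have e : ∀ ω : Om n L, ∑ u, ∑ v, min ((cp ω ℓ u).card : ℝ) (8 * ε * n) *
        min ((cp ω ℓ v).card : ℝ) (8 * ε * n) * ((ε * n) ^ 2)⁻¹ =
        (∑ x, min ((cp ω ℓ x).card : ℝ) (8 * ε * n)) ^ 2 * ((ε * n) ^ 2)⁻¹ := fun ω => by
      rw [sq (∑ x, _), sum_mul_sum, sum_mul]
      exact sum_congr rfl fun u _ => (sum_mul _ _ _).symm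
    rw [av_congr e, av_mul_const]
    refine (mul_le_mul_of_nonneg_left (mul_le_mul_of_nonneg_right (h3 n L ℓ ℓ' ε ε' R)
      (by positivity)) (by positivity)).trans_eq ?_
    field_simp

end Pool.Agent.P.MP_5fda20_pr.O
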