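import Pool.Agent.P.MP_5fda20_pr.O.Defs

/-! The decomposition according to the first good scale. -/

namespace Pool.Agent.P.MP_5fda20_pr.O

open Finset Real

theorem p_d1 : S_d1 := by
  intro n N L l m ω P hI G h
  refine (decomp P hI G h).imp_right ?_
  rintro ⟨u, -, v, -, ⟨R, S⟩, hq, ⟨⟨-, hG⟩, hS⟩, -, A, -, ⟨f1, f2⟩, hA⟩
  classical
  obtain ⟨-, ⟨i1, i2, i3, i4⟩, k1, -⟩ := mem_filter.1 hq
  have f1' : A ∩ R = S := f1
  have mem : ∀ x ∈ R, (x ∈ A ↔ x ∈ S) := fun x hx => by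
    rw [← f1', mem_inter, and_iff_left hx]
  have uA : u ∈ A := (mem u (i1 i2)).2 i2
  have vA : v ∉ A := fun c => i4 ((mem v i3).1 c)
  have side : ∀ x y, Kr ω x y → s(x, y) ≠ s(u, v) → (x ∈ A ↔ y ∈ A) := fun x y h1 h2 => by
    by_cases h3 : x ∈ R ∧ y ∈ R
    · rw [mem x h3.1, mem y h3.2]
      exact hS.side hG (i1 i2) h3.1 h3.2 h1 h2
    · exact f2 x y h1 (not_and_or.1 h3)
  refine ⟨A, u, v, hA, ⟨uA, vA, fun c => vA ?_, side⟩, hS.2.1, ?_⟩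
  · exact cp_ind (P := fun x => x ∈ A) uA (fun a _ b h1 h2 h3 =>
      (side a b h1 fun h4 => by rw [h4] at h2; exact lt_irrefl _ h2).1 h3) c
  · have e : cp ω m u = R := (cp_eq_iff (i1 i2)).2 ⟨hS.1, hG⟩
    have c1 : (S.card : ℝ) ≤ (cp ω m u).card := by
      rw [e]; exact_mod_cast card_le_card i1
    have c2 := G.lo' le_rfl P.mL (k1.trans c1)
    have c3 := P.e20
    have c4 : (0 : ℝ) ≤ (cp ω m u).card := Nat.cast_nonneg _
    nlinarith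

theorem p_d2 : S_d2 := by
  rintro n L a a' ω ε y A u v e0 e1 h ⟨r, g1, -, g2, -⟩ hw hn
  have key : ∀ x ∈ cp ω a' u, (x ∈ A → x ∈ reach (op ω a') A {u}) ∧
      (x ∉ A → x ∈ reach (op ω a') Aᶜ {v}) := fun x hx => by
    have pu : (u ∈ A → u ∈ reach (op ω a') A {u}) ∧ (u ∉ A → u ∈ reach (op ω a') Aᶜ {v}) :=
      ⟨self_mem_reach, fun c => absurd h.1 c⟩
    refine cp_ind (P := fun x => (x ∈ A → x ∈ reach (op ω a') A {u}) ∧
      (x ∉ A → x ∈ reach (op ω a') Aᶜ {v})) pu (fun c _ d h1 h2 h3 => ?_) hx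
    by_cases h4 : s(c, d) = s(u, v)
    · rcases Sym2.eq_iff.1 h4 with ⟨-, rfl⟩ | ⟨-, rfl⟩
      · exact ⟨fun c => absurd c h.2.1, fun c => self_mem_reach (mem_compl.2 c)⟩
      · exact pu
    · have h5 := h.2.2.2 c d h1 h4
      exact ⟨fun hd => reach_closed (h3.1 (h5.2 hd)) hd h2,
        fun hd => reach_closed (h3.2 (mt h5.1 hd)) (mem_compl.2 hd) h2⟩
  have one : ∀ x ∈ cp ω a r, (x ∈ A ↔ r ∈ A) := fun x => h.side fun h1 => hn ⟨h1.1, by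
    rw [cp_eq h1.2]
    have c4 : (0 : ℝ) ≤ (cp ω a r).card := Nat.cast_nonneg _
    nlinarith⟩
  by_cases hr : r ∈ A
  · refine Or.inr (lt_of_le_of_lt ?_ (g2 v))
    refine Nat.cast_le.2 (card_le_card fun x hx => ?_)
    obtain ⟨h1, h2⟩ := mem_sdiff.1 hx
    refine reach_op_mono le_rfl (fun z hz => ?_) Subset.rfl
      ((key x h1).2 fun c => h2 (mem_inter.2 ⟨c, h1⟩))
    exact mem_sdiff.2 ⟨mem_univ _, fun c => mem_compl.1 hz ((one z c).2 hr)⟩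
  · refine Or.inl (lt_of_le_of_lt ?_ (g2 u))
    refine Nat.cast_le.2 (card_le_card fun x hx => ?_)
    obtain ⟨h1, h2⟩ := mem_inter.1 hx
    refine reach_op_mono le_rfl (fun z hz => ?_) Subset.rfl ((key x h2).1 h1)
    exact mem_sdiff.2 ⟨mem_univ _, fun c => hr ((one z c).1 hz)⟩

namespace DecP

theorem th_congr {n a L : ℕ} {y : ℝ} {c c' : ℕ → ℕ} (h : ∀ i, a ≤ i → c i = c' i)
    (t : TH n y a L c) : TH n y a L c' := by
  have e : ∀ i, a ≤ i → UU (WW n) c i L = UU (WW n) c' i L := fun i hi => by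
    unfold UU; rw [clk_congr fun j hj => h j (hi.trans hj)]
  obtain ⟨⟨t1, t2⟩, t3, t4⟩ := t
  rw [e a le_rfl] at t1 t3 t4
  refine ⟨⟨t1, fun i h1 h2 => ?_⟩, t3, t4⟩
  have := t2 i h1 h2
  unfold Stp at this ⊢
  rwa [sg, e (i + 1) (by omega), h i h1, h (i + 1) (by omega)] at this

theorem y_big {y : ℝ} (h : exp 500 ≤ y) : 500 ≤ y := by linarith [add_one_le_exp (500 : ℝ)]

theorem th_of {n L a a' : ℕ} {ω : Om n L} {ε ε' y : ℝ} {u : Fin n} (R : Rung n L a a' ε ε')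
    (y0 : exp 500 ≤ y) (y1 : y ^ 12 = ε ^ 3 * n) (h : Inv ω a ε y)
    (hu : ε * n ≤ (cp ω a u).card) : TH n y a L (cs ω (cp ω a u)) := by
  obtain ⟨-, h1, h2, h3, -⟩ := h u hu
  have y5 := y_big y0
  have n0 := R.n0
  have p9 : (0 : ℝ) < y ^ 9 := by positivity
  have w0 : 0 ≤ WW n := by unfold WW; positivity
  have w1 : WW n ≤ 1 / y ^ 9 := by
    unfold WW
    rw [div_le_div_iff₀ (by positivity) p9]
    have a1 : y ^ 9 ≤ y ^ 12 := pow_le_pow_right₀ (by linarith) (by norm_num)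
    have a2 : ε ^ 3 ≤ (1 / 100) ^ 3 := pow_le_pow_left₀ R.e0.le R.e1 3
    have a3 : ε ^ 3 * n ≤ (1 / 100) ^ 3 * n := by gcongr
    nlinarith
  have u1 : UU (WW n) (cs ω {u}) a L ≤ 40 / y ^ 9 := by
    unfold UU
    have e1 : (600 : ℝ) / y ^ 9 = 600 * (1 / y ^ 9) := by ring
    have e2 : (40 : ℝ) / y ^ 9 = 40 * (1 / y ^ 9) := by ring
    have e3 : (0 : ℝ) ≤ 1 / y ^ 9 := by positivity
    linarith
  refine th_congr (c := cs ω {u}) (fun i hi => (congrArg card (reach_cp hi)).symm)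
    ⟨⟨u1.trans ?_, h3⟩, ?_, u1⟩
  · rw [div_le_div_iff₀ p9 (by norm_num)]
    have : (500 : ℝ) ^ 9 ≤ y ^ 9 := by gcongr
    linarith
  · unfold UU
    have e1 : 1 / (16 * y ^ 17) = 1 / y ^ 17 / 16 := by rw [div_div, mul_comm]
    linarith

theorem ev2 {n L a : ℕ} {ω : Om n L} {A : Finset (Fin n)} {u v : Fin n} {Θ : (ℕ → ℕ) → Prop}
    {Ξ : Om n L → Prop} (hI : Function.Injective ω) (hA : n / 2 = A.card) (h : Spl ω A u v)
    (hw : (ω s(u, v)).val < a) (h3 : Θ (cs ω (cp ω a u))) (h4 : Ξ ω) :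
    Ev2 ω a Θ Ξ u v (cp ω a u, A ∩ cp ω a u) := by
  have hv : v ∈ cp ω a u := cp_closed self_mem_cp hw
  obtain ⟨h1, h2⟩ := (cp_eq_iff (ω := ω) (ℓ := a) (u := u) self_mem_cp).1 rfl
  refine ⟨⟨⟨hI, h2⟩, ⟨h1, hw, fun x hx y hy h3 h4 => ?_⟩, h4⟩, h3, A,
    ⟨rfl, fun x y h3 h4 => h.2.2.2 x y h3 fun h5 => ?_⟩, hA⟩
  · rw [mem_inter, mem_inter, and_iff_left hx, and_iff_left hy]
    exact h.2.2.2 x y ((krl rfl hx hy).1 h3) h4
  · rcases Sym2.eq_iff.1 h5 with ⟨rfl, rfl⟩ | ⟨rfl, rfl⟩ <;> simp [hv, self_mem_cp] at h4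

theorem bal {n : ℕ} {A R : Finset (Fin n)} (r0 : (0 : ℝ) < R.card)
    (h : ¬ 1 / 16 ≤ (((A ∩ R).card : ℝ) / R.card - 1 / 2) ^ 2) :
    (R.card : ℝ) / 4 ≤ (A ∩ R).card ∧ (R.card : ℝ) / 4 ≤ (R \ (A ∩ R)).card := by
  obtain ⟨r2, r3⟩ := abs_lt.1 (abs_lt_of_sq_lt_sq ((not_le.1 h).trans_eq
    (show _ = (1 / 4 : ℝ) ^ 2 by norm_num)) (by norm_num))
  rw [lt_sub_iff_add_lt, lt_div_iff₀ r0] at r2
  rw [sub_lt_iff_lt_add, div_lt_iff₀ r0] at r3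
  rw [card_sdiff_of_subset inter_subset_right, Nat.cast_sub (card_le_card inter_subset_right)]
  constructor <;> linarith

end DecP

open DecP in
theorem p_dec (d1 : S_d1) (d2 : S_d2) (h2 : S_h2) (h3 : S_h3) : S_dec := by
  intro n N L l m b J ℓ ε y ω P Sc hI G hb hL hS
  classical
  refine (d1 n N L l m ω P hI G hS).imp_right ?_
  rintro ⟨A, u, v, hA, h, hw, hc⟩
  have start : Inv ω (ℓ J) (ε J) (y J) := by
    rw [Sc.top, Sc.etop]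
    exact h2 n N L l m b ω (y J) P hI G hb hL (Sc.y0 J le_rfl) (Sc.etop ▸ Sc.y1 J le_rfl)
  rw [← Sc.etop, ← Sc.top] at hc
  rw [← Sc.top] at hw
  suffices H : ∀ j, j ≤ J → Inv ω (ℓ j) (ε j) (y j) → (ω s(u, v)).val < ℓ j →
      ε j * n ≤ (cp ω (ℓ j) u).card → ∃ j ∈ range (J + 1), ∃ u v,
      (∃ q ∈ IU (ε j) u v, Ev2 ω (ℓ j) (TH n (y j) (ℓ j) L) (fun _ => True) u v q) ∨
      ∃ q ∈ I2 (ε j * n / 10) u v, Ev2 ω (ℓ j) (TH n (y j) (ℓ j) L)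
        (fun ω => ∀ i, j = i + 1 → ¬ GW ω (ℓ i) (ℓ (i + 1)) (ε i) (y i)) u v q from
    H J le_rfl start hw hc
  intro j
  induction j using Nat.strong_induction_on with
  | _ j ih =>
  intro hj inv hw hc
  have R := Sc.rung j hj
  have th := th_of R (Sc.y0 j hj) (Sc.y1 j hj) inv hc
  have hv : v ∈ cp ω (ℓ j) u := cp_closed self_mem_cp hw
  have i1 : Idx u v (cp ω (ℓ j) u, A ∩ cp ω (ℓ j) u) := ⟨inter_subset_right,
    mem_inter.2 ⟨h.1, self_mem_cp⟩, hv, fun h1 => h.2.1 (mem_inter.1 h1).1⟩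
  have jr : j ∈ range (J + 1) := mem_range.2 (by omega)
  have en := R.en
  by_cases b1 : 1 / 16 ≤ (((A ∩ cp ω (ℓ j) u).card : ℝ) / (cp ω (ℓ j) u).card - 1 / 2) ^ 2
  · exact ⟨j, jr, u, v, Or.inl ⟨_, mem_filter.2 ⟨mem_univ _, i1, hc, (inv u hc).1, b1⟩,
      ev2 hI hA h hw th trivial⟩⟩
  obtain ⟨s1, s2⟩ := bal (by linarith) b1
  by_cases b2 : ∀ i, j = i + 1 → ¬ GW ω (ℓ i) (ℓ (i + 1)) (ε i) (y i)
  · exact ⟨j, jr, u, v, Or.inr ⟨_, mem_filter.2 ⟨mem_univ _, i1, by dsimp only; linarith,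
      by dsimp only; linarith⟩, ev2 hI hA h hw th b2⟩⟩
  obtain ⟨i, rfl, gw⟩ : ∃ i, j = i + 1 ∧ GW ω (ℓ i) (ℓ (i + 1)) (ε i) (y i) := by
    by_contra c
    exact b2 fun i e g => c ⟨i, e, g⟩
  have hi : i ≤ J := by omega
  have R' := Sc.rung i hi
  have inv' := h3 n L _ _ ω _ _ _ _ R' hI (Sc.y0 i hi) (Sc.y1 i hi) (Sc.y0 _ hj) (Sc.y1 _ hj) gw inv
  by_cases b3 : (ω s(u, v)).val < ℓ i ∧ ε i * n ≤ (cp ω (ℓ i) u).card
  · exact ih i i.lt_succ_self hi inv' b3.1 b3.2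
  exfalso
  have e0 := R'.e0
  have y5 := y_big (Sc.y0 i hi)
  have k1 : y i ^ 2 / ε i ^ 2 ≤ ε i * n / 4 := by
    rw [div_le_div_iff₀ (by positivity) (by norm_num)]
    have a1 : y i ^ 3 ≤ y i ^ 12 := pow_le_pow_right₀ (by linarith) (by norm_num)
    have a2 := Sc.y1 i hi
    nlinarith [sq_nonneg (y i)]
  have k2 : ε i * n ≤ ε (i + 1) * n := by
    have := R'.e2
    gcongr
    linarith
  rcases d2 n L _ _ ω _ _ A u v e0 R'.e1 h gw hw b3 with c | c <;> linarith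

end Pool.Agent.P.MP_5fda20_pr.O
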