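import Pool.Agent.P.MP_5fda20_pr.Fin

/-! The upper bound without logarithmic loss: definitions and the list of steps. -/

namespace Pool.Agent.P.MP_5fda20_pr.O

open Finset Real

noncomputable section

/-- The remaining clock. -/
def UU (W : ℝ) (c : ℕ → ℕ) (i L : ℕ) : ℝ := W + clk c i L / 16

/-- Step `i` of the urn is small compared with the remaining clock. -/
def Stp (W : ℝ) (c : ℕ → ℕ) (i L : ℕ) : Prop :=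
  c i ≤ c (i + 1) ∧ c (i + 1) ≤ 2 * c i ∧ 5 * sg c i ^ 2 ≤
    UU W c (i + 1) L * (UU W c (i + 1) L ^ (1 / 8 : ℝ) + (W / UU W c (i + 1) L) ^ (1 / 8 : ℝ))

/-- Good size histories. -/
def GoodU (W : ℝ) (c : ℕ → ℕ) (ℓ L : ℕ) : Prop :=
  UU W c ℓ L ≤ 1 / 10 ^ 8 ∧ ∀ i, ℓ ≤ i → i < L → Stp W c i L

/-- The final variance. -/
def WW (n : ℕ) : ℝ := 10 ^ 6 / n ^ 2

/-- Good size histories with a clock of known order. -/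
def TH (n : ℕ) (y : ℝ) (a L : ℕ) (c : ℕ → ℕ) : Prop :=
  GoodU (WW n) c a L ∧ 1 / (16 * y ^ 17) ≤ UU (WW n) c a L ∧ UU (WW n) c a L ≤ 40 / y ^ 9

variable {n L : ℕ}

/-- `F` only depends on the open edges at the levels up to `b`. -/
def Lev {α : Sort*} (b : ℕ) (F : Om n L → α) : Prop :=
  ∀ ω ω' : Om n L, (∀ i ≤ b, op ω i = op ω' i) → F ω = F ω'

/-- The edge `e` gets the largest weight. -/
def rm (ω : Om n L) (e : Sym2 (Fin n)) : Om n L :=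
  Function.update ω e ⟨L - 1, by have := (ω e).is_lt; omega⟩

/-- The number of points in components of size at least `k`. -/
def NB (ω : Om n L) (ℓ : ℕ) (k : ℝ) : ℝ := ∑ x, ind (k ≤ (cp ω ℓ x).card)

/-- The graph at one scale is typical. -/
def GG (ω : Om n L) (ℓ ℓ' : ℕ) (ε κ hi ms : ℝ) : Prop :=
  ∃ r, 5 / 4 * ε * n ≤ (cp ω ℓ r).card * (1 + ε) ∧ ((cp ω ℓ r).card : ℝ) ≤ hi ∧
    (∀ z, ((reach (op ω ℓ') (univ \ cp ω ℓ r) {z}).card : ℝ) < κ) ∧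
    ms ≤ ∑ z ∈ univ \ cp ω ℓ r, ind (1 / ε ^ 2 ≤ (cp ω ℓ z).card)

/-- The strong form. -/
def GS (ω : Om n L) (ℓ ℓ' : ℕ) (ε y : ℝ) : Prop :=
  GG ω ℓ ℓ' ε (y ^ 2 / (3 * ε ^ 2)) (7 * ε * n) (exp (-405) / 32 * ε * n)

/-- The weak form. -/
def GW (ω : Om n L) (ℓ ℓ' : ℕ) (ε y : ℝ) : Prop :=
  GG ω ℓ ℓ' ε (y ^ 2 / ε ^ 2) (8 * ε * n) (exp (-405) / 64 * ε * n)

/-- Many isolated points at level `b`, and no middle sized components later. -/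
def Late (ω : Om n L) (l b : ℕ) : Prop :=
  (l : ℝ) ^ 21 ≤ ∑ x, ind (Ge ω {x} {x}ᶜ b) ∧
    ∀ i, b ≤ i → i ≤ L → ∀ x, (cp ω i x).card ≤ l ^ 2 → (cp ω i x).card ≤ 150

/-- The events of the decomposition. -/
def Ev2 (ω : Om n L) (a : ℕ) (Θ : (ℕ → ℕ) → Prop) (Ξ : Om n L → Prop) (u v : Fin n)
    (q : Finset (Fin n) × Finset (Fin n)) : Prop :=
  ((Function.Injective ω ∧ Ge ω q.1 q.1ᶜ a) ∧ Sp ω a q.1 q.2 u v ∧ Ξ ω) ∧ Θ (cs ω q.1) ∧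
    ∃ A, Fn ω q.1 q.2 A ∧ n / 2 = A.card

open Classical in
/-- Unbalanced index pairs of typical size. -/
def IU (ε : ℝ) (u v : Fin n) : Finset (Finset (Fin n) × Finset (Fin n)) :=
  univ.filter fun q => Idx u v q ∧ ε * n ≤ q.1.card ∧ (q.1.card : ℝ) ≤ 8 * ε * n ∧
    1 / 16 ≤ ((q.2.card : ℝ) / q.1.card - 1 / 2) ^ 2

/-- What is known on the future of the large component at level `a`. -/
def Inv (ω : Om n L) (a : ℕ) (ε y : ℝ) : Prop :=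
  ∀ u, ε * n ≤ (cp ω a u).card → ((cp ω a u).card : ℝ) ≤ 8 * ε * n ∧
    clk (cs ω {u}) a L ≤ 600 / y ^ 9 ∧ 1 / y ^ 17 ≤ clk (cs ω {u}) a L ∧
    (∀ i, a ≤ i → i < L → Stp (WW n) (cs ω {u}) i L) ∧
    ∀ ε₀ y₀ : ℝ, 0 < ε₀ → 1 ≤ y₀ → y₀ ^ 12 = ε₀ ^ 3 * n → ε₀ ≤ ε → ε ≤ 2 * y₀ ^ 2 * ε₀ →
      ∃ b, a ≤ b ∧ b ≤ L ∧ ((cp ω b u).card : ℝ) ≤ 32 * y₀ ^ 2 * ε₀ * n ∧
        ∀ x, 1 / ε₀ ^ 2 ≤ (cp ω b x).card → x ∈ cp ω b u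

/-- A sequence of scales that ends at level `m`. -/
structure Scales (n N L m J : ℕ) (ℓ : ℕ → ℕ) (ε y : ℕ → ℝ) : Prop where
  top : ℓ J = m
  etop : ε J = ep N m
  rung : ∀ j ≤ J, Rung n L (ℓ j) (ℓ (j + 1)) (ε j) (ε (j + 1))
  y0 : ∀ j ≤ J, exp 500 ≤ y j
  y1 : ∀ j ≤ J, y j ^ 12 = ε j ^ 3 * n

/-- The local bounds for the urn. -/
def S_urn : Prop := ∀ (n k ℓ L : ℕ) (c : ℕ → ℕ), 10 ≤ n → c L = n → ℓ + k = L → 0 < c ℓ →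
  GoodU (WW n) c ℓ L → ∀ a ≤ c ℓ,
    hh (fun i => ind (n / 2 = i)) c k ℓ a ≤ exp 210 / (n * √(UU (WW n) c ℓ L)) ∧
    (1 / 16 ≤ ((a : ℝ) / c ℓ - 1 / 2) ^ 2 → hh (fun i => ind (n / 2 = i)) c k ℓ a ≤
      exp 230 * UU (WW n) c ℓ L ^ 2 / n * ((a : ℝ) / c ℓ * (1 - (a : ℝ) / c ℓ)))

/-- The urn identity with a factor that depends on the past of the whole graph. -/
def S_ev : Prop := ∀ (n L : ℕ) [NeZero L] (a : ℕ) (u v : Fin n)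
  (I : Finset (Finset (Fin n) × Finset (Fin n))) (b : Finset (Fin n) × Finset (Fin n) → ℝ)
  (Θ : (ℕ → ℕ) → Prop) (Ξ : Om n L → Prop), a ≤ L → (∀ q ∈ I, Idx u v q) →
  (∀ c c', (∀ i, a ≤ i → c i = c' i) → Θ c → Θ c') → Lev a Ξ → (∀ q ∈ I, 0 ≤ b q) →
  (∀ q ∈ I, ∀ c, c a = q.1.card → c L = n → Θ c →
    hh (fun i => ind (n / 2 = i)) c (L - a) a q.2.card ≤ b q) →
  av (fun ω : Om n L => ind (∃ q ∈ I, Ev2 ω a Θ Ξ u v q)) ≤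
    av (fun ω : Om n L => ∑ q ∈ I, b q * ind (Ge ω q.1 q.1ᶜ a ∧ Sp ω a q.1 q.2 u v ∧ Ξ ω))

/-- Removing an open edge. -/
def S_rm1 : Prop := ∀ (n L : ℕ) [NeZero L] (a : ℕ) (e : Sym2 (Fin n)) (F : Om n L → ℝ),
  (a : ℝ) / L ≤ 1 / 2 → (∀ ω, 0 ≤ F ω) → Lev a F →
  av (fun ω => ind (op ω a e) * F (rm ω e)) ≤ 2 * ((a : ℝ) / L) * av F

/-- The two sides are connected without the edge. -/
def S_rm2 : Prop := ∀ (n L a : ℕ) (ω : Om n L) (u v : Fin n) (R S : Finset (Fin n)), a < L →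
  Idx u v (R, S) → Ge ω R Rᶜ a → Sp ω a R S u v →
  S ⊆ cp (rm ω s(u, v)) a u ∧ R \ S ⊆ cp (rm ω s(u, v)) a v

/-- The typical event is stable under adding one edge. -/
def S_rm3 : Prop := ∀ (n L ℓ ℓ' : ℕ) (ω : Om n L) (e : Sym2 (Fin n)) (ε ε' y : ℝ),
  Rung n L ℓ ℓ' ε ε' → exp 500 ≤ y → y ^ 12 = ε ^ 3 * n → GS (rm ω e) ℓ ℓ' ε y → GW ω ℓ ℓ' ε y

/-- The mass of the large components. -/
def S_tail : Prop := ∀ (n L : ℕ) [NeZero L] (ℓ ℓ' : ℕ) (ε ε' : ℝ), Rung n L ℓ ℓ' ε ε' →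
  (∀ B : Om n L → Prop, av (fun ω => NB ω ℓ (ε * n / 10) ^ 2 * ind (B ω)) ≤
    (ε * n) ^ 2 * (49 * av (fun ω => ind (B ω)) + exp (-(ε ^ 3 * n)))) ∧
  av (fun ω : Om n L => ind (7 * ε * n ≤ NB ω ℓ (ε * n / 10))) ≤ exp (-(ε ^ 3 * n)) ∧
  av (fun ω : Om n L => NB ω ℓ (ε * n / 10)) ≤ 8 * ε * n

/-- Components that are not large have an exponential moment. -/
def S_mid : Prop := ∀ (n L : ℕ) [NeZero L] (ℓ ℓ' : ℕ) (ε ε' : ℝ), Rung n L ℓ ℓ' ε ε' →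
  av (fun ω : Om n L => ∑ x, (exp (ε ^ 2 / 40 * (cp ω ℓ x).card) - 1) *
    ind ((cp ω ℓ x).card * (1 + ε) ≤ 5 / 4 * ε * n)) ≤ 8 * ε * n

/-- The second moment of the truncated susceptibility. -/
def S_QQ : Prop := ∀ (n L : ℕ) [NeZero L] (ℓ ℓ' : ℕ) (ε ε' : ℝ), Rung n L ℓ ℓ' ε ε' →
  av (fun ω : Om n L => (∑ x, min ((cp ω ℓ x).card : ℝ) (8 * ε * n)) ^ 2) ≤
    10 ^ 4 * (ε ^ 2 * n ^ 2) ^ 2

/-- The number of balanced edges on an event. -/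
def S_bal : Prop := ∀ (n L : ℕ) [NeZero L] (ℓ ℓ' : ℕ) (ε ε' : ℝ) (Ξ Ξ' : Om n L → Prop),
  Rung n L ℓ ℓ' ε ε' → Lev ℓ Ξ' → (∀ ω e, Ξ ω → Ξ' (rm ω e)) →
  ∑ u, ∑ v, av (fun ω : Om n L => ∑ q ∈ I2 (ε * n / 10) u v,
    ind (Ge ω q.1 q.1ᶜ ℓ ∧ Sp ω ℓ q.1 q.2 u v ∧ Ξ ω)) ≤
    3 * ε ^ 2 * n * (49 * av (fun ω => ind (Ξ' ω)) + exp (-(ε ^ 3 * n)))

/-- The weighted number of edges. -/
def S_unb : Prop := ∀ (n L : ℕ) [NeZero L] (ℓ ℓ' : ℕ) (ε ε' : ℝ), Rung n L ℓ ℓ' ε ε' →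
  ∑ u, ∑ v, av (fun ω : Om n L => ∑ q ∈ IU ε u v,
    (q.2.card : ℝ) / q.1.card * (1 - (q.2.card : ℝ) / q.1.card) *
      ind (Ge ω q.1 q.1ᶜ ℓ ∧ Sp ω ℓ q.1 q.2 u v ∧ True)) ≤ 3 * 10 ^ 4 * ε ^ 2 * n

/-- There is a component that is not small. -/
def S_ex : Prop := ∀ (n L : ℕ) [NeZero L] (ℓ ℓ' ℓ₀ : ℕ) (ε ε' ε₀ y : ℝ), Rung n L ℓ ℓ' ε ε' →
  exp 500 ≤ y → y ^ 12 = ε ^ 3 * n → ℓ₀ ≤ ℓ → (ℓ₀ : ℝ) / L * n = 1 + ε₀ → ε ≤ 2 * y * ε₀ →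
  y * ε₀ ≤ ε →
  av (fun ω : Om n L => ind (∀ x, ((cp ω ℓ x).card : ℝ) < y ^ 2 / (3 * ε ^ 2))) ≤ 1 / y ^ 31 ∧
  av (fun ω : Om n L => ind (∃ x, y ^ 2 / (3 * ε ^ 2) ≤ (cp ω ℓ x).card ∧
    (cp ω ℓ x).card * (1 + ε) ≤ 5 / 4 * ε * n)) ≤ 1 / y ^ 31

/-- Outside a large set the graph is typical. -/
def S_out : Prop := ∀ (n L : ℕ) [NeZero L] (ℓ ℓ' : ℕ) (ε ε' y : ℝ) (D : Finset (Fin n)),
  Rung n L ℓ ℓ' ε ε' → exp 500 ≤ y → y ^ 12 = ε ^ 3 * n → 5 / 4 * ε * n ≤ D.card * (1 + ε) →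
  (D.card : ℝ) ≤ 7 * ε * n →
  av (fun ω : Om n L => ind ((∃ z, y ^ 2 / (3 * ε ^ 2) ≤
    (reach (op ω ℓ') (univ \ D) {z}).card) ∨
    big ω ℓ (1 / ε ^ 2) (univ \ D) < exp (-405) / 32 * ε * n)) ≤ 1 / y ^ 31

/-- The typical event is likely. -/
def S_str : Prop := ∀ (n L : ℕ) [NeZero L] (ℓ ℓ' ℓ₀ : ℕ) (ε ε' ε₀ y : ℝ), Rung n L ℓ ℓ' ε ε' →
  exp 500 ≤ y → y ^ 12 = ε ^ 3 * n → ℓ₀ ≤ ℓ → (ℓ₀ : ℝ) / L * n = 1 + ε₀ → ε ≤ 2 * y * ε₀ →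
  y * ε₀ ≤ ε → av (fun ω : Om n L => ind (¬ GS ω ℓ ℓ' ε y)) ≤ 1 / y ^ 30

/-- The late event is likely. -/
def S_late : Prop := ∀ (n N L l m : ℕ) (x : ℝ), Par n N L l m → (l : ℝ) ^ 200 ≤ n → 0 < x →
  x ^ 3 * n = 1 → ∃ b, 2 * N ≤ b ∧ av (fun ω : Om n L => ind (¬ Late ω l b)) ≤ 30 * x ^ 2

/-- The steps after level `m`. -/
def S_h1 : Prop := ∀ (n N L l m b : ℕ) (ω : Om n L) (u : Fin n), Par n N L l m →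
  Function.Injective ω → Good ω N l m → 2 * N ≤ b → Late ω l b →
  (l : ℝ) ^ 2 / ep N m ^ 2 ≤ (cp ω m u).card → ∀ i, m ≤ i → i < L → Stp (WW n) (cs ω {u}) i L

/-- The invariant at level `m`. -/
def S_h2 : Prop := ∀ (n N L l m b : ℕ) (ω : Om n L) (y : ℝ), Par n N L l m →
  Function.Injective ω → Good ω N l m → 2 * N ≤ b → Late ω l b → exp 500 ≤ y →
  y ^ 12 = ep N m ^ 3 * n → Inv ω m (ep N m) y

/-- The invariant, one scale down. -/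
def S_h3 : Prop := ∀ (n L a a' : ℕ) (ω : Om n L) (ε ε' y y' : ℝ), Rung n L a a' ε ε' →
  Function.Injective ω → exp 500 ≤ y → y ^ 12 = ε ^ 3 * n → exp 500 ≤ y' →
  y' ^ 12 = ε' ^ 3 * n → GW ω a a' ε y → Inv ω a' ε' y' → Inv ω a ε y

/-- A balanced split is carried by an edge of the large component at level `m`. -/
def S_d1 : Prop := ∀ (n N L l m : ℕ) (ω : Om n L), Par n N L l m → Function.Injective ω →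
  Good ω N l m → Split ω →
  (∃ a ∈ Icc m L, ∃ u ∈ univ, ∃ v ∈ univ, ∃ q ∈ I1 u v, Ev ω l a 0 u v q) ∨
    ∃ A u v, n / 2 = A.card ∧ Spl ω A u v ∧ (ω s(u, v)).val < m ∧ ep N m * n ≤ (cp ω m u).card

/-- An edge that is new in the large component has a small side. -/
def S_d2 : Prop := ∀ (n L a a' : ℕ) (ω : Om n L) (ε y : ℝ) (A : Finset (Fin n)) (u v : Fin n),
  0 < ε → ε ≤ 1 / 100 → Spl ω A u v → GW ω a a' ε y → (ω s(u, v)).val < a' →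
  ¬ ((ω s(u, v)).val < a ∧ ε * n ≤ (cp ω a u).card) →
  ((A ∩ cp ω a' u).card : ℝ) < y ^ 2 / ε ^ 2 ∨
    ((cp ω a' u \ (A ∩ cp ω a' u)).card : ℝ) < y ^ 2 / ε ^ 2

/-- The decomposition according to the first good scale. -/
def S_dec : Prop := ∀ (n N L l m b J : ℕ) (ℓ : ℕ → ℕ) (ε y : ℕ → ℝ) (ω : Om n L),
  Par n N L l m → Scales n N L m J ℓ ε y → Function.Injective ω → Good ω N l m → 2 * N ≤ b →
  Late ω l b → Split ω →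
  (∃ a ∈ Icc m L, ∃ u ∈ univ, ∃ v ∈ univ, ∃ q ∈ I1 u v, Ev ω l a 0 u v q) ∨
    ∃ j ∈ range (J + 1), ∃ u v,
      (∃ q ∈ IU (ε j) u v, Ev2 ω (ℓ j) (TH n (y j) (ℓ j) L) (fun _ => True) u v q) ∨
      ∃ q ∈ I2 (ε j * n / 10) u v, Ev2 ω (ℓ j) (TH n (y j) (ℓ j) L)
        (fun ω => ∀ i, j = i + 1 → ¬ GW ω (ℓ i) (ℓ (i + 1)) (ε i) (y i)) u v q

end

end Pool.Agent.P.MP_5fda20_pr.O
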