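import Pool.Agent.P.MP_5fda20_pr.O.Defs

/-! The urn identity with a factor that depends on the past of the whole graph. -/

namespace Pool.Agent.P.MP_5fda20_pr.O

open Finset

noncomputable section

variable {n L : ℕ} {ℓ : ℕ} {u x y : Fin n} {R S D : Finset (Fin n)}

/-- `g` only depends on the edges inside `R` and on the open edges at the levels up to `b`. -/
def EvDep (R : Finset (Fin n)) (b : ℕ) (g : Om n L → ℝ) : Prop :=
  ∀ ω ω' : Om n L, (∀ e ∈ inn R, ω e = ω' e) → (∀ i ≤ b, op ω i = op ω' i) → g ω = g ω'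

theorem EvDep.mul {b : ℕ} {g h : Om n L → ℝ} (hg : EvDep R b g) (hR : R ⊆ D)
    (hh : Dep (inn D) h) : EvDep D b fun ω => g ω * h ω := fun ω ω' e1 e2 =>
  congrArg₂ (· * ·) (hg ω ω' (fun e he => e1 e (inn_mono hR he)) e2) (hh ω ω' e1)

theorem ev_swap [NeZero L] (hd : Disjoint R D) {x' : Fin n} (hx : x ∈ R) (hx' : x' ∈ R) (hy : y ∈ D)
    {g Ψ : Om n L → ℝ} {b : ℕ} (hb : b ≤ ℓ) (hg : EvDep R b g)
    (hΨ : Dep (inn (R ∪ D))ᶜ Ψ) :
    av (fun ω => ind (Function.Injective ω ∧ Ge ω (R ∪ D) (R ∪ D)ᶜ (ℓ + 1)) *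
      (g ω * ind (Loc ω ℓ R D x y)) * Ψ ω) =
    av (fun ω => ind (Function.Injective ω ∧ Ge ω (R ∪ D) (R ∪ D)ᶜ (ℓ + 1)) *
      (g ω * ind (Loc ω ℓ R D x' y)) * Ψ ω) := by
  classical
  have h0 : ∀ a ∉ R, Equiv.swap x x' a = a := fun a ha =>
    Equiv.swap_apply_of_ne_of_ne (fun h => ha (h ▸ hx)) fun h => ha (h ▸ hx')
  have h1 : ∀ a ∈ R, Equiv.swap x x' a ∈ R := fun a ha => by
    rw [Equiv.swap_apply_def]; split_ifs <;> assumption
  let f : Sym2 (Fin n) → Sym2 (Fin n) := fun e =>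
    if e ∈ crs R D then e.map (Equiv.swap x x') else e
  have f1 : ∀ a ∈ R, ∀ b ∈ D, f s(a, b) = s(Equiv.swap x x' a, b) := fun a ha b hb => by
    simp only [f, if_pos (mk_mem_crs ha hb), Sym2.map_mk, h0 b (disjoint_right.1 hd hb)]
  have f2 : ∀ e ∉ crs R D, f e = e := fun e he => if_neg he
  have f3 : Function.Involutive f := fun e => by
    by_cases he : e ∈ crs R D
    · obtain ⟨a, ha, b, hb, rfl⟩ := he
      rw [f1 a ha b hb, f1 _ (h1 a ha) b hb, Equiv.swap_apply_self]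
    · rw [f2 e he, f2 e he]
  have inv : ∀ {α : Type} {J : Set (Sym2 (Fin n))} {F : Om n L → α}, Dep J F →
      Disjoint (crs R D) J → ∀ ω, F (ω ∘ f3.toPerm) = F ω := fun hF hJ ω =>
    hF _ _ fun e he => congrArg ω (f2 e (Set.disjoint_right.1 hJ he))
  have hs : crs R D ⊆ inn (R ∪ D) := crs_sub_inn subset_union_left subset_union_right
  rw [← av_perm f3.toPerm]
  refine av_congr fun ω => ?_
  have hl : Loc (ω ∘ f3.toPerm) ℓ R D x y ↔ Loc ω ℓ R D x' y := by
    unfold Loc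
    rw [inv (dep_reach ℓ D {y}) (crs_disjoint_left hd)]
    refine and_congr_right fun _ => and_congr ?_ ⟨fun h a ha c hc => ?_, fun h a ha c hc => ?_⟩
    · simp only [Function.comp, Function.Involutive.coe_toPerm, f1 x hx y hy,
        Equiv.swap_apply_left]
    · simpa only [Function.comp, Function.Involutive.coe_toPerm, f1 _ (h1 a ha) c hc,
        Equiv.swap_apply_self] using h _ (h1 a ha) c hc
    · simpa only [Function.comp, Function.Involutive.coe_toPerm, f1 a ha c hc]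
        using h _ (h1 a ha) c hc
  rw [inv hΨ (Set.disjoint_compl_right_iff_subset.2 hs),
    inv (dep_ge (R ∪ D) (R ∪ D)ᶜ (ℓ + 1))
      ((crs_disjoint_right disjoint_compl_left).symm.mono_left hs),
    (f3.toPerm f).injective_comp, ind_congr hl]
  refine congrArg (· * Ψ ω) (congrArg (HMul.hMul _) ?_)
  rw [mul_comm, mul_comm (g ω)]
  refine ind_mul_congr fun h => hg _ _ (fun e he => congrArg ω
    (f2 e (Set.disjoint_right.1 (crs_disjoint_right hd.symm) he))) fun i hi => funext fun e => ?_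
  by_cases he : e ∈ crs R D
  · obtain ⟨a, ha, c, hc, rfl⟩ := he
    have h2 := (hl.2 h).2.2 a ha c hc
    have h3 := h.2.2 a ha c hc
    exact propext (iff_of_false (not_lt.2 ((hi.trans hb).trans h2))
      (not_lt.2 ((hi.trans hb).trans h3)))
  · exact congrArg (fun t : Fin L => t.val < i) (congrArg ω (f2 e he))

theorem ev_polya [NeZero L] (φ : ℕ → ℝ) {k : ℕ} (hk : ℓ + k = L) (hu : u ∈ R) (hS : S ⊆ R)
    {b : ℕ} (hb : b ≤ ℓ) {g : Om n L → ℝ} (hg : EvDep R b g)
    (hc : ∀ ω, g ω ≠ 0 → reach (op ω ℓ) R {u} = R)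
    {Θ : (ℕ → ℕ) → ℝ} (hΘ : ∀ c c', (∀ i, ℓ ≤ i → c i = c' i) → Θ c = Θ c') :
    av (fun ω => ind (Function.Injective ω ∧ Ge ω R Rᶜ ℓ) * g ω *
      (Θ (cs ω R) * ∑ A, ind (Fn ω R S A) * φ A.card)) =
    av (fun ω => ind (Function.Injective ω ∧ Ge ω R Rᶜ ℓ) * g ω *
      (Θ (cs ω R) * hh φ (cs ω R) k ℓ S.card)) := by
  induction k generalizing ℓ R S g Θ with
  | zero =>
    refine av_congr fun ω => mul_congr_of fun h _ => ?_
    obtain rfl : R = univ := eq_univ_of_forall fun b => by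
      by_contra hb
      have h1 := h.2 u hu b (mem_compl.2 hb)
      have h2 := (ω s(u, b)).is_lt
      omega
    rw [hh, ← sum_ind_eq univ (mem_univ S) fun A => φ A.card]
    simp [Fn, eq_comm]
  | succ k ih =>
    have dec : ∀ F : Om n L → ℝ, av (fun ω => ind (Function.Injective ω ∧ Ge ω R Rᶜ ℓ) * g ω * F ω) =
        av (fun ω => ind (Function.Injective ω ∧ Ge ω R Rᶜ (ℓ + 1)) * g ω * F ω) +
        ∑ q ∈ blk R, ∑ x ∈ R, av (fun ω => ind (Function.Injective ω ∧
          Ge ω (R ∪ q.1) (R ∪ q.1)ᶜ (ℓ + 1)) * (g ω * ind (Loc ω ℓ R q.1 x q.2)) * F ω) := fun F => by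
      simp only [← av_sum, ← av_add]
      refine av_congr fun ω => ?_
      rw [ind_dec]
      simp only [add_mul, sum_mul]
      exact congrArg _ (sum_congr rfl fun _ _ => sum_congr rfl fun _ _ => by ring)
    let Θ' : (ℕ → ℕ) → ℝ := fun c => Θ (Function.update c ℓ R.card)
    have hΘ' : ∀ c c', (∀ i, ℓ + 1 ≤ i → c i = c' i) → Θ' c = Θ' c' := fun c c' h =>
      hΘ _ _ fun i hi => by
        rcases hi.eq_or_lt with rfl | hi
        · simp
        · rw [Function.update_of_ne hi.ne', Function.update_of_ne hi.ne', h i hi]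
    have e1 : ∀ (ω : Om n L) (c : ℕ → ℕ), Ge ω R Rᶜ ℓ → (∀ i, ℓ + 1 ≤ i → cs ω R i = c i) →
        Θ (cs ω R) = Θ' c := fun ω c h1 h2 => hΘ _ _ fun i hi => by
      rcases hi.eq_or_lt with rfl | hi
      · rw [Function.update_self, cs, reach_of_ge h1]
      · rw [Function.update_of_ne hi.ne', h2 i hi]
    rw [dec, dec]
    congr 1
    · have := ih (ℓ := ℓ + 1) (by omega) hu hS (by omega) hg (fun ω h => Subset.antisymm reach_sub
        ((hc ω h).ge.trans (reach_op_mono ℓ.le_succ Subset.rfl Subset.rfl))) hΘ'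
      refine Eq.trans (av_congr fun ω => mul_congr_of fun h _ => ?_)
        (this.trans (av_congr fun ω => mul_congr_of fun h _ => ?_))
      · rw [e1 ω _ (h.2.mono Subset.rfl Subset.rfl ℓ.le_succ) fun _ _ => rfl]
      · have h1 := h.2.mono Subset.rfl Subset.rfl ℓ.le_succ
        rw [e1 ω _ h1 fun _ _ => rfl, hh, cs, cs, reach_of_ge h.2, reach_of_ge h1, Nat.sub_self,
          add_zero]
        ring
    refine sum_congr rfl ?_
    rintro ⟨D, y⟩ hq
    obtain ⟨hd, hy⟩ : Disjoint R D ∧ y ∈ D := (mem_filter.1 hq).2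
    let T : Fin n → ℕ → ℝ := fun x t => av (fun ω => ind (Function.Injective ω ∧
      Ge ω (R ∪ D) (R ∪ D)ᶜ (ℓ + 1)) * (g ω * ind (Loc ω ℓ R D x y)) *
      (Θ' (cs ω (R ∪ D)) * hh φ (cs ω (R ∪ D)) k (ℓ + 1) t))
    have hT : ∀ x ∈ R, ∀ t, T x t = T u t := fun x hx _ => ev_swap hd hx hu hy hb hg
      ((dep_cs (R ∪ D)).comp fun c => Θ' c * hh φ c k (ℓ + 1) _)
    have e2 : ∀ x ω, g ω * ind (Loc ω ℓ R D x y) ≠ 0 →
        reach (op ω ℓ) R {u} = R ∧ Loc ω ℓ R D x y := fun x ω h =>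
      ⟨hc ω (left_ne_zero_of_mul h), by_contra fun h1 => right_ne_zero_of_mul h (ind_of_not h1)⟩
    have e3 : ∀ x ∈ R, ∀ ω, g ω * ind (Loc ω ℓ R D x y) ≠ 0 → ∀ i, ℓ + 1 ≤ i →
        cs ω R i = cs ω (R ∪ D) i := fun x hx ω h i hi =>
      congrArg card (reach_eq_of_sub subset_union_left (((e2 x ω h).2.conn hx hy (e2 x ω h).1).ge.trans
        (reach_op_mono le_rfl (subset_univ _) (singleton_subset_iff.2 hu))) hi).symm
    have hR : (R.card : ℝ) ≠ 0 := Nat.cast_ne_zero.2 (card_ne_zero_of_mem hu)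
    calc _ = ∑ x ∈ R, if x ∈ S then T u (S.card + D.card) else T u S.card := by
          refine sum_congr rfl fun x hx => ?_
          have := ih (ℓ := ℓ + 1) (R := R ∪ D) (S := if x ∈ S then S ∪ D else S) (by omega)
            (mem_union_left _ hu) (by
              split_ifs
              · exact union_subset_union_left hS
              · exact hS.trans subset_union_left)
            (by omega) (hg.mul subset_union_left (dep_loc hx hy).ind)
            (fun ω h => (e2 x ω h).2.conn hx hy (e2 x ω h).1) hΘ'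
          refine Eq.trans (av_congr fun ω => mul_congr_of fun h h' => ?_) (this.trans ?_)
          · rw [e1 ω _ ((e2 x ω h').2.ge h.2) (e3 x hx ω h')]
            simp only [fn_step h.1 (e2 x ω h').2 h.2 hd hx hy hu (e2 x ω h').1 hS]
          · refine (hT x hx _).trans ?_
            split_ifs
            · rw [card_union_of_disjoint (hd.mono_left hS)]
            · rfl
      _ = ∑ x ∈ R, ((S.card : ℝ) / R.card * T u (S.card + D.card) +
            (1 - (S.card : ℝ) / R.card) * T u S.card) := by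
          rw [sum_ite, sum_const, sum_const, sum_const, filter_mem_eq_inter, inter_eq_right.2 hS,
            filter_not, filter_mem_eq_inter, inter_eq_right.2 hS, card_sdiff_of_subset hS,
            nsmul_eq_mul, nsmul_eq_mul, nsmul_eq_mul, Nat.cast_sub (card_le_card hS)]
          field_simp
      _ = _ := by
          refine sum_congr rfl fun x hx => ?_
          rw [← hT x hx, ← hT x hx, ← av_const_mul, ← av_const_mul, ← av_add]
          refine av_congr fun ω => Eq.trans (by ring) (mul_congr_of (s := Θ' (cs ω (R ∪ D)) *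
            ((S.card : ℝ) / R.card * hh φ (cs ω (R ∪ D)) k (ℓ + 1) (S.card + D.card) +
              (1 - (S.card : ℝ) / R.card) * hh φ (cs ω (R ∪ D)) k (ℓ + 1) S.card)) fun h h' => ?_)
          have h1 := (e2 x ω h').2.ge h.2
          rw [e1 ω _ h1 (e3 x hx ω h'), hh, hh_congr (e3 x hx ω h'), hh_congr (e3 x hx ω h'),
            e3 x hx ω h' _ le_rfl, cs, cs, reach_of_ge h1, reach_of_ge h.2,
            card_union_of_disjoint hd, Nat.add_sub_cancel_left]

theorem p_ev : S_ev := by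
  intro n L _ a u v I b Θ Ξ ha hI hΘ hΞ hb h
  refine (av_mono fun ω => ind_exists_le _ _).trans ?_
  rw [av_sum, av_sum]
  refine sum_le_sum fun q hq => ?_
  obtain ⟨h1, h2, h3, h4⟩ := hI q hq
  have h5 := ev_polya (fun i => ind (n / 2 = i)) (Nat.add_sub_cancel' ha) (h1 h2) h1 le_rfl
    (g := fun ω : Om n L => ind (Sp ω a q.1 q.2 u v ∧ Ξ ω))
    (fun ω ω' e1 e2 => congrArg ind (congrArg₂ And
      (dep_sp (a := a) (S := q.2) (h1 h2) h3 ω ω' e1) (hΞ ω ω' e2)))
    (fun ω h => (by_contra fun h5 => h (ind_of_not h5) : Sp ω a q.1 q.2 u v ∧ Ξ ω).1.1)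
    (Θ := fun c => ind (Θ c)) fun c c' h =>
      ind_congr ⟨hΘ c c' h, hΘ c' c fun i hi => (h i hi).symm⟩
  refine le_trans (av_mono fun ω => ?_) (h5.le.trans (av_mono fun ω => ?_))
  · rw [Ev2, ind_and, ind_and, ind_and (Θ _)]
    gcongr
    exacts [mul_nonneg (ind_nonneg _) (ind_nonneg _), ind_nonneg _,
      (ind_mono fun ⟨A, hA⟩ => ⟨A, mem_univ A, hA⟩).trans
        ((ind_exists_le univ fun A => Fn ω q.1 q.2 A ∧ n / 2 = A.card).trans_eq
          (sum_congr rfl fun _ _ => ind_and _ _))]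
  rw [← ind_and (_ ∧ _) (Sp ω a q.1 q.2 u v ∧ Ξ ω)]
  refine ind_mul_le (mul_nonneg (hb q hq) (ind_nonneg _)) fun h6 => ?_
  rw [ind_of (And.intro h6.1.2 h6.2), mul_one]
  refine ind_mul_le (hb q hq) fun h7 => ?_
  exact h q hq _ (by rw [cs, reach_of_ge h6.1.2]) (cs_top (h1 h2)) h7

end

end Pool.Agent.P.MP_5fda20_pr.O
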