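import Pool.Agent.P.MP_5fda20_pr.O.Defs

/-! There is a component that is not small. -/

namespace Pool.Agent.P.MP_5fda20_pr.O

open Finset Real

noncomputable section

theorem ex_y {y : ℝ} (hy : exp 500 ≤ y) : (10 : ℝ) ^ 70 ≤ y := by
  have h1 : exp 500 = exp 5 ^ 100 := by rw [← exp_nat_mul]; norm_num
  have h2 : (6 : ℝ) ≤ exp 5 := by linarith [add_one_le_exp 5]
  calc (10 : ℝ) ^ 70 ≤ 6 ^ 100 := by norm_num
    _ ≤ exp 5 ^ 100 := by gcongr
    _ ≤ y := h1 ▸ hy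

theorem ex_c {y : ℝ} (hy : exp 500 ≤ y) : 96 ≤ exp (-405) * y := by
  have h1 : exp (-405) * exp 500 = exp 95 := by rw [← exp_add]; norm_num
  calc (96 : ℝ) ≤ exp 95 := by linarith [add_one_le_exp 95]
    _ ≤ _ := by rw [← h1]; gcongr

theorem ex_num1 {y t : ℝ} (hy : 1 ≤ y) (ht : 4 * y ^ 8 ≤ t) : exp (-t) ≤ 1 / y ^ 31 := by
  rw [exp_neg, one_div]
  refine inv_anti₀ (by positivity) ?_
  have h1 := Real.pow_div_factorial_le_exp (4 * y ^ 8) (by positivity) 4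
  refine le_trans ?_ (h1.trans (exp_le_exp.2 ht))
  have h2 : y ^ 31 ≤ y ^ 32 := pow_le_pow_right₀ hy (by norm_num)
  have h3 : (0 : ℝ) ≤ y ^ 32 := by positivity
  rw [le_div_iff₀ (by positivity)]
  norm_num [Nat.factorial]
  calc y ^ 31 * 24 ≤ 256 * y ^ 32 := by linarith
    _ = _ := by ring

theorem ex_num2 {y : ℝ} (hy : 10 ^ 70 ≤ y) : 24 * y ^ 41 ≤ exp (y ^ 2 / 120) - 1 := by
  have y1 : (1 : ℝ) ≤ y := le_trans (by norm_num) hy
  have h1 := Real.pow_div_factorial_le_exp (y ^ 2 / 120) (by positivity) 22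
  have h2 : (1 : ℝ) ≤ y ^ 41 := one_le_pow₀ y1
  have h3 : y ^ 41 ≤ y ^ 43 := pow_le_pow_right₀ y1 (by norm_num)
  have h4 : 10 ^ 70 * y ^ 43 ≤ y ^ 44 := by
    rw [pow_succ' y 43]
    gcongr
  have h5 : (y ^ 2 / 120) ^ 22 / ((22 : ℕ).factorial : ℝ) =
      y ^ 44 / (120 ^ 22 * ((22 : ℕ).factorial : ℝ)) := by ring
  have h6 : 25 * y ^ 43 ≤ y ^ 44 / (120 ^ 22 * ((22 : ℕ).factorial : ℝ)) := by
    rw [le_div_iff₀ (by positivity)]
    refine le_trans ?_ h4
    have h7 : (25 : ℝ) * (120 ^ 22 * ((22 : ℕ).factorial : ℝ)) ≤ 10 ^ 70 := by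
      norm_num [Nat.factorial]
    calc _ = 25 * (120 ^ 22 * ((22 : ℕ).factorial : ℝ)) * y ^ 43 := by ring
      _ ≤ _ := by gcongr
  linarith

theorem p_ex (hm : S_mid) : S_ex := by
  intro n L _ ℓ ℓ' ℓ₀ ε ε' ε₀ y h hy hy' hl hp h1 h2
  have y70 := ex_y hy
  have y1 : (1 : ℝ) ≤ y := le_trans (by norm_num) y70
  have e0 := h.e0
  have e1 := h.e1
  have n0 := h.n0
  constructor
  · have d0 : 0 < ε₀ := (mul_pos_iff_of_pos_left (show 0 < 2 * y by linarith)).1 (by linarith)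
    have d1 : ε₀ ≤ ε := le_trans (le_mul_of_one_le_left d0.le y1) h2
    have d2 : y ^ 9 / 8 ≤ ε₀ ^ 3 * n := by
      have h3 : y ^ 3 * y ^ 9 ≤ y ^ 3 * (8 * (ε₀ ^ 3 * n)) :=
        calc _ = ε ^ 3 * n := by rw [← hy']; ring
          _ ≤ (2 * y * ε₀) ^ 3 * n := by gcongr
          _ = _ := by ring
      have := le_of_mul_le_mul_left h3 (by positivity)
      linarith
    have d3 : 8 ≤ ε₀ ^ 3 * n := by
      have : y ≤ y ^ 9 := le_self_pow₀ y1 (by norm_num)
      have : (64 : ℝ) ≤ y := le_trans (by norm_num) y70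
      linarith
    have d4 : 1 ≤ ε₀ * n := by
      have : ε₀ ^ 3 ≤ ε₀ := by
        simpa using pow_le_pow_of_le_one d0.le (by linarith) (show 1 ≤ 3 by norm_num)
      nlinarith
    have d5 : ⌈2 * ε₀ * n⌉₊ ≤ n := Nat.ceil_le.2 (by nlinarith)
    obtain ⟨U, -, hU⟩ := exists_subset_card_eq (s := (univ : Finset (Fin n)))
      (n := n - ⌈2 * ε₀ * n⌉₊) (by simp)
    have u0 : (U.card : ℝ) = n - ⌈2 * ε₀ * n⌉₊ := by rw [hU, Nat.cast_sub d5]
    have u1 := Nat.le_ceil (2 * ε₀ * n)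
    have u2 := Nat.ceil_lt_add_one (show 0 ≤ 2 * ε₀ * n by positivity)
    have hb := av_exp_big (n := n) (L := L) (hl.trans (h.le.trans h.lt.le)) d0 (by linarith) hp d3 U
      (by
        refine le_of_mul_le_mul_right ?_ (show (0 : ℝ) < n by linarith)
        rw [mul_assoc, hp]
        calc _ ≤ (n - 2 * ε₀ * n) * (1 + ε₀) := by gcongr; linarith
          _ ≤ _ := by nlinarith [mul_nonneg (mul_nonneg d0.le d0.le) (Nat.cast_nonneg (α := ℝ) n)])
    refine le_trans (av_mono fun ω => ind_le (exp_pos _).le fun a => ?_) (hb.trans (ex_num1 y1 ?_))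
    · have : big ω ℓ₀ (1 / ε₀ ^ 2) U = 0 := by
        refine sum_eq_zero fun z _ => ind_of_not (not_le.2 ?_)
        refine lt_of_le_of_lt (Nat.cast_le.2 (card_le_card (reach_op_mono hl (subset_univ U)
          Subset.rfl))) ((a z).trans_le ?_)
        rw [div_le_div_iff₀ (by positivity) (by positivity)]
        have : (y * ε₀) ^ 2 ≤ ε ^ 2 := by gcongr
        nlinarith [sq_nonneg ε]
      rw [this]
      simp
    · have c0 : 0 < exp (-405) := exp_pos _
      have c1 := ex_c hy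
      generalize exp (-405) = c at *
      calc 4 * y ^ 8 ≤ 6 / 128 * 96 * y ^ 8 := by gcongr; norm_num
        _ ≤ 6 / 128 * (c * y) * y ^ 8 := by gcongr
        _ = c * 6 / 16 * (y ^ 9 / 8) := by ring
        _ ≤ c * 6 / 16 * (ε₀ ^ 3 * n) := by gcongr
        _ = c * ε₀ ^ 2 / 16 * (6 * (ε₀ * n)) := by ring
        _ ≤ _ := by gcongr; linarith
  · have k1 := ex_num2 y70
    have k2 : 0 < exp (y ^ 2 / 120) - 1 := lt_of_lt_of_le (by positivity) k1
    have nn : ∀ (ω : Om n L) (x : Fin n), 0 ≤ (exp (ε ^ 2 / 40 * (cp ω ℓ x).card) - 1) *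
        ind ((cp ω ℓ x).card * (1 + ε) ≤ 5 / 4 * ε * n) := fun ω x =>
      mul_nonneg (sub_nonneg.2 (one_le_exp (by positivity))) (ind_nonneg _)
    calc _ ≤ av (fun ω : Om n L => 1 / (y ^ 2 / (3 * ε ^ 2) * (exp (y ^ 2 / 120) - 1)) *
          ∑ x, (exp (ε ^ 2 / 40 * (cp ω ℓ x).card) - 1) *
            ind ((cp ω ℓ x).card * (1 + ε) ≤ 5 / 4 * ε * n)) := by
          refine av_mono fun ω => ind_le (mul_nonneg (by positivity)
            (sum_nonneg fun x _ => nn ω x)) ?_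
          rintro ⟨x, a, b⟩
          rw [one_div, ← div_eq_inv_mul, one_le_div₀ (by positivity)]
          refine le_trans ?_ (sum_le_sum_of_subset_of_nonneg (subset_univ (cp ω ℓ x))
            fun z _ _ => nn ω z)
          rw [sum_congr rfl fun z hz => by rw [cp_eq hz, ind_of b, mul_one], sum_const, nsmul_eq_mul]
          gcongr
          calc y ^ 2 / 120 = ε ^ 2 / 40 * (y ^ 2 / (3 * ε ^ 2)) := by field_simp; norm_num
            _ ≤ _ := by gcongr
      _ ≤ 1 / (y ^ 2 / (3 * ε ^ 2) * (exp (y ^ 2 / 120) - 1)) * (8 * ε * n) := by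
          rw [av_const_mul]
          gcongr
          exact hm n L ℓ ℓ' ε ε' h
      _ ≤ 1 / (y ^ 2 / (3 * ε ^ 2) * (24 * y ^ 41)) * (8 * ε * n) := by gcongr
      _ = ε ^ 3 * n / y ^ 43 := by field_simp; norm_num
      _ = _ := by rw [← hy']; field_simp

end

end Pool.Agent.P.MP_5fda20_pr.O
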