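import Pool.Agent.P.MP_5fda20_pr.O.Defs

/-! The contribution of one scale. -/

namespace Pool.Agent.P.MP_5fda20_pr.O

open Finset Real

noncomputable section

variable {n L a a' : ℕ} {ε ε' y : ℝ}

theorem fin_uu_congr {W : ℝ} {c c' : ℕ → ℕ} (h : ∀ i, a ≤ i → c i = c' i) {i : ℕ} (hi : a ≤ i) :
    UU W c i L = UU W c' i L := by
  rw [UU, UU, clk_congr fun j hj => h j (hi.trans hj)]

theorem fin_th_congr {c c' : ℕ → ℕ} (h : ∀ i, a ≤ i → c i = c' i) (H : TH n y a L c) :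
    TH n y a L c' := by
  unfold TH GoodU at *
  rw [← fin_uu_congr h le_rfl]
  refine ⟨⟨H.1.1, fun i h1 h2 => ?_⟩, H.2⟩
  have := H.1.2 i h1 h2
  unfold Stp at *
  rwa [sg, h i h1, h (i + 1) (by omega), fin_uu_congr h (i := i + 1) (by omega)] at this

theorem fin_ex2 [NeZero L] (P : Fin n → Fin n → Om n L → Prop) :
    av (fun ω => ind (∃ u v, P u v ω)) ≤ ∑ u, ∑ v, av (fun ω => ind (P u v ω)) := by
  simp only [← av_sum]
  refine av_mono fun ω => ind_le (sum_nonneg fun _ _ => sum_nonneg fun _ _ => ind_nonneg _) ?_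
  rintro ⟨u, v, h⟩
  calc _ = ind (P u v ω) := (ind_of h).symm
    _ ≤ ∑ v, ind (P u v ω) := single_le_sum (f := fun v => ind (P u v ω))
      (fun _ _ => ind_nonneg _) (mem_univ v)
    _ ≤ _ := single_le_sum (f := fun u => ∑ v, ind (P u v ω))
      (fun _ _ => sum_nonneg fun _ _ => ind_nonneg _) (mem_univ u)

theorem fin_y1 (hy : exp 500 ≤ y) : (10 : ℝ) ^ 9 ≤ y := by
  refine le_trans ?_ hy
  calc (10 : ℝ) ^ 9 ≤ 10 ^ 50 := by norm_num
    _ ≤ exp 10 ^ 50 := by gcongr; linarith [add_one_le_exp 10]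
    _ = _ := by rw [← exp_nat_mul]; norm_num

theorem fin_exp20 : (10 : ℝ) ^ 8 ≤ exp 20 := by
  have := pow_le_pow_left₀ (by norm_num) exp_one_gt_d9.le 20
  rw [← exp_nat_mul] at this
  norm_num at this ⊢
  linarith

theorem scale_U (h1 : S_urn) (h2 : S_ev) (h3 : S_unb) [NeZero L] (R : Rung n L a a' ε ε')
    (hy : exp 500 ≤ y) (hy' : y ^ 12 = ε ^ 3 * n) :
    av (fun ω : Om n L => ind (∃ u v, ∃ q ∈ IU ε u v,
      Ev2 ω a (TH n y a L) (fun _ => True) u v q)) ≤ exp 250 / (ε * n) := by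
  classical
  have y9 := fin_y1 hy
  have n0 := R.n0
  have e0 := R.e0
  have aL : a ≤ L := R.le.trans R.lt.le
  have np : (0 : ℝ) < n := by linarith
  refine (fin_ex2 _).trans ((sum_le_sum fun u _ => sum_le_sum fun v _ => h2 n L a u v (IU ε u v)
    (fun q => exp 230 * (40 / y ^ 9) ^ 2 / n * ((q.2.card : ℝ) / q.1.card *
      (1 - (q.2.card : ℝ) / q.1.card))) (TH n y a L) (fun _ => True) aL
    (fun q hq => (mem_filter.1 hq).2.1) (fun c c' h => fin_th_congr h) (fun _ _ _ => rfl)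
    (fun q hq => ?_) fun q hq c c1 c2 H => ?_).trans ?_)
  · have := card_le_card (mem_filter.1 hq).2.1.1
    have h4 : (q.2.card : ℝ) / q.1.card ≤ 1 :=
      div_le_one_of_le₀ (by exact_mod_cast this) (by positivity)
    have := sub_nonneg.2 h4
    positivity
  · obtain ⟨i1, i2, -, i3⟩ := (mem_filter.1 hq).2
    have h4 := card_le_card i1.1
    have h5 : (q.2.card : ℝ) / q.1.card ≤ 1 :=
      div_le_one_of_le₀ (by exact_mod_cast h4) (by positivity)
    have h6 := (h1 n (L - a) a L c (by exact_mod_cast (show (10 : ℝ) ≤ n by linarith)) c2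
      (Nat.add_sub_cancel' aL) (c1 ▸ card_pos.2 ⟨u, i1.1 i1.2.1⟩) H.1 _ (c1 ▸ h4)).2 (c1 ▸ i3)
    rw [c1] at h6
    refine h6.trans ?_
    have := sub_nonneg.2 h5
    have h7 : 0 ≤ UU (WW n) c a L := le_trans (by positivity) H.2.1
    gcongr
    exact H.2.2
  simp only [mul_assoc _ (_ * _) (ind _), ← mul_sum, av_const_mul]
  refine (mul_le_mul_of_nonneg_left (h3 n L a a' ε ε' R) (by positivity)).trans ?_
  have y1 : (1 : ℝ) ≤ y := by linarith
  rw [le_div_iff₀ (by positivity), show (250 : ℝ) = 230 + 20 by norm_num, exp_add]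
  calc _ = exp 230 * (48 * 10 ^ 6 * ((ε ^ 3 * n) / y ^ 18)) := by field_simp; norm_num
    _ ≤ exp 230 * (48 * 10 ^ 6 * 1) := by
        gcongr
        rw [← hy', div_le_one (by positivity)]
        exact pow_le_pow_right₀ y1 (by norm_num)
    _ ≤ _ := by gcongr; linarith [fin_exp20]

theorem scale_B (h1 : S_urn) (h2 : S_ev) (h3 : S_bal) [NeZero L] (R : Rung n L a a' ε ε')
    (hy : exp 500 ≤ y) {Ξ Ξ' : Om n L → Prop} (x1 : Lev a Ξ) (x2 : Lev a Ξ')
    (x3 : ∀ ω e, Ξ ω → Ξ' (rm ω e)) {δ : ℝ} (hδ : av (fun ω => ind (Ξ' ω)) ≤ δ)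
    (hδ' : exp (-(ε ^ 3 * n)) ≤ δ) :
    av (fun ω : Om n L => ind (∃ u v, ∃ q ∈ I2 (ε * n / 10) u v,
      Ev2 ω a (TH n y a L) Ξ u v q)) ≤ 600 * exp 210 * y ^ 9 * ε ^ 2 * δ := by
  classical
  have y9 := fin_y1 hy
  have n0 := R.n0
  have e0 := R.e0
  have aL : a ≤ L := R.le.trans R.lt.le
  have np : (0 : ℝ) < n := by linarith
  have y1 : (1 : ℝ) ≤ y := by linarith
  refine (fin_ex2 _).trans ((sum_le_sum fun u _ => sum_le_sum fun v _ => h2 n L a u v
    (I2 (ε * n / 10) u v) (fun _ => exp 210 * (4 * y ^ 9) / n) (TH n y a L) Ξ aL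
    (fun q hq => (mem_filter.1 hq).2.1) (fun c c' h => fin_th_congr h) x1
    (fun q hq => by positivity) fun q hq c c1 c2 H => ?_).trans ?_)
  · obtain ⟨i1, -⟩ := (mem_filter.1 hq).2
    refine (h1 n (L - a) a L c (by exact_mod_cast (show (10 : ℝ) ≤ n by linarith)) c2
      (Nat.add_sub_cancel' aL) (c1 ▸ card_pos.2 ⟨u, i1.1 i1.2.1⟩) H.1 _
      (c1 ▸ card_le_card i1.1)).1.trans ?_
    have h4 : 1 / (4 * y ^ 9) ≤ √(UU (WW n) c a L) := by
      refine le_sqrt_of_sq_le (le_trans ?_ H.2.1)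
      rw [div_pow, one_pow, mul_pow, ← pow_mul]
      gcongr
      · norm_num
      · norm_num
    calc _ ≤ exp 210 / (n * (1 / (4 * y ^ 9))) := by gcongr
      _ = _ := by field_simp
  simp only [← mul_sum, av_const_mul]
  refine (mul_le_mul_of_nonneg_left (h3 n L a a' ε ε' Ξ Ξ' R x2 x3) (by positivity)).trans ?_
  calc _ ≤ exp 210 * (4 * y ^ 9) / n * (3 * ε ^ 2 * n * (49 * δ + δ)) := by gcongr
    _ = _ := by field_simp; ring

theorem fin_lev_gg {b b' : ℕ} (h : b ≤ a) (h' : b' ≤ a) (κ hi ms : ℝ) :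
    Lev a fun ω : Om n L => GG ω b b' ε κ hi ms := fun ω ω' e => by
  simp only [GG, cp, e b h, e b' h']

theorem scale_B1 (h1 : S_urn) (h2 : S_ev) (h3 : S_bal) (h4 : S_rm3) [NeZero L] {a'' : ℕ}
    {ε'' y' : ℝ} (R : Rung n L a a' ε ε') (R' : Rung n L a' a'' ε' ε'') (hy : exp 500 ≤ y)
    (hx : y ^ 12 = ε ^ 3 * n) (hy' : exp 500 ≤ y') (hx' : y' ^ 12 = ε' ^ 3 * n)
    (hs : av (fun ω : Om n L => ind (¬ GS ω a a' ε y)) ≤ 1 / y ^ 30) :
    av (fun ω : Om n L => ind (∃ u v, ∃ q ∈ I2 (ε' * n / 10) u v,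
      Ev2 ω a' (TH n y' a' L) (fun ω => ¬ GW ω a a' ε y) u v q)) ≤ exp 250 / (ε' * n) := by
  have y9 := fin_y1 hy
  have y9' := fin_y1 hy'
  have e0 := R.e0
  have e0' := R'.e0
  have np : (0 : ℝ) < n := by linarith [R.n0]
  have yy : y' ≤ 2 * y := by
    refine le_of_pow_le_pow_left₀ (n := 12) (by norm_num) (by positivity) ?_
    rw [hx', mul_pow, hx]
    calc _ ≤ (9 / 8 * ε) ^ 3 * (n : ℝ) := by gcongr; exact R.e3
      _ = (9 / 8) ^ 3 * (ε ^ 3 * n) := by ring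
      _ ≤ _ := by gcongr; norm_num
  refine (scale_B h1 h2 h3 R' hy' (Ξ' := fun ω => ¬ GS ω a a' ε y) (δ := 1 / y' ^ 21)
    (fun ω ω' e => congrArg Not (fin_lev_gg R.le le_rfl _ _ _ ω ω' e))
    (fun ω ω' e => congrArg Not (fin_lev_gg R.le le_rfl _ _ _ ω ω' e))
    (fun ω e h h' => h (h4 n L a a' ω e ε ε' y R hy hx h')) (hs.trans ?_) ?_).trans ?_
  · refine one_div_le_one_div_of_le (by positivity) ?_
    calc _ ≤ (2 * y) ^ 21 := by gcongr
      _ = 2 ^ 21 * y ^ 21 := mul_pow _ _ _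
      _ ≤ y ^ 9 * y ^ 21 := by
          gcongr ?_ * _
          exact le_trans (by linarith) (le_self_pow₀ (by linarith) (by norm_num))
      _ = _ := by ring
  · rw [← hx', exp_neg, one_div]
    refine inv_anti₀ (by positivity) (le_trans ?_ (pow_div_factorial_le_exp _ (by positivity) 2))
    rw [← pow_mul, le_div_iff₀ (by positivity)]
    calc _ ≤ y' ^ 21 * y' ^ 3 := by
          gcongr
          exact le_trans (by norm_num; linarith) (le_self_pow₀ (by linarith) (by norm_num))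
      _ = _ := by ring
  · rw [le_div_iff₀ (by positivity), show (250 : ℝ) = 210 + 20 + 20 by norm_num, exp_add, exp_add]
    calc _ = exp 210 * 600 * ((ε' ^ 3 * n) / y' ^ 12) := by field_simp
      _ = exp 210 * 600 * 1 := by rw [← hx', div_self (by positivity)]
      _ ≤ _ := by gcongr <;> linarith [fin_exp20]

end

end Pool.Agent.P.MP_5fda20_pr.O
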