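import Pool.Agent.P.MP_5fda20_pr.O.Fin1

/-! The sum over the scales. -/

namespace Pool.Agent.P.MP_5fda20_pr.O

open Finset Real Filter

noncomputable section

variable {n N L l m J : ℕ} {ℓ : ℕ → ℕ} {ε y : ℕ → ℝ}

theorem sum_scales (S : Scales n N L m J ℓ ε y) :
    ∑ j ∈ range (J + 1), 1 / ε j ≤ 10 / ε 0 := by
  have : ∀ k ≤ J + 1, ∑ j ∈ range k, 1 / ε j + 10 / ε k ≤ 10 / ε 0 := fun k hk => by
    induction k with
    | zero => simp
    | succ k ih =>
      have R := S.rung k (by omega)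
      have e0 := R.e0
      have h1 : 10 / ε (k + 1) ≤ 10 / (10 / 9 * ε k) := by gcongr; exact R.e2
      have h2 : 10 / (10 / 9 * ε k) = 10 / ε k - 1 / ε k := by field_simp; norm_num
      rw [sum_range_succ]
      linarith [ih (by omega)]
  have R := S.rung J le_rfl
  have h1 : 0 < ε (J + 1) := lt_of_lt_of_le (by have := R.e0; positivity) R.e2
  have h2 : 0 ≤ 10 / ε (J + 1) := by positivity
  linarith [this _ le_rfl]

theorem upper2 (h1 : S_urn) (h2 : S_ev) (h3 : S_bal) (h4 : S_unb) (h5 : S_rm3) (h6 : S_late)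
    (h7 : S_dec) (P : Par n N L l m) (S : Scales n N L m J ℓ ε y) (hl : (l : ℝ) ^ 200 ≤ n)
    {x : ℝ} (x0 : 0 < x) (hx : x ^ 3 * n = 1) (e0 : x ≤ ε 0) {K : ℝ}
    (hK : y 0 ^ 9 * ε 0 ^ 2 ≤ K * x ^ 2)
    (hs : ∀ j < J, av (fun ω : Om n L => ind (¬ GS ω (ℓ j) (ℓ (j + 1)) (ε j) (y j))) ≤
      1 / y j ^ 30) :
    av (fun ω : Om n L => ind (¬ Function.Injective ω ∨ Split ω)) ≤
      (33 + 20 * exp 250 + 600 * exp 210 * K) * x ^ 2 := by
  have := P.ne
  have n0 := P.n0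
  obtain ⟨b, b1, b2⟩ := h6 n N L l m x P hl x0 hx
  have hn : 1 / (n : ℝ) ^ 6 ≤ x ^ 2 := by
    have n1 : (1 : ℝ) ≤ n := by linarith [P.n9]
    have x1 : x ≤ 1 := by
      by_contra h
      nlinarith [one_lt_pow₀ (not_le.1 h) three_ne_zero]
    rw [div_le_iff₀ (by positivity), ← hx]
    exact mul_le_mul (pow_le_pow_of_le_one x0.le x1 (by norm_num)) (le_self_pow₀ n1 (by norm_num))
      (by positivity) (by positivity)
  have K0 : 0 ≤ K * x ^ 2 := le_trans (by have := (exp_pos _).trans_le (S.y0 0 J.zero_le); positivity) hK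
  have hj : ∀ j ∈ range (J + 1), av (fun ω : Om n L => ind (∃ u v,
      (∃ q ∈ IU (ε j) u v, Ev2 ω (ℓ j) (TH n (y j) (ℓ j) L) (fun _ => True) u v q) ∨
      ∃ q ∈ I2 (ε j * n / 10) u v, Ev2 ω (ℓ j) (TH n (y j) (ℓ j) L)
        (fun ω => ∀ i, j = i + 1 → ¬ GW ω (ℓ i) (ℓ (i + 1)) (ε i) (y i)) u v q)) ≤
      2 * exp 250 / n * (1 / ε j) + ind (0 = j) * (600 * exp 210 * (K * x ^ 2)) := fun j hj => by
    have j1 : j ≤ J := Nat.lt_succ_iff.1 (mem_range.1 hj)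
    have R := S.rung j j1
    have e1 := R.e0
    simp only [exists_or]
    refine (av_or_le _ _).trans ((add_le_add (scale_U h1 h2 h4 R (S.y0 j j1) (S.y1 j j1))
      (show _ ≤ exp 250 / (ε j * n) + ind (0 = j) * (600 * exp 210 * (K * x ^ 2)) from ?_)).trans_eq
      (by field_simp; ring))
    rcases j with _ | j
    · rw [ind_of rfl, one_mul]
      refine le_add_of_nonneg_of_le (by positivity) ((scale_B h1 h2 h3 R (S.y0 0 j1)
        (Ξ' := fun _ => True) (δ := 1) (fun _ _ _ => by simp) (fun _ _ _ => rfl)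
        (fun _ _ _ => trivial) (av_ind_le_one _) (exp_le_one_iff.2 (by linarith [R.big]))).trans ?_)
      rw [mul_one, mul_assoc]
      gcongr
    · rw [ind_of_not (by omega), zero_mul, add_zero]
      simpa only [Nat.add_right_cancel_iff, forall_eq'] using scale_B1 h1 h2 h3 h5
        (S.rung j (by omega)) R (S.y0 j (by omega)) (S.y1 j (by omega)) (S.y0 _ j1) (S.y1 _ j1)
        (hs j j1)
  refine (av_mono fun ω => ind_mono (Q := ¬ Function.Injective ω ∨ ¬ Good ω N l m ∨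
    ¬ Late ω l b ∨ _) fun h => by
      by_contra h8
      rw [not_or, not_or, not_or, not_not, not_not, not_not] at h8
      exact h8.2.2.2 (h7 n N L l m b J ℓ ε y ω P S h8.1 h8.2.1 b1 h8.2.2.1
        (h.resolve_left (not_not.2 h8.1)))).trans
    ((av_or_le _ _).trans ((add_le_add (av_inj P) ((av_or_le _ _).trans (add_le_add (av_not_good P)
      ((av_or_le _ _).trans (add_le_add b2 ((av_or_le _ _).trans (add_le_add (t1 P)
        (((av_mono fun ω => ind_exists_le _ _).trans_eq (av_sum _ _)).trans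
          (sum_le_sum hj))))))))).trans ?_))
  rw [sum_add_distrib, ← mul_sum, sum_ind_eq _ (mem_range.2 J.succ_pos)
    fun _ => 600 * exp 210 * (K * x ^ 2)]
  have h8 : 2 * exp 250 / n * ∑ j ∈ range (J + 1), 1 / ε j ≤ 20 * exp 250 * x ^ 2 :=
    calc _ ≤ 2 * exp 250 / n * (10 / x) := by
          gcongr; exact (sum_scales S).trans (by gcongr)
      _ = 20 * exp 250 * (x ^ 3 * n / (x * n)) := by rw [hx]; field_simp; norm_num
      _ = _ := by field_simp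
  linarith

/-- The scales. -/
def tt (t : ℕ) : ℕ → ℕ
  | 0 => t
  | j + 1 => tt t j + tt t j / 8

theorem tt_mono (t : ℕ) : Monotone (tt t) := monotone_nat_of_le_succ fun _ => Nat.le_add_right _ _

theorem tt_ge {t : ℕ} (h : 8 ≤ t) (j : ℕ) : j ≤ tt t j := by
  induction j with
  | zero => exact Nat.zero_le _
  | succ j ih =>
    have : t ≤ tt t j := tt_mono t j.zero_le
    rw [tt]; omega

theorem upper3 (h1 : S_urn) (h2 : S_ev) (h3 : S_bal) (h4 : S_unb) (h5 : S_rm3) (h6 : S_late)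
    (h7 : S_dec) (h8 : S_str) {x : ℝ} (x0 : 0 < x) (hx : x ^ 3 * n = 1) (l0 : exp 1000 ≤ l)
    (ln : (n : ℝ) ≤ exp l) (nl : (l : ℝ) ^ 200 ≤ n) :
    pMST (⊤ : SimpleGraph (Fin n)) ≤
      (33 + 20 * exp 250 + 600 * exp 210 * (32 * exp 10000)) * x ^ 2 := by
  classical
  have l1 : (1000 : ℝ) ≤ l := by linarith [add_one_le_exp (1000 : ℝ)]
  have l2 : (1 : ℝ) ≤ l := by linarith
  have n1 : (1 : ℝ) ≤ n := (one_le_pow₀ l2).trans nl
  have x1 : x ≤ 1 := by
    by_contra h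
    nlinarith [one_lt_pow₀ (not_le.1 h) three_ne_zero]
  have xN : 8 ≤ exp 2000 * x * ((n ^ 9 : ℕ) : ℝ) := by
    have : 1 ≤ x * ((n ^ 9 : ℕ) : ℝ) := by
      rw [← hx, Nat.cast_pow]
      exact mul_le_mul (pow_le_of_le_one x0.le x1 three_ne_zero) (le_self_pow₀ n1 (by norm_num))
        (by positivity) x0.le
    nlinarith [add_one_le_exp (2000 : ℝ)]
  obtain ⟨N, hN⟩ : ∃ N, N = n ^ 9 := ⟨_, rfl⟩
  rw [← hN] at xN
  have N0 : (0 : ℝ) < N := (Nat.cast_nonneg N).lt_of_ne fun e => by rw [← e] at xN; linarith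
  obtain ⟨a1, a2⟩ := ceil_div (N := N) (y := exp 2000 * x) (by linarith)
  have a0 : 8 ≤ ⌈exp 2000 * x * N⌉₊ := by exact_mod_cast xN.trans (Nat.le_ceil _)
  generalize ⌈exp 2000 * x * N⌉₊ = t at *
  have e6 : exp 2000 ^ 3 = exp 6000 := by rw [← exp_nat_mul]; norm_num
  have b1 : ∀ j, exp 6000 ≤ ((tt t j : ℝ) / N) ^ 3 * n := fun j =>
    calc _ = (exp 2000 * x) ^ 3 * n := by rw [mul_pow, e6, mul_assoc, hx, mul_one]
      _ ≤ ((t : ℝ) / N) ^ 3 * n := by gcongr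
      _ ≤ _ := by gcongr; exact tt_mono t j.zero_le
  have b2 : ((t : ℝ) / N) ^ 3 * n ≤ 8 * exp 6000 :=
    calc _ ≤ (2 * (exp 2000 * x)) ^ 3 * (n : ℝ) := by gcongr
      _ = 8 * exp 2000 ^ 3 * (x ^ 3 * n) := by ring
      _ = _ := by rw [e6, hx, mul_one]
  have b3 : exp 6000 ≤ (l : ℝ) ^ 9 :=
    calc _ ≤ exp 1000 ^ 9 := by rw [← exp_nat_mul]; norm_num
      _ ≤ _ := by gcongr
  have ex : ∃ j, (l : ℝ) ^ 9 ≤ ((tt t j : ℝ) / N) ^ 3 * n := ⟨N, by
    have : (1 : ℝ) ≤ (tt t N : ℝ) / N := (one_le_div N0).2 (by exact_mod_cast tt_ge a0 N)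
    calc _ ≤ (l : ℝ) ^ 200 := pow_le_pow_right₀ l2 (by norm_num)
      _ ≤ 1 * n := by linarith
      _ ≤ _ := by gcongr; exact one_le_pow₀ this⟩
  obtain ⟨J, j1, j2⟩ : ∃ J, (l : ℝ) ^ 9 ≤ ((tt t J : ℝ) / N) ^ 3 * n ∧
      ((tt t J : ℝ) / N) ^ 3 * n ≤ 8 * l ^ 9 := by
    refine ⟨Nat.find ex, Nat.find_spec ex, ?_⟩
    rcases h : Nat.find ex with _ | j
    · exact b2.trans (by gcongr)
    · have h9 := not_le.1 (Nat.find_min ex (m := j) (by omega))
      have h10 : (tt t (j + 1) : ℝ) ≤ 2 * tt t j := by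
        exact_mod_cast (show tt t (j + 1) ≤ 2 * tt t j by rw [tt]; omega)
      calc _ ≤ (2 * (tt t j : ℝ) / N) ^ 3 * n := by gcongr
        _ = 8 * (((tt t j : ℝ) / N) ^ 3 * n) := by ring
        _ ≤ _ := by gcongr
  have he : ep N (N + tt t J) = tt t J / N := by
    rw [ep, Nat.cast_add, add_div, div_self N0.ne', add_sub_cancel_left, min_eq_left]
    refine le_of_pow_le_pow_left₀ three_ne_zero zero_le_one (le_of_mul_le_mul_right (j2.trans ?_)
      (zero_lt_one.trans_le n1))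
    calc _ ≤ (l : ℝ) * l ^ 9 := by gcongr; linarith
      _ ≤ l ^ 200 := by rw [← pow_succ']; exact pow_le_pow_right₀ l2 (by norm_num)
      _ ≤ _ := by linarith
  have P : Par n N (n * N) l (N + tt t J) :=
    ⟨rfl, hN, le_trans (by gcongr; norm_num) l0, ln,
      (pow_le_pow_right₀ l2 (by norm_num)).trans nl, he ▸ j1, he ▸ j2⟩
  have := P.ne
  obtain ⟨y, y0, y1⟩ : ∃ y : ℕ → ℝ, (∀ j, exp 500 ≤ y j) ∧
      ∀ j, y j ^ 12 = ((tt t j : ℝ) / N) ^ 3 * n := by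
    have h9 : ∀ j, ((((tt t j : ℝ) / N) ^ 3 * n) ^ ((12 : ℕ) : ℝ)⁻¹) ^ 12 =
        ((tt t j : ℝ) / N) ^ 3 * n := fun j => rpow_inv_natCast_pow (by positivity) (by norm_num)
    refine ⟨_, fun j => le_of_pow_le_pow_left₀ (n := 12) (by norm_num) (by positivity) ?_, h9⟩
    rw [h9, ← exp_nat_mul]
    exact le_trans (by norm_num) (b1 j)
  have hR : ∀ j ≤ J, Rung n (n * N) (N + tt t j) (N + tt t (j + 1)) (tt t j / N)
      (tt t (j + 1) / N) := fun j hj =>
    (P.rung (Nat.add_le_add_left (tt_mono t hj) _) (le_trans (by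
      linarith [fin_exp20, exp_le_exp.2 (show (20 : ℝ) ≤ 6000 by norm_num)]) (b1 j))).2
  refine (pMST_le (L := n * N)).trans (upper2 h1 h2 h3 h4 h5 h6 h7 P
    (ℓ := fun j => N + tt t j) (ε := fun j => tt t j / N) (y := y)
    ⟨rfl, he.symm, hR, fun j _ => y0 j, fun j _ => y1 j⟩ nl x0 hx
    (le_trans (le_mul_of_one_le_left x0.le (one_le_exp (by norm_num))) a1) ?_ fun j hj => ?_)
  · have h9 : y 0 ^ 9 ≤ 8 * exp 6000 :=
      (pow_le_pow_right₀ (by linarith [fin_y1 (y0 0)]) (by norm_num)).trans ((y1 0).trans_le b2)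
    calc _ ≤ 8 * exp 6000 * (2 * (exp 2000 * x)) ^ 2 := by gcongr; exact a2
      _ = 32 * (exp 6000 * exp 2000 * exp 2000) * x ^ 2 := by ring
      _ = _ := by rw [← exp_add, ← exp_add]; norm_num
  · have R := hR j hj.le
    have y9 := fin_y1 (y0 j)
    have h9 : y j ≤ tt t j := by
      have h10 : (n : ℝ) ≤ N := by rw [hN]; push_cast; exact le_self_pow₀ n1 (by norm_num)
      have h11 : ((tt t j : ℝ) / N) ^ 3 ≤ tt t j / N :=
        pow_le_of_le_one R.e0.le (by linarith [R.e1]) three_ne_zero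
      calc _ ≤ y j ^ 12 := le_self_pow₀ (by linarith) (by norm_num)
        _ ≤ (tt t j : ℝ) / N * N := by rw [y1]; gcongr
        _ = _ := by field_simp
    have h10 : 1 ≤ (tt t j : ℝ) / y j := (one_le_div (by linarith)).2 h9
    have h11 := Nat.floor_le (zero_le_one.trans h10)
    have h12 := Nat.lt_floor_add_one ((tt t j : ℝ) / y j)
    have h13 : (1 : ℝ) ≤ ⌊(tt t j : ℝ) / y j⌋₊ := by exact_mod_cast Nat.floor_pos.2 h10
    generalize ⌊(tt t j : ℝ) / y j⌋₊ = s at *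
    rw [le_div_iff₀ (by linarith)] at h11
    rw [div_lt_iff₀ (by linarith)] at h12
    refine h8 n (n * N) _ _ (N + s) _ _ (s / N) _ R (y0 j) (y1 j) (Nat.add_le_add_left ?_ _)
      (P.lev s) ?_ ?_
    · exact_mod_cast (show (s : ℝ) ≤ tt t j by nlinarith)
    · rw [← mul_div_assoc]; gcongr; nlinarith
    · rw [← mul_div_assoc]; gcongr; linarith

theorem upper4 (h1 : S_urn) (h2 : S_ev) (h3 : S_bal) (h4 : S_unb) (h5 : S_rm3) (h6 : S_late)
    (h7 : S_dec) (h8 : S_str) : ∃ C : ℝ, ∀ᶠ n : ℕ in atTop,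
    pMST (⊤ : SimpleGraph (Fin n)) ≤ C * (n : ℝ) ^ (-2 / 3 : ℝ) := by
  refine ⟨33 + 20 * exp 250 + 600 * exp 210 * (32 * exp 10000), ?_⟩
  have t := tendsto_natCast_atTop_atTop (R := ℝ)
  filter_upwards [(tendsto_log_atTop.comp t).eventually_ge_atTop (exp 1000),
    t.eventually ((isLittleO_pow_log_id_atTop (n := 200)).bound (c := 1 / 2 ^ 200) (by positivity)),
    t.eventually_gt_atTop 0] with n a1 a2 n0
  simp only [Function.comp] at a1
  have l1 : (1 : ℝ) ≤ log n := (one_le_exp (by norm_num)).trans a1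
  have l2 : (⌈log n⌉₊ : ℝ) ≤ 2 * log n := by linarith [Nat.ceil_lt_add_one (zero_le_one.trans l1)]
  rw [id, norm_of_nonneg (by positivity), norm_of_nonneg n0.le] at a2
  have hx : ((n : ℝ) ^ (-1 / 3 : ℝ)) ^ 2 = n ^ (-2 / 3 : ℝ) := by
    rw [← rpow_natCast, ← rpow_mul n0.le]; norm_num
  rw [← hx]
  exact upper3 (l := ⌈log n⌉₊) h1 h2 h3 h4 h5 h6 h7 h8 (rpow_pos_of_pos n0 (-1 / 3))
    (by rw [← rpow_natCast, ← rpow_mul n0.le, ← rpow_add_one n0.ne']; norm_num)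
    (a1.trans (Nat.le_ceil _)) ((log_le_iff_le_exp n0).1 (Nat.le_ceil _))
    (calc _ ≤ (2 * log n) ^ 200 := by gcongr
      _ = 2 ^ 200 * log n ^ 200 := mul_pow _ _ _
      _ ≤ _ := by linarith)

end

end Pool.Agent.P.MP_5fda20_pr.O
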