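import Pool.Agent.P.MP_5fda20_pr.O.Defs

/-! The steps after level `m` and the invariant at level `m`. -/

namespace Pool.Agent.P.MP_5fda20_pr.O

open Finset Real

noncomputable section

namespace H12

theorem root8 {x : ℝ} (hx : 0 ≤ x) : (x ^ (1 / 8 : ℝ)) ^ 8 = x := by
  rw [← rpow_natCast, ← rpow_mul hx]; norm_num

theorem le_a {s U W : ℝ} (hU : 0 < U) (hW : 0 ≤ W) (h : s ^ 8 ≤ U ^ 9) :
    s ≤ U * (U ^ (1 / 8 : ℝ) + (W / U) ^ (1 / 8 : ℝ)) := by
  have h1 : s ≤ U * U ^ (1 / 8 : ℝ) := by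
    refine le_of_pow_le_pow_left₀ (n := 8) (by norm_num) (by positivity) ?_
    rw [mul_pow, root8 hU.le]
    exact h.trans_eq (by ring)
  have h2 : 0 ≤ U * (W / U) ^ (1 / 8 : ℝ) := by positivity
  linarith [mul_add U (U ^ (1 / 8 : ℝ)) ((W / U) ^ (1 / 8 : ℝ))]

theorem le_b {s U W : ℝ} (hU : 0 < U) (hW : 0 ≤ W) (h : s ^ 8 ≤ U ^ 7 * W) :
    s ≤ U * (U ^ (1 / 8 : ℝ) + (W / U) ^ (1 / 8 : ℝ)) := by
  have h1 : s ≤ U * (W / U) ^ (1 / 8 : ℝ) := by
    refine le_of_pow_le_pow_left₀ (n := 8) (by norm_num) (by positivity) ?_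
    rw [mul_pow, root8 (by positivity)]
    exact h.trans_eq (by field_simp)
  have h2 : 0 ≤ U * U ^ (1 / 8 : ℝ) := by positivity
  linarith [mul_add U (U ^ (1 / 8 : ℝ)) ((W / U) ^ (1 / 8 : ℝ))]

theorem num1 {l X s U : ℝ} (hl : 10 ^ 9 ≤ l) (hX : l ^ 9 ≤ X) (h0 : 0 ≤ s)
    (hs : s ≤ 15 * l ^ 4 / X ^ 2) (hU : 1 / (l ^ 3 * X) ≤ U) : s ^ 8 ≤ U ^ 9 := by
  have l0 : 0 < l := by linarith
  have X0 : 0 < X := lt_of_lt_of_le (by positivity) hX
  have h1 : (15 : ℝ) ^ 8 ≤ l ^ 4 := le_trans (by norm_num) (pow_le_pow_left₀ (by norm_num) hl 4)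
  have h2 : (l ^ 9) ^ 7 ≤ X ^ 7 := by gcongr
  calc s ^ 8 ≤ (15 * l ^ 4 / X ^ 2) ^ 8 := by gcongr
    _ = 15 ^ 8 * l ^ 59 / (l ^ 27 * X ^ 16) := by field_simp
    _ ≤ l ^ 4 * l ^ 59 / (l ^ 27 * X ^ 16) := by gcongr
    _ = (l ^ 9) ^ 7 / (l ^ 27 * X ^ 16) := by ring
    _ ≤ X ^ 7 / (l ^ 27 * X ^ 16) := by gcongr
    _ = (1 / (l ^ 3 * X)) ^ 9 := by field_simp
    _ ≤ _ := by gcongr

theorem num2 {l n s U : ℝ} (hl : 10 ^ 9 ≤ l) (n0 : 0 < n) (h0 : 0 ≤ s)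
    (hs : s ≤ 960 * l ^ 10 / n ^ 2) (hU : l ^ 21 / n ^ 2 / 16 ≤ U) :
    s ^ 8 ≤ U ^ 7 * (10 ^ 6 / n ^ 2) := by
  have l0 : 0 < l := by linarith
  have l1 : 1 ≤ l := by linarith
  have U0 : 0 ≤ U := le_trans (by positivity) hU
  have h1 : (960 : ℝ) ^ 8 * 16 ^ 7 ≤ l ^ 67 :=
    (le_trans (by norm_num) (pow_le_pow_left₀ (by norm_num) hl 4)).trans
      (pow_le_pow_right₀ l1 (by norm_num))
  calc s ^ 8 ≤ (960 * l ^ 10 / n ^ 2) ^ 8 := by gcongr
    _ = 960 ^ 8 * 16 ^ 7 * l ^ 80 / (16 ^ 7 * n ^ 16) := by field_simp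
    _ ≤ l ^ 67 * l ^ 80 / (16 ^ 7 * n ^ 16) := by gcongr
    _ = (l ^ 21 / n ^ 2 / 16) ^ 7 * (1 / n ^ 2) := by field_simp
    _ ≤ _ := by gcongr; norm_num

variable {n L : ℕ} {ω : Om n L} {u : Fin n}

theorem cs_pos (i : ℕ) : (0 : ℝ) < cs ω {u} i :=
  Nat.cast_pos.2 (card_pos.2 ⟨u, self_mem_cp⟩)

theorem cs_le (i : ℕ) : (cs ω {u} i : ℝ) ≤ n := by
  exact_mod_cast (card_le_univ (cp ω i u)).trans_eq (Fintype.card_fin n)

theorem sg_nonneg (i : ℕ) : 0 ≤ sg (cs ω {u}) i :=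
  div_nonneg (sub_nonneg.2 (by exact_mod_cast cs_mono i.le_succ)) (by positivity)

theorem clk_ge {i : ℕ} (h : i ≤ L) : ((n : ℝ) - cs ω {u} i) / n ^ 2 ≤ clk (cs ω {u}) i L := by
  have e : (cs ω {u} L : ℝ) = n := by
    have : cs ω {u} L = n := (congrArg card (cp_top u)).trans (by simp)
    exact_mod_cast this
  rw [← e, ← sum_Ico_sub (fun j => (cs ω {u} j : ℝ)) h, e, sum_div]
  refine sum_le_sum fun j _ => ?_
  obtain ⟨d, hd⟩ := Nat.exists_eq_add_of_le (cs_mono (ω := ω) (R := {u}) j.le_succ)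
  have e2 : (cs ω {u} (j + 1) : ℝ) - cs ω {u} j = d := by
    rw [show cs ω {u} (j + 1) = cs ω {u} j + d from hd]; push_cast; ring
  rw [sg, div_pow, e2]
  refine div_le_div₀ (sq_nonneg _) ?_ (pow_pos (cs_pos j) 2)
    (pow_le_pow_left₀ (cs_pos j).le (cs_le j) 2)
  exact_mod_cast Nat.le_self_pow (by norm_num) d

theorem iso_le {b i : ℕ} (h : i ≤ b) (h1 : 1 < (cp ω i u).card) :
    ∑ x, ind (Ge ω {x} {x}ᶜ b) ≤ (n : ℝ) - cs ω {u} i := by
  have h2 : ∀ x ∈ cp ω i u, ind (Ge ω {x} {x}ᶜ b) = 0 := fun x hx => ind_of_not fun h3 => by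
    have h4 : cp ω i u ⊆ {x} := by
      rw [← cp_eq hx]
      exact (cp_mono h).trans (reach_of_ge h3).subset
    have := card_le_card h4
    rw [card_singleton] at this
    omega
  rw [← sum_add_sum_compl (cp ω i u), sum_eq_zero h2, zero_add]
  refine (sum_le_card_nsmul _ _ 1 fun x _ => ind_le_one _).trans ?_
  rw [nsmul_eq_mul, mul_one, card_compl, Fintype.card_fin,
    Nat.cast_sub ((card_le_univ _).trans_eq (Fintype.card_fin n))]
  rfl

end H12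

open H12

theorem p_h1 : S_h1 := by
  intro n N L l m b ω u P hI G hNb hL hb i i1 i2
  have n0 := P.n0
  have l9 := P.l9
  have l0 : (0 : ℝ) < l := by linarith
  have h3 := Good.big_up P le_rfl hb i1
  have h3' := Good.big_up P le_rfl hb (i1.trans i.le_succ)
  have h4 := G.sg_le P hI i1 h3 i2.le
  have e0 := P.e0 i1
  have e1 := ep_succ e0 P.N0
  have e2 := P.e0 (i1.trans i.le_succ)
  refine ⟨cs_mono i.le_succ, ?_, ?_⟩
  · have := (G.step hI i1 h3 i2.le).trans h3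
    have : (cs ω {u} (i + 1) : ℝ) ≤ 2 * cs ω {u} i := by
      rw [two_mul]; exact sub_le_iff_le_add.1 this
    exact_mod_cast this
  have W0 : 0 < WW n := by unfold WW; positivity
  have c0 : 0 ≤ clk (cs ω {u}) (i + 1) L := clk_nonneg
  have U0 : WW n ≤ UU (WW n) (cs ω {u}) (i + 1) L := by unfold UU; linarith
  have U1 : clk (cs ω {u}) (i + 1) L / 16 ≤ UU (WW n) (cs ω {u}) (i + 1) L := by
    unfold UU; linarith
  rcases le_total (l * ep N (i + 1)) 1 with h5 | h5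
  · have h6 := G.clk_lo P hI (i1.trans i.le_succ) h3' h5
    refine le_a (W0.trans_le U0) W0.le (num1 l9 (P.e3 i1) (by positivity) ?_ (le_trans ?_ U1))
    · calc _ ≤ 5 * (3 * l ^ 4 / (ep N i ^ 6 * n ^ 2)) := by gcongr
        _ = _ := by field_simp; norm_num
    · calc _ = 8192 / l / (64 * l ^ 2 * ((2 * ep N i) ^ 3 * n)) / 16 := by
            field_simp; norm_num
        _ ≤ exp (-405) / 32 / (64 * l ^ 2 * (ep N (i + 1) ^ 3 * n)) / 16 := by
            gcongr ?_ / (64 * _ * (?_ ^ 3 * _)) / 16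
            rw [div_le_iff₀ l0]
            linarith [P.c3]
        _ ≤ _ := by gcongr
  rcases le_or_gt (i + 1) b with h6 | h6
  · have e3 : 1 / (2 * l) ≤ ep N i := by rw [div_le_iff₀ (by positivity)]; nlinarith
    have h7 : 1 < (cp ω (i + 1) u).card := by
      have a1 : ep N (i + 1) ^ 2 ≤ 1 := pow_le_one₀ e2.le ep_le_one
      have a2 : (l : ℝ) ^ 2 ≤ l ^ 2 / ep N (i + 1) ^ 2 := le_div_self (by positivity)
        (by positivity) a1
      have a3 : (1 : ℝ) < (cp ω (i + 1) u).card := by nlinarith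
      exact_mod_cast a3
    have h8 := (hL.1.trans (iso_le h6 h7))
    have h9 := clk_ge (ω := ω) (u := u) (Nat.succ_le_of_lt i2)
    refine le_b (W0.trans_le U0) W0.le (num2 l9 n0 (by positivity) ?_ (le_trans ?_ U1))
    · calc _ ≤ 5 * (3 * l ^ 4 / (ep N i ^ 6 * n ^ 2)) := by gcongr
        _ ≤ 5 * (3 * l ^ 4 / ((1 / (2 * l)) ^ 6 * n ^ 2)) := by gcongr
        _ = _ := by field_simp; norm_num
    · exact div_le_div_of_nonneg_right
        ((div_le_div_of_nonneg_right h8 (by positivity)).trans h9) (by norm_num)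
  · have e3 : ep N i = 1 := by
      refine min_eq_right ?_
      have : ((2 * N : ℕ) : ℝ) ≤ i := by exact_mod_cast hNb.trans (Nat.lt_succ_iff.1 h6)
      push_cast at this
      rw [le_sub_iff_add_le, le_div_iff₀ P.N0]
      linarith
    have h7 : (cs ω {u} (i + 1) : ℝ) - cs ω {u} i ≤ 150 := by
      rcases cp_succ_cases hI i u with h | ⟨y, hy, h⟩
      · rw [show cs ω {u} (i + 1) = cs ω {u} i from congrArg card h, sub_self]; norm_num
      rw [show cs ω {u} (i + 1) = cs ω {u} i + (cp ω i y).card from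
        (congrArg card h).trans (card_union_of_disjoint (cp_disjoint hy)), Nat.cast_add,
        add_sub_cancel_left]
      have a1 := (not_le.1 fun h8 => hy (G.mem i1 i2.le h3 h8)).le
      rw [e3, one_pow, div_one] at a1
      exact_mod_cast hL.2 i (Nat.lt_succ_iff.1 h6) i2.le y (by exact_mod_cast a1)
    have h8 := G.lo i1 i2.le h3
    rw [e3, mul_one] at h8
    have h9 : sg (cs ω {u}) i ≤ 150 / (5 / 8 * n) :=
      div_le_div₀ (by norm_num) h7 (by positivity) h8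
    have h10 : 5 * sg (cs ω {u}) i ^ 2 ≤ WW n := by
      have := sg_nonneg (ω := ω) (u := u) i
      calc _ ≤ 5 * (150 / (5 / 8 * n) : ℝ) ^ 2 := by gcongr
        _ = 288000 / n ^ 2 := by field_simp; norm_num
        _ ≤ _ := by unfold WW; gcongr; norm_num
    refine le_b (W0.trans_le U0) W0.le ?_
    calc _ ≤ WW n ^ 8 := by gcongr
      _ = WW n ^ 7 * WW n := by ring
      _ ≤ _ := by gcongr

theorem p_h2 (h1 : S_h1) : S_h2 := by
  intro n N L l m b ω y P hI G hNb hL hy hy1 u hu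
  have n0 := P.n0
  have N0 := P.N0
  have l9 := P.l9
  have l1 := P.l1
  have l0 : (0 : ℝ) < l := by linarith
  have e0 := P.e0 le_rfl
  have y0 : 0 < y := (exp_pos _).trans_le hy
  have hb : (l : ℝ) ^ 2 / ep N m ^ 2 ≤ (cp ω m u).card := by
    have := P.k4
    have a1 : 0 ≤ (l : ℝ) ^ 2 / ep N m ^ 2 := by positivity
    have a2 : 0 ≤ ep N m * n := by positivity
    linarith
  refine ⟨G.hi le_rfl P.mL u, (G.clk_hi P hI le_rfl hb P.mL).trans ?_,
    le_trans ?_ (G.clk_lo P hI le_rfl hb P.small), h1 n N L l m b ω u P hI G hNb hL hb, ?_⟩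
  · have a1 : y ^ 9 ≤ l ^ 7 := by
      refine le_of_pow_le_pow_left₀ (n := 4) (by norm_num) (by positivity) ?_
      calc _ = (y ^ 12) ^ 3 := by ring
        _ ≤ (8 * l ^ 9) ^ 3 := pow_le_pow_left₀ (by positivity) (hy1 ▸ P.e2) 3
        _ = 512 * l ^ 27 := by ring
        _ ≤ l * l ^ 27 := by gcongr; linarith
        _ = _ := by ring
    gcongr
    norm_num
  · have a1 : (l : ℝ) ^ 2 ≤ y ^ 4 := by
      refine le_of_pow_le_pow_left₀ (n := 3) (by norm_num) (by positivity) ?_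
      calc _ = (l : ℝ) ^ 6 := by ring
        _ ≤ l ^ 9 := pow_le_pow_right₀ l1 (by norm_num)
        _ ≤ y ^ 12 := hy1 ▸ P.e1
        _ = _ := by ring
    have a2 : 64 ≤ exp (-405) / 32 * y := by
      have b1 : exp (-405) * exp 500 = exp 5 ^ 19 := by rw [← exp_add, ← exp_nat_mul]; norm_num
      have b2 : (6 : ℝ) ^ 19 ≤ exp 5 ^ 19 := by gcongr; linarith [add_one_le_exp 5]
      nlinarith [mul_le_mul_of_nonneg_left hy (exp_pos (-405)).le]
    rw [← hy1]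
    calc _ = 64 / y / (64 * y ^ 4 * y ^ 12) := by field_simp
      _ ≤ _ := by
        gcongr ?_ / (64 * ?_ * _)
        rwa [div_le_iff₀ y0]
  intro ε₀ y₀ z0 z1 z2 z3 z4
  rcases le_or_gt (l * ε₀) (ep N m) with h | h
  · refine ⟨m, le_rfl, P.mL, (G.hi le_rfl P.mL u).trans ?_, fun x hx =>
      G.mem le_rfl P.mL hb (le_trans ?_ hx)⟩
    · have : 0 ≤ y₀ ^ 2 * ε₀ := by positivity
      exact mul_le_mul_of_nonneg_right (by linarith) n0.le
    · rw [div_le_div_iff₀ (by positivity) (by positivity), one_mul, ← mul_pow]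
      gcongr
  have a1 : l * ε₀ ≤ 1 := le_trans (by gcongr) P.small
  have a2 := (div_eq_iff N0.ne').1 (ep_eq (N := N) (ℓ := m) (by linarith [P.e20]))
  have a3 : l * ε₀ * N ≤ ⌈l * ε₀ * N⌉₊ := Nat.le_ceil _
  have a4 : ⌈l * ε₀ * N⌉₊ ≤ N := Nat.ceil_le.2 (by nlinarith)
  have a5 : (⌈l * ε₀ * N⌉₊ : ℝ) < l * ε₀ * N + 1 := Nat.ceil_lt_add_one (by positivity)
  have a6 : (1 : ℝ) ≤ ep N m * N := by
    have b1 : N < m := by
      have : (N : ℝ) < m := by nlinarith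
      exact_mod_cast this
    have b2 : (N : ℝ) + 1 ≤ m := by exact_mod_cast b1
    linarith
  have a7 : ep N m * N ≤ l * ε₀ * N := by gcongr
  have i1 : m ≤ N + ⌈l * ε₀ * N⌉₊ := by
    have : (m : ℝ) ≤ (N + ⌈l * ε₀ * N⌉₊ : ℕ) := by push_cast; linarith
    exact_mod_cast this
  have i2 : N + ⌈l * ε₀ * N⌉₊ ≤ L := by
    have b1 : 2 ≤ n := by
      have : (2 : ℝ) ≤ n := by linarith [P.n9]
      exact_mod_cast this
    rw [P.hL]
    nlinarith
  have e1 : ((N + ⌈l * ε₀ * N⌉₊ : ℕ) : ℝ) / N - 1 = ⌈l * ε₀ * N⌉₊ / N := by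
    push_cast; field_simp; ring
  have e2 : l * ε₀ ≤ ep N (N + ⌈l * ε₀ * N⌉₊) := by
    rw [ep, e1]
    exact le_min ((le_div_iff₀ N0).2 a3) a1
  have e3 : ep N (N + ⌈l * ε₀ * N⌉₊) ≤ 2 * (l * ε₀) := by
    rw [ep, e1]
    refine (min_le_left _ _).trans ((div_le_iff₀ N0).2 ?_)
    linarith
  have e4 : (l : ℝ) ≤ 2 * y₀ ^ 2 := by
    refine le_of_pow_le_pow_left₀ (n := 9) (by norm_num) (by positivity) ?_
    calc _ ≤ ep N m ^ 3 * n := P.e1
      _ ≤ (2 * y₀ ^ 2 * ε₀) ^ 3 * n := by gcongr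
      _ = 8 * y₀ ^ 6 * (ε₀ ^ 3 * n) := by ring
      _ = 8 * y₀ ^ 18 := by rw [← z2]; ring
      _ ≤ 512 * y₀ ^ 18 := by gcongr; norm_num
      _ = _ := by ring
  refine ⟨_, i1, i2, (G.hi i1 i2 u).trans ?_, fun x hx =>
    G.mem i1 i2 (Good.big_up P le_rfl hb i1) (le_trans ?_ hx)⟩
  · refine mul_le_mul_of_nonneg_right ?_ n0.le
    nlinarith [mul_le_mul_of_nonneg_right e4 z0.le]
  · have := P.e0 i1
    rw [div_le_div_iff₀ (by positivity) (by positivity), one_mul, ← mul_pow]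
    gcongr

end

end Pool.Agent.P.MP_5fda20_pr.O
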