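import Pool.Agent.P.MP_5fda20_pr.O.Defs

/-! The invariant, one scale down. -/

namespace Pool.Agent.P.MP_5fda20_pr.O

open Finset Real

namespace H3

variable {n L a a' i b : ℕ} {ω : Om n L} {u z : Fin n} {C : Finset (Fin n)} {κ : ℝ}

theorem root {s U : ℝ} (hU : 0 ≤ U) (h : s ^ 8 ≤ U ^ 9) :
    s ≤ U * U ^ (1 / 8 : ℝ) := by
  refine le_of_pow_le_pow_left₀ (n := 8) (by norm_num) (by positivity) (h.trans_eq ?_)
  rw [mul_pow, ← rpow_natCast (U ^ (1 / 8 : ℝ)), ← rpow_mul hU]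
  norm_num
  ring

theorem exp_big (k : ℕ) : (2 : ℝ) ^ k ≤ exp k := by
  rw [← mul_one (k : ℝ), exp_nat_mul]
  exact pow_le_pow_left₀ (by norm_num) (by linarith [add_one_le_exp (1 : ℝ)]) k

theorem small (g : ∀ z, ((reach (op ω a') (univ \ C) {z}).card : ℝ) < κ) (hi : i ≤ a')
    (hd : Disjoint C (cp ω i z)) : ((cp ω i z).card : ℝ) < κ := by
  refine lt_of_le_of_lt (Nat.cast_le.2 (card_le_card ?_)) (g z)
  rw [cp, ← reach_local (D := univ \ C) (subset_sdiff.2 ⟨subset_univ _, hd.symm⟩) sdiff_subset]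
  exact reach_op_mono hi Subset.rfl Subset.rfl

theorem step (hI : Function.Injective ω) (hκ : 0 ≤ κ)
    (g : ∀ z, ((reach (op ω a') (univ \ cp ω a u) {z}).card : ℝ) < κ) (h1 : a ≤ i) (h2 : i ≤ a') :
    (cs ω {u} (i + 1) : ℝ) - cs ω {u} i ≤ κ := by
  rcases cp_succ_cases hI i u with h | ⟨y, hy, h⟩
  · rwa [show cs ω {u} (i + 1) = cs ω {u} i from congrArg card h, sub_self]
  rw [show cs ω {u} (i + 1) = cs ω {u} i + (cp ω i y).card from
    (congrArg card h).trans (card_union_of_disjoint (cp_disjoint hy)), Nat.cast_add,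
    add_sub_cancel_left]
  exact (small g h2 ((cp_disjoint hy).mono_left (cp_mono h1))).le

theorem step0 (i : ℕ) : (0 : ℝ) ≤ (cs ω {u} (i + 1) : ℝ) - cs ω {u} i :=
  sub_nonneg.2 (by exact_mod_cast cs_mono i.le_succ)

theorem clk_up {c : ℕ → ℕ} {lo hi : ℝ} (h : a ≤ a') (hκ : 0 ≤ κ) (l0 : 0 < lo)
    (h0 : ∀ i, (0 : ℝ) ≤ (c (i + 1) : ℝ) - c i)
    (h1 : ∀ i, a ≤ i → i < a' → (c (i + 1) : ℝ) - c i ≤ κ) (h2 : ∀ i, a ≤ i → lo ≤ c i)
    (h3 : (c a' : ℝ) ≤ hi) : clk c a a' ≤ κ * hi / lo ^ 2 := by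
  calc _ ≤ ∑ i ∈ Ico a a', κ / lo ^ 2 * ((c (i + 1) : ℝ) - c i) := by
        refine sum_le_sum fun i hi => ?_
        obtain ⟨i1, i2⟩ := mem_Ico.1 hi
        rw [sg, div_pow, sq, div_mul_eq_mul_div]
        have := h0 i
        gcongr
        exacts [h1 i i1 i2, h2 i i1]
    _ = κ / lo ^ 2 * ((c a' : ℝ) - c a) := by
        rw [← mul_sum, sum_Ico_sub (fun i => (c i : ℝ)) h]
    _ ≤ κ / lo ^ 2 * hi := by
        gcongr
        linarith [Nat.cast_nonneg (α := ℝ) (c a)]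
    _ = _ := by ring

theorem clk_dn (hI : Function.Injective ω) {k ms hi : ℝ} (h : a ≤ b) (hk : 0 ≤ k)
    (g : ms ≤ ∑ z ∈ univ \ cp ω a u, ind (k ≤ (cp ω a z).card))
    (h1 : ((cp ω b u).card : ℝ) ≤ hi) (h2 : ∀ x, k ≤ (cp ω b x).card → x ∈ cp ω b u) :
    k * ms / hi ^ 2 ≤ clk (cs ω {u}) a b := by
  set B : ℕ → ℝ := fun i => k * ∑ y ∈ cp ω i u, ind (k ≤ (cp ω a y).card) with hB
  have h4 : k * ms ≤ B b - B a := by
    rw [hB, ← mul_sub, ← sum_sdiff_eq_sub (cp_mono h)]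
    refine mul_le_mul_of_nonneg_left (g.trans_eq
      (sum_subset (sdiff_subset_sdiff (subset_univ _) Subset.rfl) fun y hy hy' =>
        ind_of_not fun h5 => hy' (mem_sdiff.2 ⟨?_, (mem_sdiff.1 hy).2⟩)).symm) hk
    exact h2 y (h5.trans (by exact_mod_cast card_le_card (cp_mono h)))
  calc _ ≤ (B b - B a) / hi ^ 2 := by gcongr
    _ ≤ _ := by
        rw [← sum_Ico_sub B h, sum_div]
        refine sum_le_sum fun i hi => ?_
        obtain ⟨i3, i4⟩ := mem_Ico.1 hi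
        rw [sg, div_pow]
        refine div_le_div₀ (sq_nonneg _) (sq_step hI i u fun y hy =>
          hy.trans (by exact_mod_cast card_le_card (cp_mono i3)))
          (pow_pos (Nat.cast_pos.2 (card_pos.2 ⟨u, self_mem_cp⟩)) 2) (pow_le_pow_left₀
            (by positivity) (le_trans (by exact_mod_cast card_le_card (cp_mono i4.le)) h1) 2)

theorem scale {ε ε' y y' x : ℝ} (e0 : 0 < ε) (e2 : 10 / 9 * ε ≤ ε') (e3 : ε' ≤ 9 / 8 * ε)
    (x0 : 0 ≤ x) (y0 : 0 < y) (y0' : 0 < y') (h : y ^ 12 = ε ^ 3 * x) (h' : y' ^ 12 = ε' ^ 3 * x) :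
    100 / 81 * y ^ 9 ≤ y' ^ 9 ∧ y' ≤ 2 * y := by
  have e0' : 0 < ε' := by linarith
  have a1 : 10 / 9 * y ^ 4 ≤ y' ^ 4 := by
    refine le_of_pow_le_pow_left₀ (n := 3) (by norm_num) (by positivity) ?_
    calc _ = (10 / 9 * ε) ^ 3 * x := by rw [mul_pow, ← pow_mul, h]; ring
      _ ≤ ε' ^ 3 * x := by gcongr
      _ = _ := by rw [← h']; ring
  have a2 : y ≤ y' := le_of_pow_le_pow_left₀ (n := 4) (by norm_num) y0'.le
    (by linarith [pow_pos y0 4])
  constructor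
  · calc _ = (10 / 9 * y ^ 4) ^ 2 * y := by ring
      _ ≤ (y' ^ 4) ^ 2 * y' := by gcongr
      _ = _ := by ring
  · refine le_of_pow_le_pow_left₀ (n := 12) (by norm_num) (by positivity) ?_
    calc _ = ε' ^ 3 * x := h'
      _ ≤ (16 * ε) ^ 3 * x := by gcongr; linarith
      _ = _ := by rw [mul_pow 2, h]; ring

end H3

open H3 in
theorem p_h3 : S_h3 := by
  intro n L a a' ω ε ε' y y' R hI hy ey hy' ey' ⟨r, g1, g2, g3, g4⟩ inv u hu
  have e0 := R.e0
  have e1 := R.e1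
  have e2 := R.e2
  have e3 := R.e3
  have n0 : (0 : ℝ) < n := by linarith [R.n0]
  have y9 : (2 : ℝ) ^ 220 ≤ y := (exp_big 220).trans (le_trans (exp_le_exp.2 (by norm_num)) hy)
  have y1 : (1000 : ℝ) ≤ y := le_trans (by norm_num) y9
  have y0 : 0 < y := by linarith
  have y0' : 0 < y' := (exp_pos _).trans_le hy'
  have en : 0 < ε * n := by positivity
  have k0 : 0 ≤ y ^ 2 / ε ^ 2 := by positivity
  have k1 : y ^ 2 / ε ^ 2 / (ε * n) = 1 / y ^ 10 := by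
    rw [div_div, show ε ^ 2 * (ε * n) = y ^ 12 by rw [ey]; ring]; field_simp
  have k2 : y ^ 2 / ε ^ 2 ≤ ε * n := by
    rw [← div_le_one en, k1, div_le_one (by positivity)]
    exact one_le_pow₀ (by linarith)
  have out : ∀ x, x ∉ cp ω a r → ((cp ω a x).card : ℝ) < y ^ 2 / ε ^ 2 := fun x hx =>
    small g3 R.le (cp_disjoint hx)
  have uC : u ∈ cp ω a r := by
    by_contra hn
    linarith [out u hn]
  rw [← cp_eq uC] at g1 g2 g3 g4 out
  have mono : ∀ i, a ≤ i → ((cp ω a u).card : ℝ) ≤ cs ω {u} i := fun i hi =>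
    Nat.cast_le.2 (card_le_card (cp_mono hi))
  have c0 : (0 : ℝ) ≤ (cp ω a u).card := Nat.cast_nonneg _
  obtain ⟨i1, i2, i3, i4, i5⟩ := inv u (le_trans (by nlinarith) (mono a' R.le))
  obtain ⟨s1, s2⟩ := scale e0 e2 e3 n0.le y0 y0' ey ey'
  refine ⟨g2, ?_, ?_, fun i h1 h2 => ?_, fun ε₀ y₀ f0 f1 f2 f3 f4 => ?_⟩
  · have a1 := clk_up (c := cs ω {u}) (hi := 9 * (ε * n)) R.le k0 en step0
      (fun i h1 h2 => step hI k0 g3 h1 h2.le) (fun i hi => hu.trans (mono i hi))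
      (le_trans i1 (by nlinarith))
    have a2 : y ^ 2 / ε ^ 2 * (9 * (ε * n)) / (ε * n) ^ 2 = 9 / y / y ^ 9 := by
      rw [show 9 / y / y ^ 9 = 9 * (1 / y ^ 10) by field_simp, ← k1]; field_simp
    have a3 : 600 / y' ^ 9 ≤ 486 / y ^ 9 := by
      rw [div_le_div_iff₀ (by positivity) (by positivity)]; linarith
    have a4 : 9 / y / y ^ 9 ≤ 114 / y ^ 9 := by
      gcongr; rw [div_le_iff₀ y0]; linarith
    rw [clk_add R.le R.lt.le, show 600 / y ^ 9 = 114 / y ^ 9 + 486 / y ^ 9 by ring]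
    linarith
  · obtain ⟨b, b1, b2, b3, b4⟩ := i5 ε y e0 (by linarith) ey (by linarith)
      (by nlinarith [mul_le_mul_of_nonneg_right (one_le_pow₀ (n := 2) (show 1 ≤ y by linarith)) e0.le])
    have a1 := clk_dn hI (R.le.trans b1) (by positivity) g4 b3 b4
    rw [clk_add (R.le.trans b1) b2]
    refine le_add_of_le_of_nonneg (le_trans ?_ a1) clk_nonneg
    have a2 : (65536 : ℝ) ≤ exp (-405) * y := by
      calc (65536 : ℝ) ≤ 2 ^ 95 := by norm_num
        _ ≤ exp (95 : ℕ) := exp_big 95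
        _ = exp (-405) * exp 500 := by rw [← exp_add]; norm_num
        _ ≤ _ := by gcongr
    calc 1 / y ^ 17 = 65536 / (65536 * y ^ 5 * y ^ 12) := by field_simp
      _ ≤ exp (-405) * y / (65536 * y ^ 5 * y ^ 12) := by gcongr
      _ = _ := by rw [ey]; field_simp; norm_num
  · rcases le_or_gt a' i with h3 | h3
    · exact i4 i h3 h2
    have a1 := step hI k0 g3 h1 h3.le
    have a2 := hu.trans (mono i h1)
    refine ⟨cs_mono i.le_succ, ?_, ?_⟩
    · have : (cs ω {u} (i + 1) : ℝ) ≤ 2 * cs ω {u} i := by linarith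
      exact_mod_cast this
    have a3 : sg (cs ω {u}) i ≤ 1 / y ^ 10 := k1 ▸ div_le_div₀ k0 a1 en a2
    have a4 : 0 ≤ sg (cs ω {u}) i := div_nonneg (step0 i) (by positivity)
    have a5 : 1 / (2 * y) ^ 17 / 16 ≤ UU (WW n) (cs ω {u}) (i + 1) L := by
      unfold UU WW
      rw [clk_add h3 R.lt.le]
      have : 1 / (2 * y) ^ 17 ≤ 1 / y' ^ 17 := by gcongr
      have : 0 ≤ clk (cs ω {u}) (i + 1) a' := clk_nonneg
      have : (0 : ℝ) ≤ 10 ^ 6 / n ^ 2 := by positivity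
      linarith
    have a6 : 0 ≤ UU (WW n) (cs ω {u}) (i + 1) L := le_trans (by positivity) a5
    have a7 : 0 ≤ WW n := by unfold WW; positivity
    refine (root a6 ?_).trans (by
      gcongr; exact le_add_of_nonneg_right (by positivity))
    calc _ ≤ (5 * (1 / y ^ 10) ^ 2) ^ 8 := by gcongr
      _ = 5 ^ 8 * 2 ^ 189 / y ^ 7 * (1 / (2 * y) ^ 17 / 16) ^ 9 := by field_simp; norm_num
      _ ≤ 1 * (1 / (2 * y) ^ 17 / 16) ^ 9 := by
        gcongr
        rw [div_le_one (by positivity)]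
        exact le_trans (le_trans (by norm_num) y9) (le_self_pow₀ (by linarith) (by norm_num))
      _ ≤ _ := by rw [one_mul]; gcongr
  · rcases le_total (y₀ ^ 2 * ε₀) ε with h1 | h1
    · refine ⟨a, le_rfl, R.le.trans R.lt.le, g2.trans (by nlinarith), fun x hx => ?_⟩
      by_contra hn
      have a1 : y * ε₀ ≤ ε := by
        refine le_of_pow_le_pow_left₀ (n := 12) (by norm_num) e0.le ?_
        calc _ = ε ^ 3 * ε₀ ^ 9 * (ε₀ ^ 3 * n) := by rw [mul_pow, ey]; ring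
          _ = ε ^ 3 * (y₀ ^ 2 * ε₀) ^ 6 * ε₀ ^ 3 := by rw [← f2]; ring
          _ ≤ ε ^ 3 * ε ^ 6 * ε ^ 3 := by gcongr
          _ = _ := by ring
      have a2 : y ^ 2 / ε ^ 2 ≤ 1 / ε₀ ^ 2 := by
        rw [div_le_div_iff₀ (by positivity) (by positivity), ← mul_pow, one_mul]
        gcongr
      linarith [out x hn]
    · obtain ⟨b, b1, b2⟩ := i5 ε₀ y₀ f0 f1 f2 (by linarith) (by linarith)
      exact ⟨b, R.le.trans b1, b2⟩

end Pool.Agent.P.MP_5fda20_pr.O
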