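import Pool.Agent.P.MP_5fda20_pr.O.Defs

/-! The late event is likely. -/

namespace Pool.Agent.P.MP_5fda20_pr.O

open Finset Real

noncomputable section

variable {n L : ℕ}

theorem late_one [NeZero L] {b : ℕ} (hb : b ≤ L) (x : Fin n) :
    av (fun ω : Om n L => ind (Ge ω {x} {x}ᶜ b)) = qq L b ^ (n - 1) := by
  rw [av_ge hb disjoint_compl_right, card_compl, card_singleton, one_mul, Fintype.card_fin]

theorem late_two [NeZero L] {b : ℕ} (hb : b ≤ L) (x y : Fin n) :
    av (fun ω : Om n L => ind (Ge ω {x} {x}ᶜ b) * ind (Ge ω {y} {y}ᶜ b)) ≤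
      ind (x = y) * qq L b ^ (n - 1) + (qq L b ^ (n - 2)) ^ 2 := by
  by_cases h : x = y
  · subst h
    rw [ind_of rfl, one_mul, ← late_one hb x]
    exact le_add_of_le_of_nonneg
      (av_mono fun ω => mul_le_of_le_one_right (ind_nonneg _) (ind_le_one _)) (sq_nonneg _)
  · rw [ind_of_not h, zero_mul, zero_add, ← pow_mul, mul_comm]
    have := av_ge (n := n) hb (R := {x, y}) (W := {x, y}ᶜ) disjoint_compl_right
    rw [card_compl, card_pair h, Fintype.card_fin] at this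
    rw [← this]
    refine av_mono fun ω => ?_
    rw [← ind_and]
    refine ind_mono fun ⟨h1, h2⟩ a ha c hc => ?_
    simp only [mem_compl, mem_insert, mem_singleton, not_or] at ha hc
    rcases ha with rfl | rfl
    · exact h1 _ (mem_singleton_self _) c (by simpa using hc.1)
    · exact h2 _ (mem_singleton_self _) c (by simpa using hc.2)

theorem late_cheb [NeZero L] {b : ℕ} (hb : b ≤ L) (hp : (b : ℝ) / L ≤ 1 / 5) (hn : 2 ≤ n)
    {μ K : ℝ} (hμ : μ = n * qq L b ^ (n - 1)) (hK : K ≤ μ / 2) (h0 : 0 < μ) :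
    av (fun ω : Om n L => ind (¬ K ≤ ∑ x, ind (Ge ω {x} {x}ᶜ b))) ≤
      4 / μ + 12 * ((b : ℝ) / L) := by
  have e1 : av (fun ω : Om n L => ∑ x, ind (Ge ω {x} {x}ᶜ b)) = μ := by
    rw [av_sum, sum_congr rfl fun x _ => late_one hb x, sum_const, card_fin, nsmul_eq_mul, hμ]
  have e2 : av (fun ω : Om n L => (∑ x, ind (Ge ω {x} {x}ᶜ b)) ^ 2) ≤
      μ + (n * qq L b ^ (n - 2)) ^ 2 := by
    simp only [sq (∑ _, _), sum_mul_sum]
    rw [av_sum]
    calc _ ≤ ∑ _x : Fin n, (qq L b ^ (n - 1) + n * (qq L b ^ (n - 2)) ^ 2) := by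
          refine sum_le_sum fun x _ => ?_
          rw [av_sum]
          refine (sum_le_sum fun y _ => late_two hb x y).trans_eq ?_
          rw [sum_add_distrib, sum_ind_eq univ (mem_univ x) fun _ => qq L b ^ (n - 1), sum_const,
            card_fin, nsmul_eq_mul]
      _ = _ := by rw [sum_const, card_fin, nsmul_eq_mul, hμ]; ring
  have p0 : 0 ≤ (b : ℝ) / L := by positivity
  have e3 : (n * qq L b ^ (n - 2)) ^ 2 ≤ μ ^ 2 * (1 + 3 * ((b : ℝ) / L)) := by
    have h1 : μ = qq L b * (n * qq L b ^ (n - 2)) := by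
      rw [hμ, show n - 1 = n - 2 + 1 by omega, pow_succ]; ring
    have h2 : 1 ≤ qq L b ^ 2 * (1 + 3 * ((b : ℝ) / L)) := by
      unfold qq
      generalize (b : ℝ) / L = p at *
      nlinarith [mul_nonneg p0 (sub_nonneg.2 hp), pow_nonneg p0 3]
    rw [h1]
    nlinarith [mul_le_mul_of_nonneg_left h2 (sq_nonneg (n * qq L b ^ (n - 2)))]
  calc _ ≤ av (fun ω : Om n L => 4 / μ ^ 2 * ((∑ x, ind (Ge ω {x} {x}ᶜ b)) ^ 2 -
        2 * μ * (∑ x, ind (Ge ω {x} {x}ᶜ b)) + μ ^ 2)) := av_mono fun ω => by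
        generalize ∑ x, ind (Ge ω {x} {x}ᶜ b) = Z
        refine ind_le (mul_nonneg (by positivity) (by nlinarith [sq_nonneg (Z - μ)])) fun h => ?_
        rw [div_mul_eq_mul_div, le_div_iff₀ (by positivity)]
        have := not_le.1 h
        nlinarith
    _ ≤ 4 / μ ^ 2 * (μ + μ ^ 2 * (1 + 3 * ((b : ℝ) / L)) - 2 * μ * μ + μ ^ 2) := by
        rw [av_const_mul, av_add, av_sub, av_const, av_const_mul, e1]
        gcongr
        linarith
    _ = _ := by field_simp; ring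

theorem late_mid [NeZero L] {b i s : ℕ} (hbi : b ≤ i) (hi : i ≤ L) (u : Fin n) {t : ℝ}
    (ht : 10 ^ 5 ≤ t) (h1 : 299 / 1000 * t ≤ (n - 1) * ((b : ℝ) / L))
    (h2 : s * ((b : ℝ) / L) ≤ 1 / 10) (hs : 150 ≤ s) :
    av (fun ω : Om n L => ind ((cp ω i u).card = s)) ≤ exp (-(18 * t)) := by
  refine (av_card_eq hi (subset_univ {u}) (z := 1 / 2) (by norm_num) s).trans ?_
  rw [card_singleton, card_fin]
  have h3 := qq_pow_le_one hi s
  have h4 := pow_nonneg (qq_nonneg hi) s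
  have h5 := pow_le_exp (x := -((1 - qq L i ^ s) / 2)) (by linarith) (n - 1)
  rw [Nat.cast_pred u.pos] at h5
  have h6 : qq L i ^ s ≤ 1 - 10 / 11 * (s * ((b : ℝ) / L)) := by
    refine (pow_le_pow_left₀ (qq_nonneg hi) (qq_anti hbi) s).trans
      ((qq_pow_le_exp (hbi.trans hi) s).trans ?_)
    have y0 : 0 ≤ s * ((b : ℝ) / L) := by positivity
    generalize s * ((b : ℝ) / L) = y at *
    rw [exp_neg, inv_le_iff_one_le_mul₀ (exp_pos _)]
    refine le_trans ?_ (mul_le_mul_of_nonneg_left (add_one_le_exp y) (by linarith))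
    nlinarith
  have h7 : ((1 : ℝ) / 2) ^ 1 / (1 / 2) ^ s ≤ exp (s * 1) := by
    refine le_trans ?_ (pow_le_exp (x := 1) (by norm_num) s)
    rw [div_le_iff₀ (by positivity), ← mul_pow]
    norm_num
  have hn : (0 : ℝ) ≤ n - 1 := by
    have : (1 : ℝ) ≤ n := by exact_mod_cast u.pos
    linarith
  have s1 : (150 : ℝ) ≤ s := by exact_mod_cast hs
  calc _ ≤ exp (s * 1) * exp ((n - 1) * -((1 - qq L i ^ s) / 2)) :=
        mul_le_mul h7 (le_of_eq_of_le (by congr 1; ring) h5) (by positivity) (exp_pos _).le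
    _ ≤ _ := by
        rw [← exp_add]
        refine exp_le_exp.2 ?_
        have h8 := mul_le_mul_of_nonneg_left h6 hn
        have h9 := mul_le_mul_of_nonneg_left h1 (Nat.cast_nonneg (α := ℝ) s)
        nlinarith

theorem p_late : S_late := by
  intro n N L l m x P hl x0 hx
  have := P.ne
  have n0 := P.n0
  have N0 := P.N0
  have n9 := P.n9
  have l1 := P.l1
  obtain ⟨t, rfl⟩ : ∃ t : ℝ, x = exp (-(t / 3)) := ⟨-(3 * log x), by rw [show -(-(3 * log x) / 3) =
    log x by ring, exp_log x0]⟩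
  have hn : (n : ℝ) = exp t := by
    rw [← exp_nat_mul] at hx
    have : exp t * (exp ((3 : ℕ) * -(t / 3)) * n) = n := by
      rw [← mul_assoc, ← exp_add]; push_cast; ring_nf; simp
    rw [← this, hx, mul_one]
  have hlt : (l : ℝ) ≤ exp (t / 200) := by
    refine le_of_pow_le_pow_left₀ (n := 200) (by norm_num) (exp_pos _).le (hl.trans_eq ?_)
    rw [← exp_nat_mul, hn]; push_cast; ring_nf
  have ht : 10 ^ 5 ≤ t := by linarith [exp_le_exp.1 (P.l0.trans hlt)]
  have hx2 : exp (-(t / 3)) ^ 2 = exp (-(2 * t / 3)) := by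
    rw [← exp_nat_mul]; push_cast; ring_nf
  have htn : t ≤ exp (t / 3) := by
    nlinarith [quadratic_le_exp_of_nonneg (x := t / 3) (by linarith)]
  have N1 : (1 : ℝ) ≤ N := by exact_mod_cast Nat.cast_pos.1 N0
  have b1 : 3 / 10 * t * N ≤ (⌈3 / 10 * t * N⌉₊ : ℝ) := Nat.le_ceil _
  have b2 : (⌈3 / 10 * t * N⌉₊ : ℝ) < 3 / 10 * t * N + 1 := Nat.ceil_lt_add_one (by positivity)
  generalize ⌈3 / 10 * t * N⌉₊ = b at *
  have p1 : 3 / 10 * t ≤ (b : ℝ) / L * n := by rw [P.pn, le_div_iff₀ N0]; exact b1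
  have p2 : (b : ℝ) / L * n ≤ 3 / 10 * t + 1 := by rw [P.pn, div_le_iff₀ N0]; linarith
  have p0 : 0 ≤ (b : ℝ) / L := by positivity
  have p3 : (b : ℝ) / L ≤ exp (-(2 * t / 3)) := by
    refine le_of_mul_le_mul_right (p2.trans ?_) n0
    rw [hn, ← exp_add, show -(2 * t / 3) + t = t / 3 by ring]
    linarith
  have p4 : t * ((b : ℝ) / L) ≤ 1 := by
    refine (mul_le_mul htn p3 p0 (exp_pos _).le).trans ?_
    rw [← exp_add]; exact exp_le_one_iff.2 (by linarith)
  have p5 : (b : ℝ) / L ≤ 1 / 5 := by nlinarith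
  have hb : b ≤ L := by
    have L0 : (0 : ℝ) < L := Nat.cast_pos.2 (NeZero.pos L)
    have : (b : ℝ) ≤ L := (div_le_one L0).1 (by linarith)
    exact_mod_cast this
  have n2 : 2 ≤ n := by
    have : (2 : ℝ) ≤ n := by linarith
    exact_mod_cast this
  refine ⟨b, ?_, ?_⟩
  · have : (2 : ℝ) * N ≤ b := le_trans (by gcongr; linarith) b1
    exact_mod_cast this
  have hμ : exp (7 / 10 * t - 2) ≤ n * qq L b ^ (n - 1) := by
    refine le_trans ?_ (mul_le_mul_of_nonneg_left (exp_le_qq_pow (by linarith) _) n0.le)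
    rw [Nat.cast_pred (by omega)]
    nth_rewrite 1 [hn]
    rw [← exp_add]
    refine exp_le_exp.2 ?_
    generalize (b : ℝ) / L = p at *
    nlinarith [mul_le_mul_of_nonneg_left p2 p0, sq_nonneg p]
  have c1 := late_cheb hb p5 n2 (K := (l : ℝ) ^ 21) rfl (by
    have h1 : (l : ℝ) ^ 21 ≤ exp (t / 200) ^ 21 := by gcongr
    rw [← exp_nat_mul] at h1
    have h2 : exp ((21 : ℕ) * (t / 200)) * exp 1 ≤ exp (7 / 10 * t - 2) := by
      rw [← exp_add]; push_cast; exact exp_le_exp.2 (by linarith)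
    nlinarith [add_one_le_exp (1 : ℝ), exp_pos ((21 : ℕ) * (t / 200))]) ((exp_pos _).trans_le hμ)
  have c2 : 4 / (n * qq L b ^ (n - 1)) ≤ 4 * exp (-(2 * t / 3)) := by
    rw [exp_neg, ← div_eq_mul_inv]
    exact div_le_div_of_nonneg_left (by norm_num) (exp_pos _)
      (le_trans (exp_le_exp.2 (by linarith)) hμ)
  have c3 : av (fun ω : Om n L => ind (∃ i ∈ Icc b L, ∃ u ∈ univ,
      (cp ω i u).card ≤ l ^ 2 ∧ 150 < (cp ω i u).card)) ≤
      (Icc b L).card * ((univ : Finset (Fin n)).card * (n * exp (-(18 * t)))) :=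
    av_exists_le _ _ fun i hi => av_exists_le _ _ fun u _ =>
      av_size_le u (fun s => s ≤ l ^ 2 ∧ 150 < s) (exp_pos _).le fun s _ hs => by
        refine late_mid (mem_Icc.1 hi).1 (mem_Icc.1 hi).2 u ht (by rw [sub_mul, mul_comm (n : ℝ)]; linarith) ?_
          (Nat.le_of_lt hs.2)
        have h1 : ((s + 1 : ℕ) : ℝ) ≤ exp (t / 200) ^ 2 :=
          le_trans (by exact_mod_cast hs.1) (pow_le_pow_left₀ (by linarith) hlt 2)
        refine (mul_le_mul h1 p3 p0 (by positivity)).trans ?_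
        rw [← exp_nat_mul, ← exp_add]
        refine (exp_le_exp.2 (show _ ≤ -9 by push_cast; linarith)).trans ?_
        rw [exp_neg, one_div]
        exact inv_anti₀ (by norm_num) (by linarith [add_one_le_exp (9 : ℝ)])
  have c4 : ((Icc b L).card : ℝ) ≤ 2 * n ^ 10 := by
    have : (Icc b L).card ≤ L + 1 := by rw [Nat.card_Icc]; omega
    have h2 : ((Icc b L).card : ℝ) ≤ n * n ^ 9 + 1 := by
      rw [P.hL, P.hN] at this ⊢; exact_mod_cast this
    linarith [one_le_pow₀ (show (1 : ℝ) ≤ n by linarith) (n := 10)]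
  have c5 : (Icc b L).card * ((univ : Finset (Fin n)).card * (n * exp (-(18 * t)))) ≤
      2 * exp (-(2 * t / 3)) := by
    rw [card_fin]
    calc _ ≤ 2 * (n : ℝ) ^ 10 * (n * (n * exp (-(18 * t)))) := by gcongr
      _ = 2 * ((n : ℝ) ^ 12 * exp (-(18 * t))) := by ring
      _ ≤ _ := by
        rw [hn, ← exp_nat_mul, ← exp_add]
        exact mul_le_mul_of_nonneg_left (exp_le_exp.2 (by push_cast; linarith)) (by norm_num)
  refine le_trans (av_mono fun ω => ind_mono fun h => ?_) ((av_or_le _ _).trans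
    ((add_le_add c1 c3).trans ?_))
  · by_contra h1
    rw [not_or, not_not] at h1
    refine h ⟨h1.1, fun i h2 h3 u h4 => not_lt.1 fun h5 =>
      h1.2 ⟨i, mem_Icc.2 ⟨h2, h3⟩, u, mem_univ _, h4, h5⟩⟩
  · rw [hx2]
    linarith [exp_pos (-(2 * t / 3))]

end

end Pool.Agent.P.MP_5fda20_pr.O
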