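import Pool.Agent.P.MP_5fda20_pr.O.Defs

/-! The exponential moment of the components that are not large. -/

namespace Pool.Agent.P.MP_5fda20_pr.O

open Finset Real

noncomputable section

theorem mid_num {ε s w : ℝ} (e0 : 0 < ε) (e1 : ε ≤ 1 / 100) (s0 : 0 ≤ s) (s1 : s ≤ 5 / 4 * ε)
    (hw : w = ε / 10 * (1 - ε / 10) * (s + s ^ 2 / 2)) :
    (ε ^ 2 / 40 + ε / 10) * s ≤ (1 + ε - s) * (w - w ^ 2 / 2) := by
  have w0 : 0 ≤ w := by rw [hw]; exact mul_nonneg (mul_nonneg (by positivity) (by linarith)) (by positivity)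
  have w1 : w ≤ ε / 500 := by
    have h1 : s + s ^ 2 / 2 ≤ 1 / 50 := by nlinarith
    have h2 : (1 - ε / 10) * (s + s ^ 2 / 2) ≤ 1 / 50 := by
      nlinarith [mul_nonneg e0.le (show 0 ≤ s + s ^ 2 / 2 by positivity)]
    rw [hw, mul_assoc]; nlinarith
  have h1 : 1 + 37 / 100 * ε ≤ (1 + ε - s) * (1 + s / 2) := by
    nlinarith [mul_le_mul s1 s1 s0 (by positivity), mul_nonneg e0.le s0,
      mul_le_mul_of_nonneg_left e1 e0.le]
  have h2 : 1 - 11 / 100 * ε ≤ (1 - ε / 10) * (1 - w / 2) := by nlinarith [mul_nonneg e0.le w0]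
  have h3 : 1 + ε / 4 ≤ (1 + ε - s) * (1 + s / 2) * ((1 - ε / 10) * (1 - w / 2)) := by
    refine le_trans ?_ (mul_le_mul h1 h2 (by linarith) (by linarith))
    nlinarith [mul_le_mul_of_nonneg_left e1 e0.le]
  calc _ = ε / 10 * s * (1 + ε / 4) := by ring
    _ ≤ ε / 10 * s * ((1 + ε - s) * (1 + s / 2) * ((1 - ε / 10) * (1 - w / 2))) :=
      mul_le_mul_of_nonneg_left h3 (by positivity)
    _ = (1 + ε - s) * (ε / 10 * (1 - ε / 10) * (s + s ^ 2 / 2) * (1 - w / 2)) := by ring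
    _ = _ := by rw [← hw]; ring

theorem mid_pt {n L ℓ ℓ' : ℕ} [NeZero L] {ε ε' : ℝ} (h : Rung n L ℓ ℓ' ε ε') {T : ℕ} (hT : T ≤ n)
    (hs : T * (1 + ε) ≤ 5 / 4 * ε * n) :
    exp (ε ^ 2 / 40 * T) * (1 + ε / 10) ^ n ≤ (1 + ε / 10 / qq L ℓ ^ T) ^ (n - T) := by
  have e0 := h.e0
  have e1 := h.e1
  have n0 := h.n0
  have q0 : 0 < qq L ℓ := by rw [qq]; linarith [h.small]
  obtain ⟨k, hk⟩ := Nat.exists_eq_add_of_le hT
  obtain ⟨s, hs'⟩ : ∃ s : ℝ, s = T * ((ℓ : ℝ) / L) := ⟨_, rfl⟩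
  have s2 : s * n = T * (1 + ε) := by rw [hs', mul_assoc, h.p]
  have s0 : 0 ≤ s := by rw [hs']; positivity
  have s1 : s ≤ 5 / 4 * ε := le_of_mul_le_mul_right (s2.trans_le hs) (by linarith)
  obtain ⟨w, hw⟩ : ∃ w, w = ε / 10 * (1 - ε / 10) * (s + s ^ 2 / 2) := ⟨_, rfl⟩
  have w0 : 0 ≤ w := by rw [hw]; exact mul_nonneg (mul_nonneg (by positivity) (by linarith)) (by positivity)
  have h3 := mid_num e0 e1 s0 s1 hw
  have h4 : 1 + s + s ^ 2 / 2 ≤ 1 / qq L ℓ ^ T := by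
    refine (quadratic_le_exp_of_nonneg s0).trans ?_
    rw [one_div, le_inv_comm₀ (exp_pos _) (by positivity), ← exp_neg, hs']
    exact qq_pow_le_exp (h.le.trans h.lt.le) T
  have h5 : (n : ℝ) = T + k := by exact_mod_cast hk
  have h6 : ε ^ 2 / 40 * T + T * (ε / 10) ≤ k * (w - w ^ 2 / 2) := by
    refine le_of_mul_le_mul_right ?_ (show 0 < 1 + ε by linarith)
    have h7 : (k : ℝ) * (1 + ε) = n * (1 + ε - s) := by
      have : (k : ℝ) = n - T := by linarith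
      rw [this]; linear_combination s2
    calc _ = n * ((ε ^ 2 / 40 + ε / 10) * s) := by linear_combination (-(ε ^ 2 / 40 + ε / 10)) * s2
      _ ≤ n * ((1 + ε - s) * (w - w ^ 2 / 2)) := mul_le_mul_of_nonneg_left h3 (by linarith)
      _ = _ := by linear_combination (-(w - w ^ 2 / 2)) * h7
  rw [show n - T = k by omega]
  calc _ = exp (ε ^ 2 / 40 * T) * ((1 + ε / 10) ^ T * (1 + ε / 10) ^ k) := by rw [← pow_add, ← hk]
    _ ≤ exp (ε ^ 2 / 40 * T) * (exp (T * (ε / 10)) * (1 + ε / 10) ^ k) := by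
        gcongr; exact pow_le_exp (by positivity) T
    _ = (1 + ε / 10) ^ k * exp (ε ^ 2 / 40 * T + T * (ε / 10)) := by rw [exp_add]; ring
    _ ≤ (1 + ε / 10) ^ k * exp (k * (w - w ^ 2 / 2)) := by gcongr
    _ ≤ (1 + ε / 10) ^ k * (1 + w) ^ k := by gcongr; exact exp_le_pow (exp_le_one_add w0) k
    _ ≤ _ := by
        rw [← mul_pow, div_eq_mul_one_div (ε / 10)]
        refine pow_le_pow_left₀ (by positivity) (le_trans ?_ (add_le_add le_rfl
          (mul_le_mul_of_nonneg_left h4 (by positivity)))) k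
        have : 0 ≤ ε / 10 * (ε / 10) ^ 2 * (s + s ^ 2 / 2) := by positivity
        rw [hw]; linarith

theorem p_mid (ht : S_tail) : S_mid := by
  intro n L _ ℓ ℓ' ε ε' h
  have e0 := h.e0
  have e1 := h.e1
  have n0 := h.n0
  have q0 : 0 < qq L ℓ := by rw [qq]; linarith [h.small]
  have k0 : 0 < (1 + ε / 10) ^ n := by positivity
  refine le_trans ?_ (ht n L ℓ ℓ' ε ε' h).2.2
  simp only [NB]
  rw [av_sum, av_sum]
  refine sum_le_sum fun x _ => ?_
  have h1 := av_rf (Nat.zero_le ℓ) (h.le.trans_lt h.lt) ({x} : Finset (Fin n)) (ε / 10)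
  simp only [ind_of (ge_zero _ _ _), one_mul, qq_zero, one_pow] at h1
  have h2 : (1 + ε / 10) ^ (n - ({x} : Finset (Fin n)).card) ≤ (1 + ε / 10) ^ n :=
    pow_le_pow_right₀ (by linarith) (Nat.sub_le _ _)
  calc _ ≤ av (fun ω : Om n L => (1 + ε / 10 / qq L ℓ ^ (cp ω ℓ x).card) ^ (n - (cp ω ℓ x).card) *
        ((1 + ε / 10) ^ n)⁻¹ - 1 + ind (ε * n / 10 ≤ (cp ω ℓ x).card)) := by
        refine av_mono fun ω => ?_
        by_cases hs : ((cp ω ℓ x).card : ℝ) * (1 + ε) ≤ 5 / 4 * ε * n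
        · have h3 := mid_pt h ((card_le_univ (cp ω ℓ x)).trans_eq (Fintype.card_fin n)) hs
          rw [← le_mul_inv_iff₀ k0] at h3
          rw [ind_of hs, mul_one]
          linarith [ind_nonneg (ε * n / 10 ≤ (cp ω ℓ x).card)]
        · have h3 : ε * n / 10 ≤ (cp ω ℓ x).card := by
            nlinarith [Nat.cast_nonneg (α := ℝ) (cp ω ℓ x).card, mul_pos e0 (show (0 : ℝ) < n by linarith),
              not_le.1 hs]
          rw [ind_of_not hs, mul_zero, ind_of h3, sub_add_cancel]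
          positivity
    _ ≤ _ := by
        rw [av_add, av_sub, av_const, av_mul_const, add_le_iff_nonpos_left, sub_nonpos,
          ← div_eq_mul_inv, div_le_one k0]
        exact h1.trans h2

end

end Pool.Agent.P.MP_5fda20_pr.O
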