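import Pool.Agent.P.MP_5fda20_pr.O.Defs

/-! Outside a large set the graph is typical, and the typical event is likely. -/

namespace Pool.Agent.P.MP_5fda20_pr.O

open Finset Real

noncomputable section

theorem out_y {y : ℝ} (hy : exp 500 ≤ y) : (10 : ℝ) ^ 70 ≤ y := by
  have h1 : exp 500 = exp 5 ^ 100 := by rw [← exp_nat_mul]; norm_num
  have h2 : (6 : ℝ) ≤ exp 5 := by linarith [add_one_le_exp 5]
  calc (10 : ℝ) ^ 70 ≤ 6 ^ 100 := by norm_num
    _ ≤ exp 5 ^ 100 := by gcongr
    _ ≤ y := h1 ▸ hy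

theorem out_c {y : ℝ} (hy : exp 500 ≤ y) : 96 ≤ exp (-405) * y := by
  have h1 : exp (-405) * exp 500 = exp 95 := by rw [← exp_add]; norm_num
  calc (96 : ℝ) ≤ exp 95 := by linarith [add_one_le_exp 95]
    _ ≤ _ := by rw [← h1]; gcongr

theorem out_num1 {y t : ℝ} (hy : 1 ≤ y) (ht : 3 * y ^ 11 ≤ t) : exp (-t) ≤ 1 / (2 * y ^ 31) := by
  rw [exp_neg, one_div]
  refine inv_anti₀ (by positivity) ?_
  have h1 := Real.pow_div_factorial_le_exp (3 * y ^ 11) (by positivity) 4
  refine le_trans ?_ (h1.trans (exp_le_exp.2 ht))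
  have h2 : y ^ 31 ≤ y ^ 44 := pow_le_pow_right₀ hy (by norm_num)
  have h3 : (0 : ℝ) ≤ y ^ 44 := by positivity
  rw [le_div_iff₀ (by positivity)]
  norm_num [Nat.factorial]
  calc 2 * y ^ 31 * 24 ≤ 81 * y ^ 44 := by linarith
    _ = _ := by ring

theorem out_num2 {y : ℝ} (hy : 10 ^ 70 ≤ y) : y ^ 41 ≤ exp (y ^ 2 / 1536) - 1 := by
  have y1 : (1 : ℝ) ≤ y := le_trans (by norm_num) hy
  have h1 := Real.pow_div_factorial_le_exp (y ^ 2 / 1536) (by positivity) 22
  have h2 : (1 : ℝ) ≤ y ^ 41 := one_le_pow₀ y1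
  have h3 : y ^ 41 ≤ y ^ 42 := pow_le_pow_right₀ y1 (by norm_num)
  have h4 : 10 ^ 70 * 10 ^ 70 * y ^ 42 ≤ y ^ 44 := by
    rw [show y ^ 44 = y * y * y ^ 42 by ring]
    gcongr
  have h5 : (y ^ 2 / 1536) ^ 22 / ((22 : ℕ).factorial : ℝ) =
      y ^ 44 / (1536 ^ 22 * ((22 : ℕ).factorial : ℝ)) := by ring
  have h6 : 2 * y ^ 42 ≤ y ^ 44 / (1536 ^ 22 * ((22 : ℕ).factorial : ℝ)) := by
    rw [le_div_iff₀ (by positivity)]
    refine le_trans ?_ h4
    have h7 : (2 : ℝ) * (1536 ^ 22 * ((22 : ℕ).factorial : ℝ)) ≤ 10 ^ 70 * 10 ^ 70 := by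
      norm_num [Nat.factorial]
    calc _ = 2 * (1536 ^ 22 * ((22 : ℕ).factorial : ℝ)) * y ^ 42 := by ring
      _ ≤ _ := by gcongr
  linarith

theorem p_out : S_out := by
  intro n L _ ℓ ℓ' ε ε' y D h hy hy' hD hD'
  have y70 := out_y hy
  have y1 : (1 : ℝ) ≤ y := le_trans (by norm_num) y70
  have e0 := h.e0
  have e1 := h.e1
  have n0 := h.n0
  have hc : ((univ \ D).card : ℝ) = n - D.card := by
    rw [card_univ_sdiff, Fintype.card_fin, Nat.cast_sub (by simpa using card_le_univ D)]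
  have d0 : (0 : ℝ) ≤ D.card := Nat.cast_nonneg _
  refine (av_or_le _ _).trans (le_trans (add_le_add (b := 1 / (2 * y ^ 31))
    (d := 1 / (2 * y ^ 31)) ?_ ?_) (le_of_eq (by field_simp; norm_num)))
  · have hr : 6 / 5 * ε * n ≤ D.card := by
      have : 0 ≤ ε * n := by positivity
      nlinarith [mul_le_mul_of_nonneg_left e1 d0]
    have hU : (univ \ D).card * ((ℓ' : ℝ) / L) ≤ 1 - ε / 16 := by
      rw [hc, h.pe', ← mul_div_assoc, div_le_iff₀ (by linarith)]
      have : (n - D.card) * (1 + ε') ≤ (n - 6 / 5 * ε * n) * (1 + 9 / 8 * ε) :=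
        mul_le_mul (by linarith) (by linarith [h.e3]) (by linarith [h.e2]) (by nlinarith [h.e1])
      nlinarith [mul_nonneg (mul_nonneg e0.le e0.le) (show (0 : ℝ) ≤ n by linarith)]
    generalize univ \ D = U at *
    have k1 := out_num2 y70
    have k2 : 0 < exp (y ^ 2 / 1536) - 1 := lt_of_lt_of_le (by positivity) k1
    have nn : ∀ (ω : Om n L) (x : Fin n),
        0 ≤ exp ((ε / 16) ^ 2 / 2 * (reach (op ω ℓ') U {x}).card) - 1 := fun ω x =>
      sub_nonneg.2 (one_le_exp (by positivity))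
    calc _ ≤ av (fun ω : Om n L => 1 / (y ^ 2 / (3 * ε ^ 2) * (exp (y ^ 2 / 1536) - 1)) *
          ∑ x ∈ U, (exp ((ε / 16) ^ 2 / 2 * (reach (op ω ℓ') U {x}).card) - 1)) := by
          refine av_mono fun ω => ind_le (mul_nonneg (by positivity)
            (sum_nonneg fun x _ => nn ω x)) ?_
          rintro ⟨x, a⟩
          obtain ⟨w, hw⟩ : (reach (op ω ℓ') U {x}).Nonempty := card_pos.1
            (Nat.cast_pos.1 (lt_of_lt_of_le (by positivity) a))
          have hx : x ∈ U := reach_ind (P := fun _ => x ∈ U)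
            (fun c h1 h2 => by rwa [mem_singleton.1 h1] at h2) (fun _ _ _ _ h1 _ => h1) hw
          rw [one_div, ← div_eq_inv_mul, one_le_div₀ (by positivity)]
          refine le_trans ?_ (sum_le_sum_of_subset_of_nonneg
            (reach_sub (O := op ω ℓ') (Y := {x})) fun z _ _ => nn ω z)
          rw [sum_congr rfl fun z hz => by rw [reach_eq_of_mem hx hz], sum_const, nsmul_eq_mul]
          gcongr
          calc y ^ 2 / 1536 = (ε / 16) ^ 2 / 2 * (y ^ 2 / (3 * ε ^ 2)) := by field_simp; norm_num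
            _ ≤ _ := by gcongr
      _ ≤ 1 / (y ^ 2 / (3 * ε ^ 2) * (exp (y ^ 2 / 1536) - 1)) * (n * (ε / 16)) := by
          rw [av_const_mul, av_sum]
          refine mul_le_mul_of_nonneg_left ((sum_le_card_nsmul _ _ (ε / 16) fun z hz => ?_).trans
            ?_) (by positivity)
          · have := av_exp_sub (L := L) h.lt.le (singleton_subset_iff.2 hz) (by positivity) hU
            rw [card_singleton, pow_one] at this
            rw [av_sub, av_const]
            linarith
          · rw [nsmul_eq_mul]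
            exact mul_le_mul_of_nonneg_right (by linarith) (by positivity)
      _ ≤ 1 / (y ^ 2 / (3 * ε ^ 2) * y ^ 41) * (n * (ε / 16)) := by gcongr
      _ = 3 / 16 * (ε ^ 3 * n) / y ^ 43 := by field_simp
      _ = 3 / 8 * (1 / (2 * y ^ 31)) := by rw [← hy']; field_simp; norm_num
      _ ≤ _ := mul_le_of_le_one_left (by positivity) (by norm_num)
  · have h2 := av_exp_big (L := L) (h.le.trans h.lt.le) e0 (by linarith) h.p
      (le_trans (by norm_num) h.big) _ (sub_crit h.p e0 hD Subset.rfl)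
    rw [hc] at h2
    have c0 : 0 < exp (-405) := exp_pos _
    have c1 := out_c hy
    generalize exp (-405) = c at *
    calc _ ≤ av (fun ω : Om n L => exp (c / 32 * (ε ^ 3 * n)) *
          exp (-(ε ^ 2 * big ω ℓ (1 / ε ^ 2) (univ \ D)))) :=
          av_mono fun ω => ind_le (by positivity) fun a => by
            rw [← exp_add]
            exact one_le_exp (by nlinarith [mul_le_mul_of_nonneg_left a.le (sq_nonneg ε)])
      _ ≤ exp (c / 32 * (ε ^ 3 * n)) * _ :=
          (av_const_mul _ _).trans_le (mul_le_mul_of_nonneg_left h2 (exp_pos _).le)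
      _ ≤ exp (-(c / 32 * (ε ^ 3 * n))) := by
          rw [← exp_add]
          refine exp_le_exp.2 ?_
          have : 0 ≤ c * ε ^ 2 * (ε * n) := by positivity
          nlinarith [mul_le_mul_of_nonneg_left hD' (mul_nonneg c0.le (sq_nonneg ε))]
      _ ≤ _ := by
          refine out_num1 y1 ?_
          rw [← hy']
          calc 3 * y ^ 11 = 96 / 32 * y ^ 11 := by norm_num
            _ ≤ c * y / 32 * y ^ 11 := by gcongr
            _ = _ := by ring

theorem p_str (h1 : S_tail) (h2 : S_ex) (h3 : S_out) : S_str := by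
  intro n L _ ℓ ℓ' ℓ₀ ε ε' ε₀ y h hy hy' hl hp g1 g2
  have y70 := out_y hy
  have y1 : (1 : ℝ) ≤ y := le_trans (by norm_num) y70
  have e0 := h.e0
  have e1 := h.e1
  have n0 := h.n0
  have en : 0 < ε * n := by positivity
  obtain ⟨-, t2, t3⟩ := h1 n L ℓ ℓ' ε ε' h
  obtain ⟨x1, x2⟩ := h2 n L ℓ ℓ' ℓ₀ ε ε' ε₀ y h hy hy' hl hp g1 g2
  let E : Finset (Fin n) → Om n L → Prop := fun D ω =>
    (5 / 4 * ε * n ≤ D.card * (1 + ε) ∧ (D.card : ℝ) ≤ 7 * ε * n) ∧
      ((∃ z, y ^ 2 / (3 * ε ^ 2) ≤ (reach (op ω ℓ') (univ \ D) {z}).card) ∨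
        big ω ℓ (1 / ε ^ 2) (univ \ D) < exp (-405) / 32 * ε * n)
  have lo : ∀ D : Finset (Fin n), 5 / 4 * ε * n ≤ D.card * (1 + ε) → ε * n ≤ D.card := fun D hD => by
    nlinarith [mul_le_mul_of_nonneg_left e1 (Nat.cast_nonneg (α := ℝ) D.card)]
  have t4 : av (fun ω : Om n L => ind (∃ x, E (cp ω ℓ x) ω)) ≤ 8 / y ^ 31 := by
    calc _ ≤ av (fun ω : Om n L => 1 / (ε * n) * ∑ x, ind (E (cp ω ℓ x) ω)) := by
          refine av_mono fun ω => ind_le (mul_nonneg (by positivity)
            (sum_nonneg fun x _ => ind_nonneg _)) ?_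
          rintro ⟨x, a⟩
          rw [one_div, ← div_eq_inv_mul, one_le_div₀ en]
          refine le_trans ?_ (sum_le_sum_of_subset_of_nonneg (subset_univ (cp ω ℓ x))
            fun z _ _ => ind_nonneg _)
          rw [sum_congr rfl fun z hz => by rw [cp_eq hz, ind_of a], sum_const, nsmul_eq_mul, mul_one]
          exact lo _ a.1.1
      _ ≤ 1 / (ε * n) * (av (fun ω : Om n L => NB ω ℓ (ε * n / 10)) * (1 / y ^ 31)) := by
          rw [av_const_mul, av_sum]
          refine mul_le_mul_of_nonneg_left ?_ (by positivity)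
          unfold NB
          rw [av_sum, sum_mul]
          refine sum_le_sum fun x _ => ?_
          rw [← av_mul_const]
          refine peel (ℓ := ℓ) (L := L) (subset_univ {x}) (B := fun D ω => ind (E D ω))
            (b := fun D => ind (ε * n / 10 ≤ (D.card : ℝ)) * (1 / y ^ 31)) (fun D _ => ?_)
            fun D _ _ => ?_
          · exact ((Dep.const _ _).and ((Dep.ex fun z => (dep_reach ℓ' _ {z}).comp
              fun A => y ^ 2 / (3 * ε ^ 2) ≤ (A.card : ℝ)).comp₂ (dep_big _ _)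
              fun P t => P ∨ t < exp (-405) / 32 * ε * n)).ind
          · by_cases hD : 5 / 4 * ε * n ≤ D.card * (1 + ε) ∧ (D.card : ℝ) ≤ 7 * ε * n
            · rw [ind_of (by linarith [lo D hD.1]), one_mul]
              exact (av_mono fun ω => ind_mono fun a => a.2).trans
                (h3 n L ℓ ℓ' ε ε' y D h hy hy' hD.1 hD.2)
            · exact av_le fun ω => by
                rw [ind_of_not fun a => hD a.1]
                exact mul_nonneg (ind_nonneg _) (by positivity)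
      _ ≤ 1 / (ε * n) * (8 * ε * n * (1 / y ^ 31)) := by gcongr
      _ = _ := by field_simp
  have t5 : exp (-(ε ^ 3 * n)) ≤ 1 / y ^ 31 := by
    refine (out_num1 y1 ?_).trans (one_div_le_one_div_of_le (by positivity) ?_)
    · rw [← hy', pow_succ' y 11]
      gcongr
      exact le_trans (by norm_num) y70
    · have : (0 : ℝ) ≤ y ^ 31 := by positivity
      linarith
  calc _ ≤ av (fun ω : Om n L => ind ((∀ x, ((cp ω ℓ x).card : ℝ) < y ^ 2 / (3 * ε ^ 2)) ∨
        (∃ x, y ^ 2 / (3 * ε ^ 2) ≤ (cp ω ℓ x).card ∧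
          (cp ω ℓ x).card * (1 + ε) ≤ 5 / 4 * ε * n) ∨
        7 * ε * n ≤ NB ω ℓ (ε * n / 10) ∨ ∃ x, E (cp ω ℓ x) ω)) := by
        refine av_mono fun ω => ind_mono fun a => ?_
        by_contra b
        simp only [not_or, not_forall, not_lt, not_exists, not_and, not_le] at b
        obtain ⟨⟨x, b1⟩, b2, b3, b4⟩ := b
        have c1 := (b2 x b1).le
        have c2 : ((cp ω ℓ x).card : ℝ) ≤ 7 * ε * n := by
          refine le_trans ?_ b3.le
          refine le_trans ?_ (sum_le_sum_of_subset_of_nonneg (subset_univ (cp ω ℓ x))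
            fun z _ _ => ind_nonneg _)
          rw [sum_congr rfl fun z hz => by rw [cp_eq hz, ind_of (by linarith [lo _ c1])],
            sum_const, nsmul_eq_mul, mul_one]
        refine a ⟨x, c1, c2, fun z => not_le.1 fun c3 => b4 x ⟨⟨c1, c2⟩, Or.inl ⟨z, c3⟩⟩,
          not_lt.1 fun c3 => b4 x ⟨⟨c1, c2⟩, Or.inr (lt_of_eq_of_lt ?_ c3)⟩⟩
        exact sum_congr rfl fun z hz => by rw [cp, cp, reach_peel hz]
    _ ≤ 1 / y ^ 31 + (1 / y ^ 31 + (1 / y ^ 31 + 8 / y ^ 31)) :=
        (av_or_le _ _).trans (add_le_add x1 ((av_or_le _ _).trans (add_le_add x2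
          ((av_or_le _ _).trans (add_le_add (t2.trans t5) t4)))))
    _ = 11 / y * (1 / y ^ 30) := by field_simp; norm_num
    _ ≤ _ := mul_le_of_le_one_left (by positivity)
        ((div_le_one (by linarith)).2 (le_trans (by norm_num) y70))

end

end Pool.Agent.P.MP_5fda20_pr.O
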