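import Pool.Agent.P.MP_5fda20_pr.O.Defs

/-! The second moment of the truncated susceptibility. -/

namespace Pool.Agent.P.MP_5fda20_pr.O

open Finset Real

noncomputable section

namespace QQ

variable {n L : ℕ}

/-- The size of a set, if it is small. -/
def sm (k : ℝ) (D : Finset (Fin n)) : ℝ := ind ((D.card : ℝ) < k) * D.card

theorem sm_nonneg (k : ℝ) (D : Finset (Fin n)) : 0 ≤ sm k D :=
  mul_nonneg (ind_nonneg _) (Nat.cast_nonneg _)

theorem sm_le_min {k : ℝ} (hk : 0 ≤ k) (D : Finset (Fin n)) : sm k D ≤ min (D.card : ℝ) k :=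
  ind_mul_le (le_min (Nat.cast_nonneg _) hk) fun h => le_min le_rfl h.le

theorem min_le_sm (k K : ℝ) (D : Finset (Fin n)) :
    min (D.card : ℝ) K ≤ sm k D + K * ind (k ≤ D.card) := by
  unfold sm
  by_cases h : (D.card : ℝ) < k
  · rw [ind_of h, ind_of_not (not_le.2 h), one_mul, mul_zero, add_zero]
    exact min_le_left _ _
  · rw [ind_of_not h, ind_of (not_lt.1 h), zero_mul, mul_one, zero_add]
    exact min_le_right _ _

theorem sum_min_le (k K : ℝ) (ω : Om n L) (ℓ : ℕ) :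
    ∑ x, min ((cp ω ℓ x).card : ℝ) K ≤ ∑ x, sm k (cp ω ℓ x) + K * NB ω ℓ k := by
  rw [NB, mul_sum, ← sum_add_distrib]
  exact sum_le_sum fun x _ => min_le_sm k K _

/-- The truncated sum outside `D`. -/
def out (k : ℝ) (ℓ : ℕ) (D : Finset (Fin n)) (ω : Om n L) : ℝ :=
  ∑ z ∈ univ \ D, min ((reach (op ω ℓ) (univ \ D) {z}).card : ℝ) k

theorem out_le {k : ℝ} (hk : 0 ≤ k) (ℓ : ℕ) (D : Finset (Fin n)) (ω : Om n L) :
    out k ℓ D ω ≤ ∑ z, min ((cp ω ℓ z).card : ℝ) k := by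
  refine le_trans (sum_le_sum fun z _ => min_le_min_right _ (Nat.cast_le.2 (card_le_card
    (reach_op_mono le_rfl sdiff_subset Subset.rfl)))) ?_
  exact sum_le_sum_of_subset_of_nonneg sdiff_subset fun z _ _ => le_min (Nat.cast_nonneg _) hk

theorem split {k : ℝ} (hk : 0 ≤ k) (ℓ : ℕ) (ω : Om n L) (x : Fin n) :
    sm k (cp ω ℓ x) * ∑ z, sm k (cp ω ℓ z) ≤
      k ^ 2 * sm k (cp ω ℓ x) + sm k (cp ω ℓ x) * out k ℓ (cp ω ℓ x) ω := by
  by_cases h : ((cp ω ℓ x).card : ℝ) < k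
  · rw [mul_comm (k ^ 2), ← mul_add]
    refine mul_le_mul_of_nonneg_left ?_ (sm_nonneg _ _)
    rw [← sum_sdiff (subset_univ (cp ω ℓ x)), add_comm]
    refine add_le_add ?_ (sum_le_sum fun z hz => ?_)
    · refine (sum_le_card_nsmul _ _ k fun z _ => (sm_le_min hk _).trans (min_le_right _ _)).trans ?_
      rw [nsmul_eq_mul, sq]
      exact mul_le_mul_of_nonneg_right h.le hk
    · rw [show reach (op ω ℓ) (univ \ cp ω ℓ x) {z} = cp ω ℓ z from reach_peel hz]
      exact sm_le_min hk _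
  · simp [sm, ind_of_not h]

theorem second [NeZero L] {k M : ℝ} (hk : 0 ≤ k) (ℓ : ℕ)
    (hM : av (fun ω : Om n L => ∑ z, min ((cp ω ℓ z).card : ℝ) k) ≤ M) :
    av (fun ω : Om n L => (∑ z, sm k (cp ω ℓ z)) ^ 2) ≤
      (k ^ 2 + M) * av (fun ω : Om n L => ∑ z, sm k (cp ω ℓ z)) := by
  have h1 : ∀ x, av (fun ω : Om n L => sm k (cp ω ℓ x) * out k ℓ (cp ω ℓ x) ω) ≤
      av (fun ω : Om n L => sm k (cp ω ℓ x) * M) := fun x =>
    peel (B := fun D ω => sm k D * out k ℓ D ω) (b := fun D => sm k D * M) (subset_univ {x})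
      (fun D _ => (Dep.const _ _).mul (Dep.sum _ fun z _ =>
        (dep_reach ℓ (univ \ D) {z}).comp fun R => min (R.card : ℝ) k))
      fun D _ _ => by
        rw [av_const_mul]
        exact mul_le_mul_of_nonneg_left ((av_mono (out_le hk ℓ D)).trans hM) (sm_nonneg _ _)
  calc _ ≤ av (fun ω : Om n L => ∑ x, (k ^ 2 * sm k (cp ω ℓ x) +
        sm k (cp ω ℓ x) * out k ℓ (cp ω ℓ x) ω)) := av_mono fun ω => by
          rw [sq, sum_mul]
          exact sum_le_sum fun x _ => split hk ℓ ω x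
    _ ≤ _ := by
      rw [av_sum, av_sum, mul_sum]
      refine sum_le_sum fun x _ => ?_
      rw [av_add, av_const_mul, add_mul]
      refine add_le_add le_rfl ((h1 x).trans_eq ?_)
      rw [av_mul_const, mul_comm]

end QQ

open QQ in
theorem p_QQ (hT : S_tail) (hM : S_mid) : S_QQ := by
  intro n L _ ℓ ℓ' ε ε' h
  obtain ⟨t1, -, t3⟩ := hT n L ℓ ℓ' ε ε' h
  have e0 := h.e0
  have e1 := h.e1
  have en := h.en
  have hk : 0 ≤ ε * n / 10 := by positivity
  have a1 : av (fun ω : Om n L => NB ω ℓ (ε * n / 10) ^ 2) ≤ 50 * (ε * n) ^ 2 := by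
    have h1 := t1 fun _ => True
    simp only [ind_of trivial, mul_one, av_const] at h1
    have h2 : exp (-(ε ^ 3 * n)) ≤ 1 := exp_le_one_iff.2 (neg_nonpos.2 (by positivity))
    nlinarith [sq_nonneg (ε * n)]
  have a2 : ε ^ 2 / 40 * av (fun ω : Om n L => ∑ z, sm (ε * n / 10) (cp ω ℓ z)) ≤ 8 * ε * n := by
    refine le_trans ?_ (hM n L ℓ ℓ' ε ε' h)
    rw [← av_const_mul]
    refine av_mono fun ω => ?_
    rw [mul_sum]
    refine sum_le_sum fun x _ => ?_
    have h1 := add_one_le_exp (ε ^ 2 / 40 * (cp ω ℓ x).card)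
    have h2 : 0 ≤ ε ^ 2 / 40 * (cp ω ℓ x).card := by positivity
    rw [sm, mul_left_comm]
    refine ind_mul_le (mul_nonneg (by linarith) (ind_nonneg _)) fun h3 => ?_
    rw [ind_of (by nlinarith), mul_one]
    linarith
  have m0 : 0 ≤ av (fun ω : Om n L => ∑ z, sm (ε * n / 10) (cp ω ℓ z)) :=
    av_nonneg fun ω => sum_nonneg fun z _ => sm_nonneg _ _
  have a3 : av (fun ω : Om n L => ∑ z, sm (ε * n / 10) (cp ω ℓ z)) ≤ (ε * n) ^ 2 / 1000 := by
    have h1 := mul_le_mul_of_nonneg_left a2 (show 0 ≤ ε * n by positivity)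
    have h2 := mul_le_mul_of_nonneg_right h.big m0
    nlinarith [sq_nonneg (ε * n)]
  have a4 : av (fun ω : Om n L => ∑ z, min ((cp ω ℓ z).card : ℝ) (ε * n / 10)) ≤ (ε * n) ^ 2 := by
    refine (av_mono fun ω => sum_min_le (ε * n / 10) _ ω ℓ).trans ?_
    rw [av_add, av_const_mul]
    nlinarith [mul_le_mul_of_nonneg_left t3 hk, sq_nonneg (ε * n)]
  have a5 := (second hk ℓ a4).trans (mul_le_mul_of_nonneg_left a3 (by positivity))
  calc _ ≤ av (fun ω : Om n L => 2 * (∑ z, sm (ε * n / 10) (cp ω ℓ z)) ^ 2 +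
        128 * (ε * n) ^ 2 * NB ω ℓ (ε * n / 10) ^ 2) := av_mono fun ω => by
          have h1 := pow_le_pow_left₀ (sum_nonneg fun x _ => le_min (Nat.cast_nonneg _)
            (by positivity)) (sum_min_le (ε * n / 10) (8 * ε * n) ω ℓ) 2
          nlinarith [sq_nonneg (∑ z, sm (ε * n / 10) (cp ω ℓ z) - 8 * ε * n * NB ω ℓ (ε * n / 10))]
    _ ≤ _ := by
      rw [av_add, av_const_mul, av_const_mul]
      have h1 := mul_le_mul_of_nonneg_left a1 (show 0 ≤ 128 * (ε * n) ^ 2 by positivity)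
      nlinarith [sq_nonneg ((ε * n) ^ 2)]

end

end Pool.Agent.P.MP_5fda20_pr.O
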