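import Pool.Agent.P.MP_5fda20_pr.O.Defs

/-! Removing one edge. -/

namespace Pool.Agent.P.MP_5fda20_pr.O

open Finset Real

noncomputable section

variable {n L : ℕ}

theorem rm_self (ω : Om n L) (e : Sym2 (Fin n)) : (rm ω e e).val = L - 1 := by
  simp [rm]

theorem rm_of_ne (ω : Om n L) {e x : Sym2 (Fin n)} (h : x ≠ e) : rm ω e x = ω x := by
  simp [rm, h]

theorem rm_op {ω : Om n L} {e x : Sym2 (Fin n)} {i : ℕ} (h : op (rm ω e) i x) : op ω i x := by
  unfold op at h ⊢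
  by_cases c : x = e
  · rw [c, rm_self] at h
    have := (ω x).is_lt
    omega
  · rwa [rm_of_ne ω c] at h

theorem rm_op_of_ne {ω : Om n L} {e x : Sym2 (Fin n)} {i : ℕ} (h : op ω i x) (c : x ≠ e) :
    op (rm ω e) i x := by
  unfold op at h ⊢
  rwa [rm_of_ne ω c]

theorem p_rm1 : S_rm1 := by
  intro n L _ a e F ha F0 hF
  have L0 : (0 : ℝ) < L := Nat.cast_pos.2 (NeZero.pos L)
  have a2 : 2 * a ≤ L := by
    rw [div_le_iff₀ L0] at ha
    exact_mod_cast (show (2 * a : ℝ) ≤ L by linarith)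
  have a1 : a ≤ L := by omega
  have hd : Dep {e}ᶜ fun ω : Om n L => F (rm ω e) := fun ω ω' h => congrArg F (funext fun x => by
    by_cases c : x = e
    · exact Fin.ext (by rw [c, rm_self, rm_self])
    · rw [rm_of_ne ω c, rm_of_ne ω' c, h x c])
  have h1 := av_mul_of_dep (I := {e}) (f := fun ω : Om n L => ind (op ω a e))
    ((Dep.apply (Set.mem_singleton _)).comp fun t : Fin L => ind (t.val < a)) hd
    disjoint_compl_right
  have h2 := av_mul_of_dep (I := {e}) (f := fun ω : Om n L => ind (a ≤ (ω e).val))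
    ((Dep.apply (Set.mem_singleton _)).comp fun t : Fin L => ind (a ≤ t.val)) hd
    disjoint_compl_right
  have h3 : av (fun ω : Om n L => ind (a ≤ (ω e).val) * F (rm ω e)) ≤ av F :=
    av_mono fun ω => ind_mul_le (F0 ω) fun h => (hF _ _ fun i hi => funext fun x => propext
      ⟨rm_op, fun h' => rm_op_of_ne h' fun c => by
        rw [c] at h'
        exact absurd h' (not_lt.2 (hi.trans h))⟩).le
  have h4 : 0 ≤ av fun ω : Om n L => F (rm ω e) := av_nonneg fun ω => F0 _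
  rw [h2, av_ge_one a1, qq] at h3
  rw [h1, av_op a1, mul_comm 2, mul_assoc]
  exact mul_le_mul_of_nonneg_left (by nlinarith) (by positivity)

theorem p_rm2 : S_rm2 := by
  intro n L a ω u v R S _ ⟨i1, i2, i3, i4⟩ h1 h2
  have key : ∀ x ∈ R, (x ∈ S → x ∈ cp (rm ω s(u, v)) a u) ∧ (x ∉ S → x ∈ cp (rm ω s(u, v)) a v) :=
    fun x hx => h2.ind h1 (i1 i2)
      (P := fun x => (x ∈ S → x ∈ cp (rm ω s(u, v)) a u) ∧ (x ∉ S → x ∈ cp (rm ω s(u, v)) a v))
      ⟨fun _ => self_mem_cp, fun h => absurd i2 h⟩ ⟨fun h => absurd h i4, fun _ => self_mem_cp⟩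
      (fun x hx y hy h3 h4 h5 h6 => by
        rw [← h2.side h1 (i1 i2) hx hy h3 h5]
        exact ⟨fun h => cp_closed (h6.1 h) (rm_op_of_ne h4 h5),
          fun h => cp_closed (h6.2 h) (rm_op_of_ne h4 h5)⟩) hx
  exact ⟨fun x hx => (key x (i1 hx)).1 hx,
    fun x hx => (key x (mem_sdiff.1 hx).1).2 (mem_sdiff.1 hx).2⟩

theorem rm_reach (ω : Om n L) (u v z : Fin n) (i : ℕ) (U : Finset (Fin n)) :
    reach (op ω i) U {z} ⊆ reach (op (rm ω s(u, v)) i) U {z} ∪
      (reach (op (rm ω s(u, v)) i) U {u} ∪ reach (op (rm ω s(u, v)) i) U {v}) := fun x hx => by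
  refine reach_ind (P := fun x => x ∈ reach (op (rm ω s(u, v)) i) U {z} ∪
    (reach (op (rm ω s(u, v)) i) U {u} ∪ reach (op (rm ω s(u, v)) i) U {v}))
    (fun a ha hu => mem_union_left _ (mem_reach_of_mem ha hu)) (fun a _ b hb h1 h2 => ?_) hx
  simp only [mem_union] at h1 ⊢
  by_cases c : s(a, b) = s(u, v)
  · rcases Sym2.eq_iff.1 c with ⟨-, rfl⟩ | ⟨-, rfl⟩
    · exact Or.inr (Or.inr (self_mem_reach hb))
    · exact Or.inr (Or.inl (self_mem_reach hb))
  · have := rm_op_of_ne h2 c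
    exact h1.imp (fun h => reach_closed h hb this)
      (Or.imp (fun h => reach_closed h hb this) fun h => reach_closed h hb this)

theorem p_rm3 : S_rm3 := by
  intro n L ℓ ℓ' ω e ε ε' y H y0 y1 ⟨r, g1, g2, g3, g4⟩
  induction e using Sym2.ind with
  | _ u v =>
  have e0 := H.e0
  have sub : ∀ z, cp (rm ω s(u, v)) ℓ z ⊆ cp ω ℓ z := fun z =>
    reach_mono (fun _ _ _ _ h => rm_op h) Subset.rfl Subset.rfl
  have cle : ∀ z, ((cp (rm ω s(u, v)) ℓ z).card : ℝ) ≤ (cp ω ℓ z).card := fun z =>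
    Nat.cast_le.2 (card_le_card (sub z))
  have one : ∀ t, ((cp (rm ω s(u, v)) ℓ t \ cp (rm ω s(u, v)) ℓ r).card : ℝ) ≤
      y ^ 2 / (3 * ε ^ 2) := fun t => by
    by_cases c : t ∈ cp (rm ω s(u, v)) ℓ r
    · rw [cp_eq c, sdiff_self]
      simp only [bot_eq_empty, card_empty, Nat.cast_zero]
      positivity
    · refine le_trans (Nat.cast_le.2 (card_le_card (sdiff_subset.trans ?_))) (g3 t).le
      exact (reach_peel (mem_sdiff.2 ⟨mem_univ t, c⟩)).symm.subset.trans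
        (reach_op_mono H.le Subset.rfl Subset.rfl)
  have two : ((cp ω ℓ r \ cp (rm ω s(u, v)) ℓ r).card : ℝ) ≤ 2 * (y ^ 2 / (3 * ε ^ 2)) := by
    have : cp ω ℓ r \ cp (rm ω s(u, v)) ℓ r ⊆ (cp (rm ω s(u, v)) ℓ u \ cp (rm ω s(u, v)) ℓ r) ∪
        (cp (rm ω s(u, v)) ℓ v \ cp (rm ω s(u, v)) ℓ r) := fun x hx => by
      obtain ⟨h1, h2⟩ := mem_sdiff.1 hx
      rcases mem_union.1 (rm_reach ω u v r ℓ univ h1) with h | h
      · exact absurd h h2
      · exact mem_union.2 ((mem_union.1 h).imp (fun h => mem_sdiff.2 ⟨h, h2⟩)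
          fun h => mem_sdiff.2 ⟨h, h2⟩)
    have h1 := (Nat.cast_le (α := ℝ)).2 ((card_le_card this).trans (card_union_le _ _))
    rw [Nat.cast_add] at h1
    linarith [one u, one v]
  have c0 : 0 < exp (-405) := exp_pos _
  have c1 : exp (-405) ≤ 1 := exp_le_one_iff.2 (by norm_num)
  have y2 : 1 ≤ y := le_trans (one_le_exp (by norm_num)) y0
  have num : 2 * (y ^ 2 / (3 * ε ^ 2)) ≤ exp (-405) / 64 * ε * n := by
    have h1 : 96 ≤ exp (-405) * y := by
      refine le_trans ?_ (mul_le_mul_of_nonneg_left y0 c0.le)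
      rw [← exp_add]
      linarith [add_one_le_exp (-405 + 500 : ℝ)]
    have h2 : y ^ 3 ≤ ε ^ 3 * n := y1 ▸ pow_le_pow_right₀ y2 (by norm_num)
    have h3 := mul_le_mul_of_nonneg_left h2 c0.le
    have h4 := mul_le_mul_of_nonneg_right h1 (sq_nonneg y)
    rw [← mul_div_assoc, div_le_iff₀ (by positivity)]
    nlinarith [sq_nonneg y]
  have en : 0 ≤ ε * n := by positivity
  refine ⟨r, g1.trans (mul_le_mul_of_nonneg_right (cle r) (by linarith)), ?_, fun z => ?_, ?_⟩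
  · have h1 := card_sdiff_add_card_eq_card (sub r)
    rw [← h1, Nat.cast_add]
    nlinarith
  · have h1 := (Nat.cast_le (α := ℝ)).2 ((card_le_card (rm_reach ω u v z ℓ' (univ \ cp ω ℓ r))).trans
      ((card_union_le _ _).trans (Nat.add_le_add_left (card_union_le _ _) _)))
    have h2 : ∀ t, ((reach (op (rm ω s(u, v)) ℓ') (univ \ cp ω ℓ r) {t}).card : ℝ) <
        y ^ 2 / (3 * ε ^ 2) := fun t => lt_of_le_of_lt (Nat.cast_le.2 (card_le_card
      (reach_op_mono le_rfl (sdiff_subset_sdiff Subset.rfl (sub r)) Subset.rfl))) (g3 t)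
    rw [Nat.cast_add, Nat.cast_add] at h1
    have h3 : y ^ 2 / ε ^ 2 = 3 * (y ^ 2 / (3 * ε ^ 2)) := by field_simp
    linarith [h2 z, h2 u, h2 v]
  · have h1 : univ \ cp (rm ω s(u, v)) ℓ r =
        (univ \ cp ω ℓ r) ∪ (cp ω ℓ r \ cp (rm ω s(u, v)) ℓ r) :=
      (sdiff_union_sdiff_cancel (subset_univ _) (sub r)).symm
    rw [h1, sum_union (disjoint_of_subset_right sdiff_subset sdiff_disjoint)] at g4
    have h2 : ∑ z ∈ univ \ cp ω ℓ r, ind (1 / ε ^ 2 ≤ (cp (rm ω s(u, v)) ℓ z).card) ≤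
        ∑ z ∈ univ \ cp ω ℓ r, ind (1 / ε ^ 2 ≤ (cp ω ℓ z).card) :=
      sum_le_sum fun z _ => ind_mono fun h => h.trans (cle z)
    have h3 := sum_le_card_nsmul (cp ω ℓ r \ cp (rm ω s(u, v)) ℓ r)
      (fun z => ind (1 / ε ^ 2 ≤ (cp (rm ω s(u, v)) ℓ z).card)) 1 fun _ _ => ind_le_one _
    rw [nsmul_eq_mul, mul_one] at h3
    linarith

end

end Pool.Agent.P.MP_5fda20_pr.O
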