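import Pool.Agent.P.MP_5fda20_pr.O.Defs

/-! The mass of the large components. -/

namespace Pool.Agent.P.MP_5fda20_pr.O

open Finset Real

noncomputable section

/-- The exponent. -/
def tailPs (ε n t : ℝ) : ℝ := -(3 / 2) * ε ^ 2 * t + ε * t ^ 2 / (2 * n)

theorem tail_comm {α β : Type} [Fintype α] [Fintype β] (F : α → β → ℝ) :
    av (fun a => av fun b => F a b) = av fun b => av fun a => F a b := by
  simp only [av, ← sum_div]
  rw [sum_comm, div_right_comm]

variable {n L ℓ ℓ' : ℕ} {ε ε' : ℝ}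

theorem tail_one [NeZero L] (h : Rung n L ℓ ℓ' ε ε') (Y : Finset (Fin n)) :
    av (fun ω : Om n L => exp (tailPs ε n (reach (op ω ℓ) univ Y).card)) ≤ (1 + ε) ^ Y.card := by
  have hl : ℓ ≤ L := h.le.trans h.lt.le
  have h0 := h.e0
  have hn : (0 : ℝ) < n := by linarith [h.n0]
  have := expl hl (fun t => exp (tailPs ε n t)) (fun t j _ => exp (tailPs ε n t) * (1 + ε) ^ j)
    n (fun t m _ => by simp) (fun t j m _ hm => ?_) univ Y 0 (subset_univ _) (by simp)
  · simpa [tailPs] using this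
  have h1 := bin_pow (1 - qq L ℓ ^ j) (qq L ℓ ^ j) (exp (tailPs ε n (t + j : ℕ))) (1 + ε) 1 m
  simp only [one_pow, mul_one] at h1
  rw [h1]
  have h2 := qq_pow_le_one hl j
  have h3 := pow_le_exp (x := (1 - qq L ℓ ^ j) * ε) (by nlinarith) m
  have h4 := exp_le_pow (exp_le_one_add h0.le) j
  have h5 := one_sub_qq_pow_le hl j
  have hm' : (m : ℝ) = n - t - j := by rw [← hm]; push_cast; ring
  have h7 : (m : ℝ) * ((1 - qq L ℓ ^ j) * ε) ≤ j * ε * (1 + ε) * (1 - (t + j) / n) :=
    calc _ ≤ (m : ℝ) * (j * ((ℓ : ℝ) / L) * ε) := by gcongr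
      _ = _ := by rw [h.pe, hm']; field_simp; ring
  have h8 : tailPs ε n (t + j : ℕ) + j * ε * (1 + ε) * (1 - (t + j) / n) ≤
      tailPs ε n t + j * (ε - ε ^ 2 / 2) := by
    have e : tailPs ε n t + j * (ε - ε ^ 2 / 2) -
        (tailPs ε n (t + j : ℕ) + j * ε * (1 + ε) * (1 - (t + j) / n)) =
        (ε * j ^ 2 / 2 + j * ε ^ 2 * (t + j)) / n := by
      unfold tailPs; push_cast; field_simp; ring
    have : 0 ≤ (ε * j ^ 2 / 2 + j * ε ^ 2 * (t + j)) / (n : ℝ) := by positivity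
    linarith
  calc _ = exp (tailPs ε n (t + j : ℕ)) * (1 + (1 - qq L ℓ ^ j) * ε) ^ m := by congr 2; ring
    _ ≤ exp (tailPs ε n (t + j : ℕ)) * exp (m * ((1 - qq L ℓ ^ j) * ε)) := by gcongr
    _ ≤ exp (tailPs ε n t) * exp (j * (ε - ε ^ 2 / 2)) := by
        rw [← exp_add, ← exp_add]; exact exp_le_exp.2 (by linarith)
    _ ≤ _ := by gcongr

theorem tail_miss (hn : 0 < n) (C : Finset (Fin n)) (k : ℕ) :
    av (fun f : Fin k → Fin n => ∏ i, ind (f i ∉ C)) = (1 - (C.card : ℝ) / n) ^ k := by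
  have : Nonempty (Fin n) := ⟨⟨0, hn⟩⟩
  have h1 : av (fun y : Fin n => ind (y ∉ C)) = 1 - (C.card : ℝ) / n := by
    simp only [ind_not]
    rw [av_sub, av_const, av, sum_ind_eq_card, filter_mem_eq_inter, univ_inter, Fintype.card_fin]
  rw [av_prod_of_dep univ (fun i => {i}) (f := fun i (f : Fin k → Fin n) => ind (f i ∉ C))
    (fun i _ => (Dep.apply (Set.mem_singleton i)).comp fun y : Fin n => ind (y ∉ C))
    (fun _ _ _ _ h => by simpa using h),
    prod_congr rfl fun i _ => (av_apply i fun y : Fin n => ind (y ∉ C)).trans h1, prod_const,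
    card_fin]

theorem tail_two (hn : 0 < n) (ω : Om n L) {k : ℕ} (hk : 30 ≤ k * ε) :
    9 / 10 * NB ω ℓ (ε * n / 10) ≤
      av fun f : Fin k → Fin n => ((reach (op ω ℓ) univ (image f univ)).card : ℝ) := by
  have : Nonempty (Fin n) := ⟨⟨0, hn⟩⟩
  have hn' : (0 : ℝ) < n := Nat.cast_pos.2 hn
  calc _ ≤ ∑ x, ind (ε * n / 10 ≤ (cp ω ℓ x).card) * (1 - (1 - ((cp ω ℓ x).card : ℝ) / n) ^ k) := by
        rw [NB, mul_sum]
        refine sum_le_sum fun x _ => ?_
        rw [mul_comm]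
        refine ind_mul_mono fun hx => ?_
        have h1 : ((cp ω ℓ x).card : ℝ) / n ≤ 1 := by
          rw [div_le_one hn']; exact_mod_cast (card_le_univ _).trans_eq (Fintype.card_fin n)
        have h2 : ε / 10 ≤ ((cp ω ℓ x).card : ℝ) / n := by rw [le_div_iff₀ hn']; linarith
        have h3 := pow_le_exp (x := -(((cp ω ℓ x).card : ℝ) / n)) (by linarith) k
        have h4 : exp (k * -(((cp ω ℓ x).card : ℝ) / n)) ≤ exp (-3) :=
          exp_le_exp.2 (by nlinarith [mul_le_mul_of_nonneg_left h2 (Nat.cast_nonneg (α := ℝ) k)])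
        have h5 : exp (-3 : ℝ) ≤ 1 / 10 := by
          have := Real.sum_le_exp_of_nonneg (x := 3) (by norm_num) 4
          simp only [sum_range_succ, sum_range_zero, Nat.factorial] at this
          rw [exp_neg, inv_le_comm₀ (exp_pos _) (by norm_num)]
          norm_num at this ⊢
          linarith
        rw [← sub_eq_add_neg] at h3
        linarith
    _ = av (fun f : Fin k → Fin n => ∑ x, ind (ε * n / 10 ≤ (cp ω ℓ x).card) *
          (1 - ∏ i, ind (f i ∉ cp ω ℓ x))) := by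
        rw [av_sum]
        exact sum_congr rfl fun x _ => by rw [av_const_mul, av_sub, av_const, tail_miss hn]
    _ ≤ _ := av_mono fun f => by
        have e : ((reach (op ω ℓ) univ (image f univ)).card : ℝ) =
            ∑ x, ind (x ∈ reach (op ω ℓ) univ (image f univ)) := by
          rw [sum_ind_eq_card, filter_mem_eq_inter, univ_inter]
        rw [e]
        refine sum_le_sum fun x _ => ind_mul_le (ind_nonneg _) fun _ => ?_
        by_cases hx : x ∈ reach (op ω ℓ) univ (image f univ)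
        · rw [ind_of hx]
          exact sub_le_self _ (prod_nonneg fun _ _ => ind_nonneg _)
        · rw [ind_of_not hx, prod_eq_one fun i _ => ind_of fun hi => hx (reach_mono
            (fun _ _ _ _ h => h) Subset.rfl
            (singleton_subset_iff.2 (mem_image_of_mem f (mem_univ i))) (cp_symm hi)), sub_self]

theorem tail_three (h : Rung n L ℓ ℓ' ε ε') (ω : Om n L) {k : ℕ} (hk : 30 ≤ k * ε) :
    ind (7 * ε * n ≤ NB ω ℓ (ε * n / 10)) * NB ω ℓ (ε * n / 10) ^ 2 ≤
      (ε * n) ^ 2 * exp (7 - 10 * (ε ^ 3 * n)) * av fun f : Fin k → Fin n =>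
        exp (tailPs ε n (reach (op ω ℓ) univ (image f univ)).card) := by
  have h0 := h.e0
  have hn : (0 : ℝ) < n := by linarith [h.n0]
  have hn' : 0 < n := Nat.cast_pos.1 hn
  have : Nonempty (Fin n) := ⟨⟨0, hn'⟩⟩
  refine ind_mul_le (mul_nonneg (by positivity) (av_nonneg fun _ => (exp_pos _).le)) fun hN => ?_
  have h2 := tail_two (ℓ := ℓ) hn' ω hk
  obtain ⟨s, hs⟩ : ∃ s, NB ω ℓ (ε * n / 10) = s * (ε * n) :=
    ⟨_, (div_mul_cancel₀ _ (by positivity)).symm⟩
  rw [hs] at hN h2 ⊢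
  have s7 : 7 ≤ s := le_of_mul_le_mul_right (by linarith) (by positivity : 0 < ε * n)
  have hd : 0 ≤ ε ^ 2 * (9 / 10 * s - 3 / 2) := mul_nonneg (sq_nonneg _) (by linarith)
  have h3 : ∀ T : ℝ, exp (tailPs ε n (9 / 10 * (s * (ε * n)))) *
      (1 + ε ^ 2 * (9 / 10 * s - 3 / 2) * (T - 9 / 10 * (s * (ε * n)))) ≤
      exp (tailPs ε n T) := fun T => by
    have e : tailPs ε n T = tailPs ε n (9 / 10 * (s * (ε * n))) +
        (ε ^ 2 * (9 / 10 * s - 3 / 2) * (T - 9 / 10 * (s * (ε * n))) +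
          ε * (T - 9 / 10 * (s * (ε * n))) ^ 2 / (2 * n)) := by
      unfold tailPs; field_simp; ring
    have : 0 ≤ ε * (T - 9 / 10 * (s * (ε * n))) ^ 2 / (2 * n) := by positivity
    rw [e, exp_add]
    exact mul_le_mul_of_nonneg_left (le_trans (by linarith) (add_one_le_exp _)) (exp_pos _).le
  have h4 : exp (tailPs ε n (9 / 10 * (s * (ε * n)))) ≤ av fun f : Fin k → Fin n =>
      exp (tailPs ε n (reach (op ω ℓ) univ (image f univ)).card) := by
    refine le_trans ?_ (av_mono fun f => h3 _)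
    rw [av_const_mul, av_add, av_const, av_const_mul, av_sub, av_const]
    exact le_mul_of_one_le_right (exp_pos _).le
      (le_add_of_nonneg_right (mul_nonneg hd (sub_nonneg.2 h2)))
  have h5 : s ^ 2 ≤ exp s := by
    have := Real.pow_div_factorial_le_exp s (by linarith) 3
    simp only [Nat.factorial] at this
    norm_num at this
    nlinarith [sq_nonneg s]
  have h6 : s ≤ 7 - 10 * (ε ^ 3 * n) + tailPs ε n (9 / 10 * (s * (ε * n))) := by
    have e : tailPs ε n (9 / 10 * (s * (ε * n))) =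
        ε ^ 3 * n * (s * (81 / 200 * s - 27 / 20)) := by
      unfold tailPs; field_simp; ring
    have hX := h.big
    rw [e]
    generalize ε ^ 3 * n = X at hX
    have a1 : 10 + (s - 7) ≤ s * (81 / 200 * s - 27 / 20) := by nlinarith
    nlinarith [mul_le_mul_of_nonneg_left a1 (by linarith : 0 ≤ X),
      mul_le_mul_of_nonneg_right (by linarith : 1 ≤ X) (by linarith : 0 ≤ s - 7)]
  calc _ = (ε * n) ^ 2 * s ^ 2 := by ring
    _ ≤ (ε * n) ^ 2 * (exp (7 - 10 * (ε ^ 3 * n)) * exp (tailPs ε n (9 / 10 * (s * (ε * n))))) := by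
        rw [← exp_add]
        exact mul_le_mul_of_nonneg_left (h5.trans (exp_le_exp.2 h6)) (sq_nonneg _)
    _ ≤ _ := by rw [mul_assoc]; gcongr

theorem tail_four [NeZero L] (h : Rung n L ℓ ℓ' ε ε') :
    av (fun ω : Om n L => ind (7 * ε * n ≤ NB ω ℓ (ε * n / 10)) * NB ω ℓ (ε * n / 10) ^ 2) ≤
      (ε * n) ^ 2 * exp (-(ε ^ 3 * n)) := by
  have h0 := h.e0
  have hn : (0 : ℝ) < n := by linarith [h.n0]
  have : Nonempty (Fin n) := ⟨⟨0, Nat.cast_pos.1 hn⟩⟩
  have k1 : 30 ≤ (⌈30 / ε⌉₊ : ℝ) * ε := (div_le_iff₀ h0).1 (Nat.le_ceil _)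
  have k2 : (⌈30 / ε⌉₊ : ℝ) * ε ≤ 31 := by
    have := mul_le_mul_of_nonneg_right (Nat.ceil_lt_add_one (by positivity : 0 ≤ 30 / ε)).le h0.le
    rw [add_mul, div_mul_cancel₀ _ h0.ne'] at this
    linarith [h.e1]
  generalize ⌈30 / ε⌉₊ = k at k1 k2
  refine (av_mono fun ω => tail_three h ω k1).trans ?_
  rw [av_const_mul, tail_comm, mul_assoc]
  refine mul_le_mul_of_nonneg_left ?_ (sq_nonneg _)
  have h1 : av (fun f : Fin k → Fin n => av fun ω : Om n L =>
      exp (tailPs ε n (reach (op ω ℓ) univ (image f univ)).card)) ≤ exp 31 := av_le fun f =>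
    calc _ ≤ (1 + ε) ^ (image f univ).card := tail_one h _
      _ ≤ (1 + ε) ^ k := pow_le_pow_right₀ (by linarith) (card_image_le.trans_eq (card_fin k))
      _ ≤ exp (k * ε) := pow_le_exp (by linarith) k
      _ ≤ _ := exp_le_exp.2 k2
  refine (mul_le_mul_of_nonneg_left h1 (exp_pos _).le).trans ?_
  rw [← exp_add]
  exact exp_le_exp.2 (by linarith [h.big])

theorem p_tail : S_tail := by
  intro n L _ ℓ ℓ' ε ε' h
  have h4 := tail_four h
  have hen : 0 < ε * n := by linarith [h.en]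
  have hN : ∀ ω : Om n L, 0 ≤ NB ω ℓ (ε * n / 10) := fun ω => sum_nonneg fun _ _ => ind_nonneg _
  refine ⟨fun B => ?_, ?_, ?_⟩
  · calc _ ≤ av (fun ω : Om n L => (ε * n) ^ 2 * 49 * ind (B ω) +
          ind (7 * ε * n ≤ NB ω ℓ (ε * n / 10)) * NB ω ℓ (ε * n / 10) ^ 2) := av_mono fun ω => by
          have b0 := ind_nonneg (B ω)
          by_cases hc : 7 * ε * n ≤ NB ω ℓ (ε * n / 10)
          · rw [ind_of hc, one_mul]
            exact (mul_le_of_le_one_right (sq_nonneg _) (ind_le_one _)).trans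
              (le_add_of_nonneg_left (by positivity))
          · rw [ind_of_not hc, zero_mul, add_zero]
            refine mul_le_mul_of_nonneg_right ?_ b0
            have := pow_le_pow_left₀ (hN ω) (not_le.1 hc).le 2
            linarith
      _ ≤ _ := by rw [av_add, av_const_mul]; linarith
  · refine le_of_mul_le_mul_left (le_trans ?_ h4) (pow_pos hen 2)
    rw [← av_const_mul]
    refine av_mono fun ω => ?_
    rw [mul_comm]
    exact ind_mul_mono fun hc => pow_le_pow_left₀ hen.le (by linarith) 2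
  · refine le_of_mul_le_mul_left ?_ hen
    calc _ = av (fun ω : Om n L => ε * n * NB ω ℓ (ε * n / 10)) := (av_const_mul _ _).symm
      _ ≤ av (fun ω : Om n L => 7 * (ε * n) ^ 2 +
          ind (7 * ε * n ≤ NB ω ℓ (ε * n / 10)) * NB ω ℓ (ε * n / 10) ^ 2) := av_mono fun ω => by
          by_cases hc : 7 * ε * n ≤ NB ω ℓ (ε * n / 10)
          · rw [ind_of hc, one_mul]
            nlinarith [hN ω]
          · rw [ind_of_not hc, zero_mul, add_zero]
            nlinarith [not_le.1 hc]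
      _ ≤ _ := by
          rw [av_add, av_const]
          have h5 : exp (-(ε ^ 3 * n)) ≤ 1 := exp_le_one_iff.2 (by linarith [h.big])
          nlinarith [mul_le_mul_of_nonneg_left h5 (sq_nonneg (ε * n))]

end

end Pool.Agent.P.MP_5fda20_pr.O
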