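import Pool.Agent.P.MP_5fda20_pr.O.Defs

/-! Local bounds for the urn without logarithmic loss. -/

namespace Pool.Agent.P.MP_5fda20_pr.O

open Finset Real

noncomputable section

variable {φ : ℕ → ℝ} {c : ℕ → ℕ} {k ℓ L : ℕ} {W U s : ℝ}

theorem urn_pow8 (h : 0 ≤ U) : (U ^ (1 / 8 : ℝ)) ^ 8 = U := by
  rw [← rpow_natCast, ← rpow_mul h]; norm_num

theorem urn_le8 (hs : 0 ≤ s) (hU : 0 ≤ U) (h : s ^ 8 ≤ U) : s ≤ U ^ (1 / 8 : ℝ) :=
  (pow_le_pow_iff_left₀ hs (rpow_nonneg hU _) (by norm_num : 8 ≠ 0)).1 (by rwa [urn_pow8 hU])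

theorem urn_ge8 (hs : 0 ≤ s) (hU : 0 ≤ U) (h : U ≤ s ^ 8) : U ^ (1 / 8 : ℝ) ≤ s :=
  (pow_le_pow_iff_left₀ (rpow_nonneg hU _) hs (by norm_num : 8 ≠ 0)).1 (by rwa [urn_pow8 hU])

/-- The potential that pays for the losses. -/
def urnP (W U : ℝ) : ℝ := U ^ (1 / 8 : ℝ) - (W / U) ^ (1 / 8 : ℝ)

theorem urn_q (hW : 0 < W) (h1 : W ≤ U) : (W / U) ^ (1 / 8 : ℝ) ≤ 1 :=
  urn_ge8 zero_le_one (div_nonneg hW.le (hW.le.trans h1))
    (by rw [one_pow]; exact (div_le_one (hW.trans_le h1)).2 h1)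

theorem urn_P (hW : 0 < W) (h1 : W ≤ U) (h2 : U ≤ 1) : -1 ≤ urnP W U ∧ urnP W U ≤ 1 := by
  have hU := hW.trans_le h1
  have a1 := urn_q hW h1
  have a2 := urn_ge8 zero_le_one hU.le (by rwa [one_pow])
  have a3 := rpow_nonneg hU.le (1 / 8 : ℝ)
  have a4 := rpow_nonneg (div_pos hW hU).le (1 / 8 : ℝ)
  unfold urnP
  constructor <;> linarith

theorem urn_gain {x : ℝ} (hW : 0 < W) (hU : 0 < U) (h0 : 0 ≤ x) (h1 : x ≤ 1) :
    5 / 4 * (U ^ (1 / 8 : ℝ) + (W / U) ^ (1 / 8 : ℝ)) * x ≤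
      40 * (urnP W ((1 + x) * U) - urnP W U) := by
  have r0 := rpow_nonneg hU.le (1 / 8 : ℝ)
  have q0 := rpow_nonneg (div_pos hW hU).le (1 / 8 : ℝ)
  have a1 : U ^ (1 / 8 : ℝ) * (1 + x / 16) ≤ ((1 + x) * U) ^ (1 / 8 : ℝ) := by
    refine urn_le8 (by positivity) (by positivity) ?_
    rw [mul_pow, urn_pow8 hU.le, mul_comm]
    gcongr
    have b1 := pow_le_exp (x := x / 16) (by positivity) 8
    have b2 := exp_le_one_add h0
    refine b1.trans (le_trans (exp_le_exp.2 ?_) b2)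
    push_cast
    nlinarith
  have a2 : (W / ((1 + x) * U)) ^ (1 / 8 : ℝ) ≤ (W / U) ^ (1 / 8 : ℝ) * (1 - x / 32) := by
    refine urn_ge8 (mul_nonneg q0 (by linarith)) (by positivity) ?_
    have b1 := one_add_mul_le_pow (a := -(x / 32)) (by linarith) 8
    rw [mul_pow, urn_pow8 (div_pos hW hU).le, mul_comm (1 + x), ← div_div, div_eq_mul_inv _ (1 + x)]
    gcongr
    rw [inv_le_iff_one_le_mul₀ (by positivity)]
    push_cast at b1
    rw [← sub_eq_add_neg] at b1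
    nlinarith [mul_le_mul_of_nonneg_right b1 (show 0 ≤ 1 + x by positivity)]
  unfold urnP
  nlinarith [mul_nonneg r0 h0]

theorem urn_loss {β θ x : ℝ} (h0 : 0 ≤ β) (h1 : β ≤ θ) (h2 : θ ≤ 1 / 10) (h3 : β ≤ 4 * x) :
    -(5 * θ * log (1 - β * (1 + θ))) ≤ 25 * θ * x := by
  have hθ := h0.trans h1
  have a1 : β * (1 + θ) ≤ 11 / 10 * β := by nlinarith
  have a0 : 0 ≤ β * (1 + θ) := by positivity
  have a2 : -(β * (1 + θ) + (β * (1 + θ)) ^ 2) ≤ log (1 - β * (1 + θ)) :=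
    (le_log_iff_exp_le (by linarith)).2 (exp_le_one_sub a0 (by linarith))
  have a3 : (β * (1 + θ)) ^ 2 ≤ 11 / 100 * (β * (1 + θ)) := by nlinarith
  have a4 : -log (1 - β * (1 + θ)) ≤ 5 * x := by linarith
  nlinarith [mul_le_mul_of_nonneg_left a4 hθ]

theorem urn_succ (h : ℓ < L) : UU W c ℓ L = UU W c (ℓ + 1) L + sg c ℓ ^ 2 / 16 := by
  unfold UU; rw [clk_succ h]; ring

theorem urn_W : W ≤ UU W c ℓ L := by
  unfold UU; linarith [clk_nonneg (c := c) (ℓ := ℓ) (L := L)]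

theorem urn_good (h : ℓ < L) (hG : GoodU W c ℓ L) : GoodU W c (ℓ + 1) L :=
  ⟨by have := hG.1; rw [urn_succ h] at this; linarith [sq_nonneg (sg c ℓ)],
    fun i hi => hG.2 i (ℓ.le_succ.trans hi)⟩

theorem urn_var {V ρ β θ : ℝ} (hθ : 0 < θ) (hθ' : θ ≤ 1 / 10) (h0 : 0 ≤ β) (hβ : β ≤ θ)
    (e : V * β = ρ ^ 2 / 4) : 1 / 2 ≤ 1 - β * (1 + θ) ∧ V + ρ ^ 2 / 4 ≤ V / (1 - β * (1 + θ)) ∧
      V / (1 - β * (1 + θ)) ≤ V + ρ ^ 2 := by
  have hb : 1 / 2 ≤ 1 - β * (1 + θ) := by nlinarith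
  refine ⟨hb, ?_, ?_⟩
  · rw [le_div_iff₀ (by linarith)]
    nlinarith [mul_nonneg (sq_nonneg ρ) h0, mul_nonneg (sq_nonneg ρ) hθ.le,
      mul_nonneg (mul_nonneg (sq_nonneg ρ) h0) hθ.le]
  · rw [div_le_iff₀ (by linarith)]
    nlinarith [mul_le_mul_of_nonneg_left hb (sq_nonneg ρ),
      mul_le_mul_of_nonneg_left hθ' (sq_nonneg ρ)]

theorem urn_theta {V : ℝ} (hW : 0 < W) (h1 : W ≤ U) (h2 : U ≤ 1 / 10 ^ 8) (h3 : V ≤ 16 * U) :
    ∃ θ, U ^ (1 / 8 : ℝ) + (W / U) ^ (1 / 8 : ℝ) = 20 * θ ∧ 0 < θ ∧ θ ≤ 1 / 10 ∧ V ≤ θ ^ 2 := by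
  have hU : 0 < U := hW.trans_le h1
  have t0 := rpow_pos_of_pos hU (1 / 8 : ℝ)
  have t1 := urn_ge8 (s := 1 / 10) (by norm_num) hU.le (by linarith)
  have t2 := rpow_nonneg (div_pos hW hU).le (1 / 8 : ℝ)
  have t3 := urn_q hW h1
  have t4 := urn_pow8 hU.le
  generalize U ^ (1 / 8 : ℝ) = r at *
  generalize (W / U) ^ (1 / 8 : ℝ) = q at *
  refine ⟨(r + q) / 20, by ring, by linarith, by linarith, ?_⟩
  have b1 : r ^ 6 ≤ (1 / 10) ^ 6 := by gcongr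
  have b2 : (r / 20) ^ 2 ≤ ((r + q) / 20) ^ 2 := by gcongr; linarith
  nlinarith [mul_le_mul_of_nonneg_left b1 (sq_nonneg r)]

theorem urn_gs {A : ℝ} (hW : 0 < W) (hA : 0 ≤ A)
    (hφ : ∀ a, φ a ≤ A * exp (-(((a : ℝ) / c L - 1 / 2) ^ 2 / (2 * W)))) (hk : ℓ + k = L)
    (h0 : 0 < c ℓ) (hG : GoodU W c ℓ L) :
    ∃ V, UU W c ℓ L ≤ V ∧ V ≤ W + clk c ℓ L ∧ ∀ a ≤ c ℓ, hh φ c k ℓ a ≤
      A * exp (40 * (urnP W (UU W c ℓ L) + 1) + (log W - log V) / 2) *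
        exp (-(((a : ℝ) / c ℓ - 1 / 2) ^ 2 / (2 * V))) := by
  induction k generalizing ℓ with
  | zero =>
    obtain rfl : ℓ = L := hk
    refine ⟨W, by simp [UU, clk_self], by simp [clk_self], fun a _ => (hφ a).trans ?_⟩
    have := (urn_P hW (urn_W (c := c) (ℓ := ℓ) (L := ℓ)) (hG.1.trans (by norm_num))).1
    gcongr
    exact le_mul_of_one_le_right hA (one_le_exp (by linarith))
  | succ k ih =>
    have hl : ℓ < L := by omega
    obtain ⟨h1, h2, h3⟩ := hG.2 ℓ le_rfl hl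
    have hG' := urn_good hl hG
    obtain ⟨V, h5, h6, h7⟩ := ih (ℓ := ℓ + 1) (by omega) (h0.trans_le h1) hG'
    have hc := clk_nonneg (c := c) (ℓ := ℓ + 1) (L := L)
    have h6' : V ≤ 16 * UU W c (ℓ + 1) L := by unfold UU; linarith
    have h4 := hG'.1
    have hWU : W ≤ UU W c (ℓ + 1) L := urn_W
    rw [clk_succ hl, urn_succ hl]
    generalize UU W c (ℓ + 1) L = U at h3 h4 h5 h6' h7 hWU ⊢
    have hU : 0 < U := hW.trans_le hWU
    have hV : 0 < V := hU.trans_le h5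
    obtain ⟨θ, hθe, hθ, hθ', hV'⟩ := urn_theta hW hWU h4 h6'
    have h3' : sg c ℓ ^ 2 ≤ 4 * θ * U := by rw [hθe] at h3; linarith
    obtain ⟨s, hs⟩ := Nat.exists_eq_add_of_le h1
    have hC : (0 : ℝ) < c ℓ := by exact_mod_cast h0
    have hs0 : (0 : ℝ) ≤ s := s.cast_nonneg
    have hsC : (s : ℝ) ≤ c ℓ := by exact_mod_cast (show s ≤ c ℓ by omega)
    have hσ : sg c ℓ = s / c ℓ := by rw [sg, hs]; push_cast; ring
    obtain ⟨ρ, hρ⟩ : ∃ ρ : ℝ, ρ = s / (c ℓ + s) := ⟨_, rfl⟩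
    have r0 : 0 ≤ ρ := by rw [hρ]; positivity
    have r1 : ρ ≤ sg c ℓ := by rw [hρ, hσ]; gcongr; linarith
    have r2 : sg c ℓ ≤ 2 * ρ := by
      rw [hρ, hσ, ← mul_div_assoc, div_le_div_iff₀ hC (by positivity)]; nlinarith
    have r3 : ρ ^ 2 ≤ sg c ℓ ^ 2 := by gcongr
    have r4 : sg c ℓ ^ 2 ≤ (2 * ρ) ^ 2 := pow_le_pow_left₀ (r0.trans r1) r2 2
    have hβ : ρ ^ 2 / (4 * V) ≤ θ := by
      rw [div_le_iff₀ (by positivity)]
      linarith [mul_le_mul_of_nonneg_left h5 hθ.le]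
    have hβ0 : 0 ≤ ρ ^ 2 / (4 * V) := by positivity
    obtain ⟨hb, v1, v2⟩ := urn_var (V := V) (ρ := ρ) hθ hθ' hβ0 hβ (by field_simp)
    refine ⟨V / (1 - ρ ^ 2 / (4 * V) * (1 + θ)), by linarith, by linarith, fun a ha => ?_⟩
    have f0 : 0 ≤ (a : ℝ) / c ℓ := by positivity
    have f1 : (a : ℝ) / c ℓ ≤ 1 := (div_le_one hC).2 (by exact_mod_cast ha)
    have h8 := gs_step f0 f1 hV hθ hθ' hβ hV'
    have h9 := h7 (a + s) (by omega)
    have h10 := h7 a (by omega)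
    have e2 : ((a + s : ℕ) : ℝ) / c (ℓ + 1) - 1 / 2 = (1 - ρ) * (a / c ℓ - 1 / 2) + ρ / 2 := by
      rw [hs, hρ]; push_cast; field_simp; ring
    have e3 : (a : ℝ) / c (ℓ + 1) - 1 / 2 = (1 - ρ) * (a / c ℓ - 1 / 2) - ρ / 2 := by
      rw [hs, hρ]; push_cast; field_simp; ring
    rw [e2] at h9
    rw [e3] at h10
    have x0 : 0 ≤ sg c ℓ ^ 2 / (16 * U) := by positivity
    have g1 := urn_gain hW hU x0 (by
      rw [div_le_one (by positivity)]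
      linarith [mul_le_mul_of_nonneg_right hθ' hU.le])
    have g2 := urn_loss (x := sg c ℓ ^ 2 / (16 * U)) hβ0 hβ hθ' (by
      rw [show 4 * (sg c ℓ ^ 2 / (16 * U)) = sg c ℓ ^ 2 / (4 * U) by field_simp; ring]
      gcongr)
    rw [show (1 + sg c ℓ ^ 2 / (16 * U)) * U = U + sg c ℓ ^ 2 / 16 by field_simp, hθe] at g1
    rw [hh, show c (ℓ + 1) - c ℓ = s by omega, log_div hV.ne' (by linarith)]
    have h11 := mul_le_mul_of_nonneg_left h8
      (mul_nonneg hA (exp_pos (40 * (urnP W U + 1) + (log W - log V) / 2)).le)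
    have h12 := mul_le_mul_of_nonneg_left h9 f0
    have h13 := mul_le_mul_of_nonneg_left h10 (sub_nonneg.2 f1)
    refine le_trans (le_trans (by linarith) h11) ?_
    rw [← mul_assoc, mul_assoc A, ← exp_add]
    exact mul_le_mul_of_nonneg_right
      (mul_le_mul_of_nonneg_left (exp_le_exp.2 (by linarith)) hA) (exp_pos _).le

/-- The Gaussian bound for the balanced final value. -/
theorem urn_loc {n : ℕ} (hn : 10 ≤ n) (hc : c L = n) (hk : ℓ + k = L) (h0 : 0 < c ℓ)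
    (hG : GoodU (WW n) c ℓ L) : ∃ V, UU (WW n) c ℓ L ≤ V ∧ V ≤ 16 * UU (WW n) c ℓ L ∧
      ∀ a ≤ c ℓ, hh (fun i => ind (n / 2 = i)) c k ℓ a ≤
        2000 * exp 80 / (n * √V) * exp (-(((a : ℝ) / c ℓ - 1 / 2) ^ 2 / (2 * V))) := by
  have n0 : (0 : ℝ) < n := by exact_mod_cast (show 0 < n by omega)
  have hW : 0 < WW n := by unfold WW; positivity
  obtain ⟨V, h1, h2, h3⟩ := urn_gs (φ := fun i => ind (n / 2 = i)) (A := 2) hW (by norm_num)
    (fun a => by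
      by_cases h : n / 2 = a
      · subst h
        have a1 : (((n / 2 : ℕ) : ℝ) / c L - 1 / 2) ^ 2 / (2 * WW n) ≤ 1 / 2 := by
          rw [hc, div_le_iff₀ (by positivity)]
          refine (half_sq n0).trans ?_
          rw [← mul_assoc, show (1 : ℝ) / 2 * 2 = 1 by norm_num, one_mul, WW]
          gcongr
          norm_num
        rw [ind_of rfl]
        linarith [add_one_le_exp (-((((n / 2 : ℕ) : ℝ) / c L - 1 / 2) ^ 2 / (2 * WW n)))]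
      · rw [ind_of_not h]; positivity) hk h0 hG
  have hV : 0 < V := (hW.trans_le urn_W).trans_le h1
  refine ⟨V, h1, by unfold UU; linarith, fun a ha => (h3 a ha).trans ?_⟩
  have a1 := (urn_P hW (urn_W (c := c) (ℓ := ℓ) (L := L)) (hG.1.trans (by norm_num))).2
  have a2 : exp ((log (WW n) - log V) / 2) = 1000 / (n * √V) := by
    have b1 : √(WW n) = 1000 / n := by
      rw [WW, show (10 : ℝ) ^ 6 / n ^ 2 = (1000 / n) ^ 2 by ring, sqrt_sq (by positivity)]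
    rw [sub_div, ← log_sqrt hW.le, ← log_sqrt hV.le, exp_sub, exp_log (sqrt_pos.2 hW),
      exp_log (sqrt_pos.2 hV), b1, div_div]
  have a3 : exp (40 * (urnP (WW n) (UU (WW n) c ℓ L) + 1)) ≤ exp 80 := exp_le_exp.2 (by linarith)
  rw [exp_add, a2]
  gcongr
  calc _ ≤ 2 * (exp 80 * (1000 / (n * √V))) := by gcongr
    _ = _ := by ring

/-- The uniform bound away from the middle. -/
theorem urn_off {n a : ℕ} (hn : 10 ≤ n) (hc : c L = n) (hk : ℓ + k = L) (h0 : 0 < c ℓ)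
    (hG : GoodU (WW n) c ℓ L) (ha : a ≤ c ℓ) (hf : 1 / 16 ≤ ((a : ℝ) / c ℓ - 1 / 2) ^ 2) :
    hh (fun i => ind (n / 2 = i)) c k ℓ a ≤ exp 230 / 10 * UU (WW n) c ℓ L ^ 2 / n := by
  have n0 : (0 : ℝ) < n := by exact_mod_cast (show 0 < n by omega)
  have hW : 0 < WW n := by unfold WW; positivity
  obtain ⟨V, h1, h2, h3⟩ := urn_loc hn hc hk h0 hG
  have hU : 0 < UU (WW n) c ℓ L := hW.trans_le urn_W
  have hV : 0 < V := hU.trans_le h1
  have v1 : V ≤ 1 := by linarith [hG.1]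
  have v2 : V ≤ √V := le_sqrt_of_sq_le (by nlinarith)
  have a1 : exp (-(((a : ℝ) / c ℓ - 1 / 2) ^ 2 / (2 * V))) ≤ 6 * (32 * V) ^ 3 := by
    have b1 := pow_div_factorial_le_exp (1 / (32 * V)) (by positivity) 3
    have b2 : 1 / (32 * V) ≤ ((a : ℝ) / c ℓ - 1 / 2) ^ 2 / (2 * V) := by
      rw [show 1 / (32 * V) = 1 / 16 / (2 * V) by field_simp; norm_num]
      gcongr
    rw [exp_neg, inv_le_comm₀ (exp_pos _) (by positivity)]
    refine le_trans (le_of_eq ?_) (b1.trans (exp_le_exp.2 b2))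
    norm_num [Nat.factorial]
    field_simp
  have a2 : (10 : ℝ) ^ 13 ≤ exp 150 := by
    have b2 : (10 : ℝ) ≤ exp 10 := by linarith [add_one_le_exp (10 : ℝ)]
    calc (10 : ℝ) ^ 13 ≤ 10 ^ 15 := by norm_num
      _ ≤ exp 10 ^ 15 := by gcongr
      _ = exp 150 := by rw [← exp_nat_mul]; norm_num
  calc _ ≤ _ := h3 a ha
    _ ≤ 2000 * exp 80 / (n * V) * (6 * (32 * V) ^ 3) := by gcongr
    _ = 2000 * 6 * 32 ^ 3 * exp 80 * V ^ 2 / n := by field_simp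
    _ ≤ 2000 * 6 * 32 ^ 3 * exp 80 * (16 * UU (WW n) c ℓ L) ^ 2 / n := by gcongr
    _ = (2000 * 6 * 32 ^ 3 * 16 ^ 2 * 10) * exp 80 / 10 * UU (WW n) c ℓ L ^ 2 / n := by ring
    _ ≤ exp 150 * exp 80 / 10 * UU (WW n) c ℓ L ^ 2 / n := by
        gcongr
        exact le_trans (by norm_num) a2
    _ = _ := by rw [← exp_add]; norm_num

theorem urn_move {f ρ : ℝ} (f0 : 0 ≤ f) (f1 : f ≤ 1) (r0 : 0 ≤ ρ) (r1 : ρ ≤ 1 / 8)
    (h : 9 / 64 ≤ (f - 1 / 2) ^ 2) : 1 / 16 ≤ (f + ρ * (1 - f) - 1 / 2) ^ 2 ∧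
      1 / 16 ≤ (f - ρ * f - 1 / 2) ^ 2 := by
  have m1 : 0 ≤ ρ * (1 - f) := mul_nonneg r0 (by linarith)
  have m2 : 0 ≤ ρ * f := mul_nonneg r0 f0
  have hf : f ≤ 1 / 8 ∨ 7 / 8 ≤ f := by
    by_contra hh
    push Not at hh
    nlinarith [hh.1, hh.2]
  constructor <;> rcases hf with g | g <;> nlinarith

theorem urn_far {n : ℕ} (hn : 10 ≤ n) (hc : c L = n) (hk : ℓ + k = L) (h0 : 0 < c ℓ)
    (hG : GoodU (WW n) c ℓ L) (hU : UU (WW n) c ℓ L ≤ U) (a : ℕ) (ha : a ≤ c ℓ)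
    (hf : 1 / 16 ≤ ((a : ℝ) / c ℓ - 1 / 2) ^ 2) : hh (fun i => ind (n / 2 = i)) c k ℓ a ≤
      exp 230 * U ^ 2 / n * ((a : ℝ) / c ℓ * (1 - (a : ℝ) / c ℓ)) := by
  have n10 : (10 : ℝ) ≤ n := by exact_mod_cast hn
  have hW : 0 < WW n := by unfold WW; positivity
  have hB : 0 ≤ exp 230 * U ^ 2 / n := by positivity
  induction k generalizing ℓ a with
  | zero =>
    obtain rfl : ℓ = L := hk
    have f1 : (a : ℝ) / c ℓ ≤ 1 := div_le_one_of_le₀ (by exact_mod_cast ha) (by positivity)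
    rw [hh, ind_of_not]
    · exact mul_nonneg hB (mul_nonneg (by positivity) (by linarith))
    · rintro rfl
      rw [hc] at hf
      have a1 := hf.trans (half_sq (by linarith))
      rw [div_le_div_iff₀ (by norm_num) (by positivity)] at a1
      nlinarith
  | succ k ih =>
    have hl : ℓ < L := by omega
    have hC : (0 : ℝ) < c ℓ := by exact_mod_cast h0
    have f0 : 0 ≤ (a : ℝ) / c ℓ := by positivity
    have f1 : (a : ℝ) / c ℓ ≤ 1 := (div_le_one hC).2 (by exact_mod_cast ha)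
    rcases le_total (((a : ℝ) / c ℓ - 1 / 2) ^ 2) (9 / 64) with h | h
    · have u0 : 0 ≤ UU (WW n) c ℓ L := hW.le.trans urn_W
      calc _ ≤ _ := urn_off hn hc hk h0 hG ha hf
        _ ≤ exp 230 / 10 * U ^ 2 / n := by gcongr
        _ = exp 230 * U ^ 2 / n * (1 / 10) := by ring
        _ ≤ _ := mul_le_mul_of_nonneg_left (by nlinarith) hB
    obtain ⟨h1, -, -⟩ := hG.2 ℓ le_rfl hl
    have h2 := hG.1
    rw [urn_succ hl] at h2 hU
    have h3 : WW n ≤ UU (WW n) c (ℓ + 1) L := urn_W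
    have ih' := ih (ℓ := ℓ + 1) (by omega) (h0.trans_le h1) (urn_good hl hG)
      (by linarith [sq_nonneg (sg c ℓ)])
    obtain ⟨s, hs⟩ := Nat.exists_eq_add_of_le h1
    have hs0 : (0 : ℝ) ≤ s := s.cast_nonneg
    have hσ : sg c ℓ = s / c ℓ := by rw [sg, hs]; push_cast; ring
    obtain ⟨ρ, hρ⟩ : ∃ ρ : ℝ, ρ = s / (c ℓ + s) := ⟨_, rfl⟩
    have r0 : 0 ≤ ρ := by rw [hρ]; positivity
    have r1 : ρ ≤ sg c ℓ := by rw [hρ, hσ]; gcongr; linarith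
    have r2 : ρ ≤ 1 / 8 :=
      r1.trans (abs_le_of_sq_le_sq' (by linarith) (by norm_num)).2
    have e2 : ((a + s : ℕ) : ℝ) / c (ℓ + 1) = a / c ℓ + ρ * (1 - a / c ℓ) := by
      rw [hs, hρ]; push_cast; field_simp; ring
    have e3 : (a : ℝ) / c (ℓ + 1) = a / c ℓ - ρ * (a / c ℓ) := by
      rw [hs, hρ]; push_cast; field_simp; ring
    have h9 := ih' (a + s) (by omega)
    have h10 := ih' a (by omega)
    rw [e2] at h9
    rw [e3] at h10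
    rw [hh, show c (ℓ + 1) - c ℓ = s by omega]
    obtain ⟨m1, m2⟩ := urn_move f0 f1 r0 r2 h
    have h11 := mul_le_mul_of_nonneg_left (h9 m1) f0
    have h12 := mul_le_mul_of_nonneg_left (h10 m2) (sub_nonneg.2 f1)
    have h13 := mul_nonneg hB (mul_nonneg (mul_nonneg f0 (sub_nonneg.2 f1)) (sq_nonneg ρ))
    linarith

theorem p_urn : S_urn := by
  intro n k ℓ L c hn hc hk h0 hG a ha
  refine ⟨?_, urn_far hn hc hk h0 hG le_rfl a ha⟩
  have n0 : (0 : ℝ) < n := by exact_mod_cast (show 0 < n by omega)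
  have hW : 0 < WW n := by unfold WW; positivity
  obtain ⟨V, h1, -, h3⟩ := urn_loc hn hc hk h0 hG
  have hU : 0 < UU (WW n) c ℓ L := hW.trans_le urn_W
  have hV : 0 < V := hU.trans_le h1
  have a1 : exp (-(((a : ℝ) / c ℓ - 1 / 2) ^ 2 / (2 * V))) ≤ 1 :=
    exp_le_one_iff.2 (neg_nonpos.2 (by positivity))
  have a2 : (2000 : ℝ) ≤ exp 130 := by
    have := quadratic_le_exp_of_nonneg (x := 130) (by norm_num)
    linarith
  calc _ ≤ _ := h3 a ha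
    _ ≤ exp 130 * exp 80 / (n * √(UU (WW n) c ℓ L)) * 1 := by gcongr
    _ = _ := by rw [← exp_add]; norm_num

end

end Pool.Agent.P.MP_5fda20_pr.O
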