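import Pool.Agent.P.MP_5fda20_pr.O.Fin2
import Pool.Agent.P.MP_5fda20_pr.O.Urn
import Pool.Agent.P.MP_5fda20_pr.O.Ev
import Pool.Agent.P.MP_5fda20_pr.O.Rm
import Pool.Agent.P.MP_5fda20_pr.O.Tail
import Pool.Agent.P.MP_5fda20_pr.O.Mid
import Pool.Agent.P.MP_5fda20_pr.O.QQ
import Pool.Agent.P.MP_5fda20_pr.O.Cnt
import Pool.Agent.P.MP_5fda20_pr.O.Ex
import Pool.Agent.P.MP_5fda20_pr.O.Out
import Pool.Agent.P.MP_5fda20_pr.O.Late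
import Pool.Agent.P.MP_5fda20_pr.O.H12
import Pool.Agent.P.MP_5fda20_pr.O.H3
import Pool.Agent.P.MP_5fda20_pr.O.Dec

/-! The upper bound without logarithmic loss. -/

namespace Pool.Agent.P.MP_5fda20_pr.O

theorem upper_order : ∃ C : ℝ, ∀ᶠ n : ℕ in Filter.atTop,
    pMST (⊤ : SimpleGraph (Fin n)) ≤ C * (n : ℝ) ^ (-2 / 3 : ℝ) :=
  upper4 p_urn p_ev (p_bal p_rm1 p_rm2 p_tail) (p_unb p_rm1 p_rm2 (p_QQ p_tail (p_mid p_tail)))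
    p_rm3 p_late (p_dec p_d1 p_d2 (p_h2 p_h1) p_h3) (p_str p_tail (p_ex (p_mid p_tail)) p_out)

end Pool.Agent.P.MP_5fda20_pr.O
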